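import Pool.Agent.H80.PN.Stgh
import Pool.Agent.H18.AB.Grp

/-!
# The data of a jointly nonfull pair, base labels with smaller exponents

`pd_cls_s`: `pd_cls`, the condition at the windows only. `stgd_rec_s`: `stgd_rec_n`, where the base
labels have the exponents `e₀ - μ / 2`, `ρ₀ - μ / 2`. `GrA.pairs`: the same from the record `GrA`.
-/

set_option autoImplicit false

namespace Pool.ALT

open Finset Real MvPolynomial
open Pool.Agent.H49.Ent Pool.Agent.H32.Dense Pool.STK Pool.KA Pool.KSAT Pool.K2S Pool.PB Pool.S6C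
  Pool.GEN Pool.RCD Pool.LA91 Pool.OWN68 Pool.PKG
open Pool.V0F (LbU)

/-- The condition with smaller exponents. -/
theorem altC_half {m : ℕ} {S : PCl m} {c : ℕ → Fin m} {r : ℕ} {L : ℕ → ℝ → ℝ → ℝ}
    {e₀ ρ₀ π₀ μ w : ℝ} (h : AltC S c r L e₀ ρ₀ π₀ μ w) (hμ : 0 < μ) :
    AltC S c r L (e₀ - μ / 2) (ρ₀ - μ / 2) π₀ (μ / 2) w := by
  obtain ⟨rk, E, a1, a2, a3, a4, a5, a6, a7, a8, a9, a10⟩ := h
  exact ⟨rk, E, a1, by linarith only [a2], a3, by linarith only [a4], by linarith only [a5],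
    by linarith only [a6], by linarith only [a7, hμ], by linarith only [a8, hμ],
    by linarith only [a9, hμ], a10⟩

/-- **Pairs of natural labels** of the windows `t + W (M₁ + 1) q`, `t + W (M₂ + 1) q` over the same
label of the window `t + W 0 q`. -/
theorem pd_cls_s {r D : ℕ} {S : PCl (r + 2)} {al : ℝ} {g₀ : ℝ → ℝ}
    {P : List (Fin (r + 2)) × Fin (r + 2) → ℝ → ℝ → ℝ}
    {θ : ℝ} {P₂ : ℕ → List (Fin (r + 2)) × Fin (r + 2) → ℝ → ℝ → ℝ} {θ₂ Eb e₂ : ℕ → ℝ}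
    {c : ℕ → Fin (r + 2)} {Pt : ℝ → ℝ → ℝ} {rt : ℝ → ℝ} {h K₀ g : ℝ} {L T : ℕ → ℝ → ℝ → ℝ}
    {Sl : ℕ → ℝ} {κ : ℕ → Kg} {G : Set ℝ} {S₀ N : ℕ} {A V : ℕ → ℝ} {S₂ N' : ℕ} {V' : ℕ → ℝ}
    {K ε q t : ℝ}
    (R : RecG S al g₀ P θ P₂ θ₂ Eb e₂ c Pt rt h K₀ g L T Sl κ G S₀ N A V S₂ N' V' K ε q t)
    (hcu : ∀ w ∈ G, ∃ rd : ℕ → ℝ, (∀ l < r + 1, 0 ≤ rd l) ∧
      Chn S c 0 (r + 1) w w (L r w w) (fun l => L l w w) rd) {e₀ ρ₀ π₀ μ : ℝ} (hμ : 0 < μ)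
    (hρ₀ : ρ₀ + μ ≤ 1)
    {M₁ M₂ : ℕ} (hM : M₁ ≤ M₂) {W : ℕ → ℝ}
    (hC : ∀ k ≤ M₂ + 1, AltC S c r L e₀ ρ₀ π₀ μ (t + W k * q))
    (hWm : ∀ k ≤ M₂, W k ≤ W (k + 1))
    (hWK : ∀ k ≤ M₂ + 1, |W k| ≤ K) (hWG : ∀ k ≤ M₂ + 1, t + W k * q ∈ G)
    (hab : Sl (r + 1) ≤ Sl r) (hb : 0 ≤ Sl (r + 1)) {ms e : ℝ}
    (hWs : ∀ k ≤ M₂, W (k + 1) - W k ≤ ms) (he : 0 < e) (heq : e ≤ q)
    (hms : Sl (r + 1) * ms * q + 4 * (ε * q) ≤ e / 16) (heμ : e ≤ μ / 4)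
    (hwq : q ≤ t + W 0 * q) (hw1 : t + W (M₂ + 1) * q ≤ 1)
    (hn : AlC S c r D L e₀ μ (t + W 0 * q)) (hv : AlC S c r D L e₀ μ (t + W (M₁ + 1) * q))
    (ht : AlC S c r D L e₀ μ (t + W (M₂ + 1) * q)) :
    ∃ S' : PCl (r + 2), S'.Ne ∧ (∀ (τ : ℝ) (J : ℕ) (F : Fam (r + 2) J) (A : F.Ω → Prop),
        S'.St τ J F A → S.St τ J F A) ∧
      RecG S' al g₀ P θ P₂ θ₂ Eb e₂ c Pt rt h K₀ g L T Sl κ G S₀ N A V S₂ N' V' K ε q t ∧
      ∃ p₁ p₂ pa₁ pa₂ : ℝ, Bas S' (fun J F A => ∃ (V : Type) (z : PtT F → V) (z' : LnT F → V)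
        (G : V → MvPolynomial (Option (Fin (r + 2))) ℝ),
        NzQ (LbF ((range (r + 1)).image c) (c (r + 1)) D e₀ ρ₀
          (L (r + 1) (t + W 0 * q) (t + W 0 * q) - e / 16) (t + W 0 * q)) c r (c (r + 1))
          D D D D (t + W 0 * q) (t + W (M₁ + 1) * q) p₁ p₂ (e₀ - μ / 2)
          (L r (t + W (M₁ + 1) * q) (t + W (M₁ + 1) * q) + μ / 4)
          (L (r + 1) (t + W (M₁ + 1) * q) (t + W (M₁ + 1) * q) - e / 2)
          (t + W (M₂ + 1) * q) pa₁ pa₂ (e₀ - μ / 2)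
          (L r (t + W (M₂ + 1) * q) (t + W (M₂ + 1) * q) + μ / 4)
          (L (r + 1) (t + W (M₂ + 1) * q) (t + W (M₂ + 1) * q) - e / 2) J F A V z z' G) := by
  have hq := R.q0
  have hmono : ∀ j k : ℕ, j ≤ k → k ≤ M₂ + 1 → W j ≤ W k := by
    intro j k hjk
    induction k, hjk using Nat.le_induction with
    | base => intro _; exact le_rfl
    | succ k _ ih => intro hk; exact (ih (by omega)).trans (hWm k (by omega))
  -- the natural labels at one window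
  have key : ∀ M ≤ M₂, AlC S c r D L e₀ μ (t + W (M + 1) * q) → ∃ p₁ p₂ : ℝ,
      p₁ < L (r + 1) (t + W (M + 1) * q) (t + W (M + 1) * q) ∧
      p₂ < L r (t + W (M + 1) * q) (t + W (M + 1) * q) ∧
      NzO S (LbF ((range (r + 1)).image c) (c (r + 1)) D e₀ ρ₀
        (L (r + 1) (t + W 0 * q) (t + W 0 * q) - e / 16) (t + W 0 * q)) c r (c (r + 1)) D D D
        (t + W 0 * q) (t + W (M + 1) * q) p₁ p₂ (e₀ - μ / 2)
        (L r (t + W (M + 1) * q) (t + W (M + 1) * q) + μ / 4)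
        (L (r + 1) (t + W (M + 1) * q) (t + W (M + 1) * q) - e / 2) := by
    intro M hMM hA
    obtain ⟨E, h1, h2⟩ := hA
    obtain ⟨rk, E', b1, b2, b3, b4, b5, b6, b7, b8, b9, b10⟩ := hC (M + 1) (by omega)
    have hwM : t + W 0 * q ≤ t + W (M + 1) * q := by
      have := mul_le_mul_of_nonneg_right (hmono 0 (M + 1) (Nat.zero_le _) (by omega)) hq.le
      linarith only [this]
    have hwM1 : t + W (M + 1) * q ≤ 1 := by
      have := mul_le_mul_of_nonneg_right (hmono (M + 1) (M₂ + 1) (by omega) le_rfl) hq.le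
      linarith only [this, hw1]
    have hlow : t + W (M + 1) * q ≤ L (r + 1) (t + W (M + 1) * q) (t + W (M + 1) * q) :=
      R.low_at (by omega) (by linarith only [hwM, hwq, hq]) le_rfl hwM1
    exact nz_at R hcu (fun k hk => hWm k (by omega)) (fun k hk => hWK k (by omega))
      (fun k hk => hWG k (by omega)) hab (ν := Sl (r + 1) * ms)
      (mul_nonneg hb (by
        have h3 := hWs 0 (Nat.zero_le _)
        have h4 := hWm 0 (Nat.zero_le _)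
        linarith only [h3, h4]))
      (fun k hk => mul_le_mul_of_nonneg_left (hWs k (by omega)) hb) he hms
      (by linarith only [hwq, hq])
      (fun k hk => by
        obtain ⟨rk, E', -, -, -, -, -, -, -, -, -, h5⟩ := hC k (by omega)
        exact ⟨rk, E', h5⟩) h2 e₀ ρ₀ (by linarith only [hlow, hwM, hwq, heq, he])
      (by linarith only [hμ]) (by linarith only [b6, hρ₀, hμ]) (by linarith only [h1, hμ])
      (by linarith only [b5, heμ, hμ])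
  obtain ⟨p₁, p₂, a1, a2, a3⟩ := key M₁ hM hv
  obtain ⟨pa₁, pa₂, a4, a5, a6⟩ := key M₂ le_rfl ht
  obtain ⟨Ev, hv1, hv2⟩ := hv
  obtain ⟨Et, ht1, ht2⟩ := ht
  obtain ⟨rk, E', b1, b2, b3, b4, b5, b6, b7, b8, b9, b10⟩ := hC 0 (Nat.zero_le _)
  have hex := AlC.lb hn b6 le_rfl (e := e / 16)
    (p := L (r + 1) (t + W 0 * q) (t + W 0 * q) - e / 16) (by linarith only [he])
    (by linarith only [heμ, hμ, he]) le_rfl
  obtain ⟨S', c1, c2, c3, c4⟩ := nzq_cls R (Ψ := LbF ((range (r + 1)).image c) (c (r + 1)) D e₀ ρ₀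
    (L (r + 1) (t + W 0 * q) (t + W 0 * q) - e / 16) (t + W 0 * q)) LbF.hs hex hv2 ht2 a1 a2 a4
    a5 a3 a6
  exact ⟨S', c1, c2, c3, p₁, p₂, pa₁, pa₂, c4⟩

end Pool.ALT

namespace Pool.PN18

open Finset Real MvPolynomial
open Pool.Agent.H49.Ent Pool.Agent.H32.Dense Pool.STK Pool.KA Pool.KSAT Pool.K2S Pool.PB Pool.GEN
open Pool.S6C Pool.RCD Pool.LA91 Pool.OWN68 Pool.AJW Pool.AJX Pool.CHT Pool.PKG Pool.ALT
open Pool.PSQ78
open Pool.V0F (LbU)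
open Pool.CR99 (PairE)

/-- **The data of a jointly nonfull pair of any radius `R < τ`, base labels at the window
`t - Tn q`, at a record**: `pairy_rec` with `R`, `τ`, `Tn` free, in a subclass with the same record. -/
theorem stgd_rec_s {r D : ℕ} (hr : 1 ≤ r) {S : PCl (r + 2)} {al : ℝ} {g₀ : ℝ → ℝ}
    {P : List (Fin (r + 2)) × Fin (r + 2) → ℝ → ℝ → ℝ}
    {θ : ℝ} {P₂ : ℕ → List (Fin (r + 2)) × Fin (r + 2) → ℝ → ℝ → ℝ} {θ₂ Eb e₂ : ℕ → ℝ}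
    {c : ℕ → Fin (r + 2)} {Pt : ℝ → ℝ → ℝ} {rt : ℝ → ℝ} {h K₀ g : ℝ} {L T : ℕ → ℝ → ℝ → ℝ}
    {Sl : ℕ → ℝ} {κ : ℕ → Kg} {G : Set ℝ} {S₀ N : ℕ} {A V : ℕ → ℝ} {S₂ N' : ℕ} {V' : ℕ → ℝ}
    {K' ε q t : ℝ} {S₁ : PCl (r + 2)} (hne₁ : S₁.Ne)
    (hs₁ : ∀ (τ : ℝ) (J : ℕ) (F : Fam (r + 2) J) (A : F.Ω → Prop), S₁.St τ J F A → S.St τ J F A)
    (Rc : RecG S₁ al g₀ P θ P₂ θ₂ Eb e₂ c Pt rt h K₀ g L T Sl κ G S₀ N A V S₂ N' V' K' ε q t)
    (hκ : ∀ l < r, κ l = .one) (ha : 1 < Sl r) (hb : 0 < Sl (r + 1)) (hab : Sl (r + 1) ≤ Sl r)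
    (hh1 : h ≤ 1) (hε : 0 < ε) (hK₀ : 0 < K₀)
    (hcu₀ : ∀ w ∈ G, ∃ rd : ℕ → ℝ, (∀ l < r + 1, 0 ≤ rd l) ∧
      Chn S c 0 (r + 1) w w (L r w w) (fun l => L l w w) rd) {e₀ ρ₀ π₀ μ : ℝ} (hμ : 0 < μ)
    (hρ₀ : ρ₀ + μ ≤ 1) (halt₀ : ∀ w ∈ G, |w - g| ≤ μ → AltC S c r L e₀ ρ₀ π₀ μ w)
    (hnear : ∀ x : ℝ, |x| ≤ K' → |t + x * q - g| ≤ μ)
    (hlab : ∀ k < N', (∃ E : ℝ, E + μ ≤ e₀ ∧
      AlW S₁ c r (c (r + 1)) D (t + V' k * q) (L (r + 1) (t + V' k * q) (t + V' k * q))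
        (L r (t + V' k * q) (t + V' k * q)) E 0 (L r (t + V' k * q) (t + V' k * q))) ∧
      ∀ e : ℝ, 0 < e → Bas S₁ (fun J F A => ∃ (V₁ : Type) (z : PtT F → V₁) (z' : LnT F → V₁)
        (g : V₁ → ℕ → MvPolynomial (Option (Fin (r + 2))) ℝ),
        LbX F c 0 (r + 1) D e (fun i => max 0 (L r (t + V' k * q) (t + V' k * q) -
          L i (t + V' k * q) (t + V' k * q))) (t + V' k * q)
          (fun _ => L r (t + V' k * q) (t + V' k * q))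
          (fun l => L l (t + V' k * q) (t + V' k * q)) A z z' g))
    {el dl : ℝ} {k₀ : ℕ} (hel : 0 ≤ el) (hdl : 0 ≤ dl) (hdlb : dl ≤ Sl (r + 1) * Real.log 2)
    (hful : ∀ S' : PCl (r + 2), S'.Ne → SubC S' S → ∀ w₀ : ℝ, 0 < w₀ → w₀ < g →
      AltE S' ((range (r + 1)).image c) (c (r + 1)) (max D D * max 1 D) e₀ ρ₀ π₀ w₀ →
      ∃ φ : ℝ, Sl (r + 1) * Real.log 2 - dl ≤ φ ∧ ∀ k ≥ k₀, AltAt S ((range (r + 1)).image c)
        ((range r).image c) (c (r + 1)) (max D D * max 1 D) e₀ ρ₀ π₀ (fun w => L (r + 1) w w) g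
        φ el k)
    -- the radius and the windows
    {R τ Tn : ℝ} (hR : 0 < R) (hτ : R < τ) (hTn : τ ≤ Tn) (hTn1 : pzD R (Sl (r + 1)) + τ ≤ Tn)
    (hk₀ : (K₀ + τ) * q ≤ (1 / 2) ^ k₀)
    {M : ℕ} {W : ℕ → ℝ} (hW0 : W 0 = -Tn) (hW1 : W (M + 1) = -τ) (hW2 : W (2 * M + 1 + 1) = 0)
    (hWm : ∀ k, W k ≤ W (k + 1))
    {ms : ℝ} (hms0 : 0 < ms) (hWs : ∀ k, W (k + 1) - W k ≤ ms)
    (hWb : ∀ k ≤ 2 * M + 1 + 1, -Tn ≤ W k ∧ W k ≤ 0)
    (hWy : ∀ y, -τ ≤ y → y ≤ 0 → ∃ k ≤ 2 * M + 1 + 1, |W k - y| ≤ ms)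
    (hWin : ∀ k ≤ 2 * M + 1 + 1, ∃ j < N', V' j = W k) (hWx : ∃ j < N', V' j = -(K₀ + 1))
    {X φ kf ℓ e' : ℝ} (hWj : ∀ k ≤ r, ∃ j < N', V' j = jfV r (-τ) X k)
    -- the numbers
    (hX1 : 2 * (6 * τ) ≤ X) (hX2 : 2 * (Sl r * R) + 2 ≤ X)
    (hX3 : 32 * (r + 1) * φ ≤ X) (hkf1 : 3 ^ r * X ≤ kf)
    (hkf2 : Sl (r + 1) * R + 2 * (r + 1) * φ + 1 ≤ kf) (hℓ1 : kf + τ ≤ ℓ)
    (hℓ2 : 3 ^ r * X + R + 1 ≤ ℓ) (hℓ3 : Sl r * R + R + 1 ≤ ℓ) (hK1 : ℓ + 1 ≤ K')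
    (hK2 : τ + 3 ^ r * X ≤ K')
    (hK3 : Sl (r + 1) * τ + Sl (r + 1) * R + 2 ≤ K')
    (hK4 : Sl r * R + τ + 2 ≤ K')
    (hK5 : Tn + K₀ + 1 ≤ K')
    (hφ0 : 0 < φ) (hφ1 : φ ≤ 1 / 8) (hεφ : 2 * ε ≤ φ) (he' : 0 < e') (he1 : e' ≤ φ / 8)
    (he2 : e' ≤ 1 / 64) (hεe : 128 * ε ≤ e')
    (hbτ : 2 * e' ≤ Sl (r + 1) * (τ - R)) (hams : Sl r * ms ≤ e' / 32)
    (hqμ : (Sl r * R + Sl (r + 1) * R + 4) * q ≤ μ / 4) {pf : ℕ → ℝ} {Nf : ℕ → ℕ → ℝ}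
    (hpf : ∀ l < r, L l t t - φ * q ≤ pf l)
    (hX4 : τ + Sl (r + 1) * R + 2 * (r + 1) * φ + 1 ≤ X)
    (hNf : ∀ l < r, ∀ j ≤ 1, nX r (fun l x => L l x x) (t + -τ * q) (X * q) l -
      (j : ℕ) * (t + -τ * q) ≤ Nf l j) {δ : ℝ} (hδ0 : 0 < δ)
    (hδ1 : (8 * r + 49) * e' ≤ δ * R / 4) (hδ2 : el * (2 * (K₀ + τ)) ≤ δ * R / 4)
    (hδ3 : dl ≤ δ / 4) (N₀ : ℕ) :
    ∃ S' : PCl (r + 2), S'.Ne ∧
      (∀ (τ : ℝ) (J : ℕ) (F : Fam (r + 2) J) (A : F.Ω → Prop), S'.St τ J F A → S₁.St τ J F A) ∧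
      RecG S' al g₀ P θ P₂ θ₂ Eb e₂ c Pt rt h K₀ g L T Sl κ G S₀ N A V S₂ N' V' K' ε q t ∧
      (∀ i ≤ r, 0 ≤ eP r L (e₀ - μ / 2) (t + -τ * q) i ∧
        L i (t + -τ * q) (t + -τ * q) + eP r L (e₀ - μ / 2) (t + -τ * q) i + 3 * K' * q ≤ 1) ∧
      0 ≤ L r (t + -τ * q) (t + -τ * q) + μ / 4 ∧ L r (t + -τ * q) (t + -τ * q) + μ / 4 < 1 ∧
      ∃ p₁ p₂ pa₁ pa₂ : ℝ,
      PairE S' (PsQ (LbF ((range (r + 1)).image c) (c (r + 1)) D (e₀ - μ / 2) (ρ₀ - μ / 2)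
          (L (r + 1) (t + -Tn * q) (t + -Tn * q) - e' * q / 16) (t + -Tn * q)) c r D
          (max D D * max 1 D) (t + -Tn * q) (t + -τ * q) t p₁ p₂
          (e₀ - μ / 2 - μ / 4) (L r (t + -τ * q) (t + -τ * q) + μ / 8)
          (L (r + 1) (t + -τ * q) (t + -τ * q) - e' * q / 2) pa₁ pa₂ (e₀ - μ / 2 - μ / 4)
          (L r t t + μ / 8) (L (r + 1) t t - e' * q / 2) (ℓ * q) (e' * q)
          (eP r L (e₀ - μ / 2) (t + -τ * q))
          (fun _ => L r (t + -τ * q) (t + -τ * q) + μ / 4)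
          (fun i => L i (t + -τ * q) (t + -τ * q))
          (nX r (fun l x => L l x x) (t + -τ * q) (X * q))) c r (max D D * max 1 D)
        ((range (r + 1)).image c) (c (r + 1)) (Sl r) (Sl (r + 1)) R (h * Sl (r + 1)) δ (ℓ * q) N₀
        (t + -τ * q) t q (fun i => L i (t + -τ * q) (t + -τ * q))
        (nX r (fun l x => L l x x) (t + -τ * q) (X * q)) (fun x => L (r + 1) x x) pf Nf (e' * q)
        (eP r L (e₀ - μ / 2) (t + -τ * q) (r + 1) + e' * q)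
        (L r (t + -τ * q) (t + -τ * q) + μ / 4 + e' * q) (L (r + 1) (t + -τ * q) (t + -τ * q))
        (eP r L (e₀ - μ / 2) (t + -τ * q)) (fun _ => L r (t + -τ * q) (t + -τ * q) + μ / 4)
        (t + -Tn * q) (L (r + 1) (t + -Tn * q) (t + -Tn * q)) (e₀ - μ / 2) (ρ₀ - μ / 2)
        (D * max 1 D) := by
  have hq := Rc.q0
  have ht0 := Rc.t0
  have ht1 := Rc.t1
  have htn := abs_le.1 Rc.near
  have hcu₁ : ∀ w ∈ G, ∃ rd : ℕ → ℝ, (∀ l < r + 1, 0 ≤ rd l) ∧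
      Chn S₁ c 0 (r + 1) w w (L r w w) (fun l => L l w w) rd := fun w hw => by
    obtain ⟨rd, h1, h2⟩ := hcu₀ w hw
    exact ⟨rd, h1, h2.sub hs₁⟩
  have halt₁ : ∀ w ∈ G, |w - g| ≤ μ → AltC S₁ c r L e₀ ρ₀ π₀ μ w := fun w hw hw' =>
    altC_sub hs₁ (halt₀ w hw hw')
  have ha0 : 0 < Sl r := by linarith only [ha]
  have hfl : 0 < (⌊Sl (r + 1)⌋₊ : ℝ) + 1 - Sl (r + 1) := by
    have := Nat.lt_floor_add_one (Sl (r + 1))
    linarith only [this]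
  have hD0 : 0 < pzD R (Sl (r + 1)) := by
    unfold pzD
    positivity
  have hwin : ∀ x : ℝ, (∃ j < N', V' j = x) → t + x * q ∈ G := fun x hx => by
    obtain ⟨j, hj, e⟩ := hx
    rw [← e]
    exact Rc.memG.2 j hj
  have halc : ∀ x : ℝ, (∃ j < N', V' j = x) → AlC S₁ c r D L e₀ μ (t + x * q) := fun x hx => by
    obtain ⟨j, hj, e⟩ := hx
    rw [← e]
    exact (hlab j hj).1
  have haa : 0 < Sl r * R := mul_pos ha0 hR
  have hab0 : 0 < Sl (r + 1) * R := mul_pos hb hR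
  have hτ0 : 0 < τ := by linarith only [hR, hτ]
  have hTn0 : 0 < Tn := by linarith only [hτ0, hTn]
  have he : 0 < e' * q := mul_pos he' hq
  have hεq : 0 < ε * q := mul_pos hε hq
  have hK50 : 0 < K' := by linarith only [hK5, hTn0, hK₀]
  have hK5q : (Tn + K₀ + 1) * q ≤ K' * q := mul_le_mul_of_nonneg_right hK5 hq.le
  have hτq : 0 < τ * q := mul_pos hτ0 hq
  have hTnq : 0 < Tn * q := mul_pos hTn0 hq
  have hTτq : τ * q ≤ Tn * q := mul_le_mul_of_nonneg_right hTn hq.le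
  have hK₀q : 0 < K₀ * q := mul_pos hK₀ hq
  have hWK : ∀ k ≤ 2 * M + 1 + 1, |W k| ≤ K' := fun k hk => by
    obtain ⟨h1, h2⟩ := hWb k hk
    rw [abs_of_nonpos h2]
    linarith only [h1, hK5, hK₀]
  have hWG : ∀ k ≤ 2 * M + 1 + 1, t + W k * q ∈ G := fun k hk => hwin _ (hWin k hk)
  have hvG : t + -τ * q ∈ G := by
    rw [← hW1]
    exact hWG _ (by omega)
  have htG : t ∈ G := by
    have h1 := hWG (2 * M + 1 + 1) le_rfl
    rwa [hW2, zero_mul, add_zero] at h1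
  have hvK : |(-τ : ℝ)| ≤ K' := by
    rw [← hW1]
    exact hWK _ (by omega)
  have hDK : D ≤ max D D * max 1 D := by
    calc D = D * 1 := (mul_one D).symm
      _ ≤ D * max 1 D := Nat.mul_le_mul_left D (le_max_left 1 D)
      _ = max D D * max 1 D := by rw [max_self]
  -- the labels at an earlier window
  have hxK : |-(K₀ + 1)| ≤ K' := by
    rw [abs_neg, abs_of_pos (by linarith only [hK₀])]
    linarith only [hK5, hTn0]
  obtain ⟨ph, hph, hAt⟩ := hful S₁ hne₁ hs₁ (t + -(K₀ + 1) * q)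
    (by linarith only [ht0, hK5q, hTnq]) (by linarith only [htn.2, hq]) (by
      obtain ⟨rk, E', b1, b2, b3, b4, b5, b6, b7, b8, b9, b10⟩ := halt₁ _ (hwin _ hWx)
        (hnear _ hxK)
      exact (halc _ hWx).lb b6 hDK hμ le_rfl (by linarith only [b7]))
  -- the scale
  obtain ⟨k, hk, hk1, hk2⟩ := pow_near (mul_pos (by linarith only [hK₀, hτ0] :
    0 < K₀ + τ) hq) hk₀
  -- the natural labels
  have hbms : Sl (r + 1) * ms * q ≤ e' / 32 * q := by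
    have h1 := mul_le_mul_of_nonneg_right hab hms0.le
    exact mul_le_mul_of_nonneg_right (h1.trans hams) hq.le
  have h4q : 4 * q ≤ μ / 4 := by
    have : 4 * q ≤ (Sl r * R + Sl (r + 1) * R + 4) * q := by
      linarith only [mul_pos haa hq, mul_pos hab0 hq]
    exact this.trans hqμ
  have he2q : e' * q ≤ 1 / 64 * q := mul_le_mul_of_nonneg_right he2 hq.le
  have hεeq : 128 * ε * q ≤ e' * q := mul_le_mul_of_nonneg_right hεe hq.le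
  have halc' : ∀ x : ℝ, (∃ j < N', V' j = x) →
      AlC S₁ c r D L (e₀ - μ / 2) (μ / 2) (t + x * q) := fun x hx => by
    obtain ⟨E, h1, h2⟩ := halc x hx
    exact ⟨E, by linarith only [h1], h2⟩
  have eμ4 : μ / 2 / 2 = μ / 4 := by ring
  have eμ8 : μ / 2 / 4 = μ / 8 := by ring
  obtain ⟨S', c1, c2, R', p₁, p₂, pa₁, pa₂, c4⟩ := pd_cls_s Rc hcu₁ (half_pos hμ)
    (e₀ := e₀ - μ / 2) (ρ₀ := ρ₀ - μ / 2) (π₀ := π₀) (by linarith only [hρ₀, hμ])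
    (M₁ := M) (M₂ := 2 * M + 1) (by omega) (fun k hk => altC_half (halt₁ _ (hWG k hk)
      (hnear _ (hWK k hk))) hμ) (fun k _ => hWm k) hWK hWG hab hb.le
    (ms := ms) (e := e' * q) (fun k _ => hWs k) he (by linarith only [he2q, hq])
    (by linarith only [hbms, hεeq]) (by linarith only [he2q, h4q, hq])
    (by rw [hW0]; linarith only [ht0, hK5q, hK₀q]) (by
      rw [hW2, zero_mul, add_zero]
      linarith only [ht1, mul_pos hK50 hq]) (halc' _ (hWin 0 (by omega)))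
    (halc' _ (hWin (M + 1) (by omega))) (halc' _ (hWin (2 * M + 1 + 1) le_rfl))
  rw [hW0, hW1, hW2, zero_mul, add_zero, eμ4, eμ8] at c4
  have hlv : ∀ e : ℝ, 0 < e → Bas S' (fun J F A => ∃ (V₁ : Type) (z : PtT F → V₁)
      (z' : LnT F → V₁) (g : V₁ → ℕ → MvPolynomial (Option (Fin (r + 2))) ℝ),
      LbX F c 0 (r + 1) D e (fun i => max 0 (L r (t + -τ * q) (t + -τ * q) -
        L i (t + -τ * q) (t + -τ * q))) (t + -τ * q)
        (fun _ => L r (t + -τ * q) (t + -τ * q))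
        (fun l => L l (t + -τ * q) (t + -τ * q)) A z z' g) := fun e he => by
    obtain ⟨j, hj, hj'⟩ := hWin (M + 1) (by omega)
    have h1 := (hlab j hj).2 e he
    rw [hj', hW1] at h1
    exact Bas.sub c2 h1
  have hcu' : ∀ w ∈ G, ∃ rd : ℕ → ℝ, (∀ l < r + 1, 0 ≤ rd l) ∧
      Chn S' c 0 (r + 1) w w (L r w w) (fun l => L l w w) rd := fun w hw => by
    obtain ⟨rd, h1, h2⟩ := hcu₁ w hw
    exact ⟨rd, h1, h2.sub c2⟩
  have halt' : ∀ w ∈ G, |w - g| ≤ μ → AltC S' c r L e₀ ρ₀ π₀ μ w := fun w hw hw' =>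
    altC_sub c2 (halt₁ w hw hw')
  -- the room
  have hroom : ∀ j ≤ r + 1, L j (t + -τ * q) (t + -τ * q) + 3 * K' * q < 1 := by
    intro j hj
    have Wn := Rc.tg (r + 1) (by omega) (by omega)
    have h1 := Wn.room j hj (t + -τ * q) (by
      rw [add_sub_cancel_left, abs_mul, abs_of_pos hq]
      exact mul_le_mul_of_nonneg_right hvK hq.le)
    have h2 := Wn.Eb0
    linarith only [h1, h2]
  obtain ⟨rk, E', b1, b2, b3, b4, b5, b6, b7, b8, b9, b10⟩ := halt₁ _ hvG (hnear _ hvK)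
  have hv0 : 0 ≤ t + -τ * q := by linarith only [ht0, hK5q, hK₀q, hTτq, hq]
  have hv1 : t + -τ * q ≤ 1 := by linarith only [ht1, hτq, mul_pos hK50 hq]
  have hL0 : ∀ i ≤ r, 0 ≤ L i (t + -τ * q) (t + -τ * q) := fun i hi =>
    hv0.trans (Rc.low_at (by omega) hv0 le_rfl hv1)
  have hUv1 : L r (t + -τ * q) (t + -τ * q) + μ / 4 < 1 := by linarith only [b6, hρ₀, hμ]
  have hEi : ∀ i ≤ r, 0 ≤ eP r L (e₀ - μ / 2) (t + -τ * q) i ∧
      L i (t + -τ * q) (t + -τ * q) + eP r L (e₀ - μ / 2) (t + -τ * q) i + 3 * K' * q ≤ 1 := by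
    intro i hi
    rw [eP_lt L _ _ hi]
    refine ⟨le_max_left _ _, ?_⟩
    have h1 := hroom i (by omega)
    have h2 := hroom r (by omega)
    rcases max_choice 0 (L r (t + -τ * q) (t + -τ * q) -
      L i (t + -τ * q) (t + -τ * q)) with h3 | h3
    · rw [h3]
      linarith only [h1]
    · rw [h3]
      linarith only [h2]
  have hτRq : R * q ≤ τ * q := mul_le_mul_of_nonneg_right hτ.le hq.le
  have hbτq := mul_le_mul_of_nonneg_right hbτ hq.le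
  -- the rows
  have hrows := rows_stg (D := D) hr R' hκ rfl rfl ha hb hab hR hτ hh1 hε hcu' hμ hρ₀ halt' hnear
    (k := k) (ph := ph) (el := el) (dl := dl) (((hAt k hk).sub hs₁).sub c2) hel hdl hdlb hph
    (by linarith only [htn.1, hk1]) (by linarith only [htn.2, hk1, hτRq, hτq])
    (Ψ := PsQ (LbF ((range (r + 1)).image c) (c (r + 1)) D (e₀ - μ / 2) (ρ₀ - μ / 2)
          (L (r + 1) (t + -Tn * q) (t + -Tn * q) - e' * q / 16) (t + -Tn * q)) c r D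
          (max D D * max 1 D) (t + -Tn * q) (t + -τ * q) t p₁ p₂
          (e₀ - μ / 2 - μ / 4) (L r (t + -τ * q) (t + -τ * q) + μ / 8)
          (L (r + 1) (t + -τ * q) (t + -τ * q) - e' * q / 2) pa₁ pa₂ (e₀ - μ / 2 - μ / 4)
          (L r t t + μ / 8) (L (r + 1) t t - e' * q / 2) (ℓ * q) (e' * q)
          (eP r L (e₀ - μ / 2) (t + -τ * q))
          (fun _ => L r (t + -τ * q) (t + -τ * q) + μ / 4)
          (fun i => L i (t + -τ * q) (t + -τ * q))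
          (nX r (fun l x => L l x x) (t + -τ * q) (X * q))) (e := e' * q) (X := X) (ℓ := ℓ)
    (by
      rintro J F A V C z z' G₁ G₂ cc ⟨g', h1, h2, h3, h4, h5, h6⟩
      exact ⟨g', h1, h2, h3, h5⟩) hms0 (fun y hy1 hy2 => by
      obtain ⟨k, hk, hk'⟩ := hWy y hy1 (by linarith only [hy2, hτ])
      exact ⟨W k, hWK k hk, hWG k hk, hk'⟩) hvG hX2 hℓ2 hℓ3 hK1 hK2 hK3 hK4 he
    (by linarith only [he2q]) (by linarith only [hεeq, hεq]) (by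
      linarith only [hbτq, hεeq, hεq]) hqμ (δ := δ) ?_ N₀
  swap
  · -- the errors
    have h1 := mul_le_mul_of_nonneg_right hδ1 hq.le
    have h2 := mul_le_mul_of_nonneg_right hδ2 hq.le
    have h3 := mul_le_mul_of_nonneg_right hδ3 (mul_pos hR hq).le
    have h4 := mul_le_mul_of_nonneg_left hk2 hel
    have h5 := mul_le_mul_of_nonneg_right hams hq.le
    have h6 : 0 < δ * R * q := mul_pos (mul_pos hδ0 hR) hq
    linarith only [h1, h2, h3, h4, h5, h6, hbms, hεeq, hεq, he]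
  -- the value of the label at `t`
  have hdN := abs_le.1 (Rc.dL2 (l := r + 1) (by omega) hvK (by
    rw [abs_zero]
    exact hK50.le : |(0 : ℝ)| ≤ K'))
  rw [zero_mul, add_zero] at hdN
  have eN1 : Sl (r + 1) * ((-τ - 0) * q) = -(Sl (r + 1) * τ * q) := by ring
  rw [eN1] at hdN
  have PE := paire_core_n (D := D) hr R' hκ (a := Sl r) (b := Sl (r + 1)) (ρ := R)
    (τ := τ) (ta := t) hR hb hτ0 (by linarith only [hτq]) le_rfl hcu'
    (Ψ₀ := LbF ((range (r + 1)).image c) (c (r + 1)) D (e₀ - μ / 2) (ρ₀ - μ / 2)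
      (L (r + 1) (t + -Tn * q) (t + -Tn * q) - e' * q / 16) (t + -Tn * q))
    (Pn := L (r + 1) (t + -Tn * q) (t + -Tn * q)) LbF.hs (fun _ _ _ _ _ _ _ h => h) c4
    (K := max D D * max 1 D) (e := e' * q) (E := eP r L (e₀ - μ / 2) (t + -τ * q))
    (rd := fun _ => L r (t + -τ * q) (t + -τ * q) + μ / 4) (by
      refine Bas.mono 0 (hlv (e' * q) he) ?_
      rintro J - F A ⟨V₁, z, z', g', h1⟩
      have hJ0 : (0 : ℝ) ≤ J := Nat.cast_nonneg J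
      refine ⟨V₁, z, z', g', fun i hi1 hi2 => ?_⟩
      refine (h1 i hi1 hi2).mono (Finset.Subset.refl _) hDK (Nat.floor_le_floor
        (mul_le_mul_of_nonneg_right ?_ hJ0)) (Nat.floor_le_floor
        (mul_le_mul_of_nonneg_right ?_ hJ0)) le_rfl
      · rw [eP_lt L _ _ (by omega)]
      · show L r (t + -τ * q) (t + -τ * q) + e' * q ≤
          L r (t + -τ * q) (t + -τ * q) + μ / 4 + e' * q
        linarith only [hμ])
    le_rfl (by rw [eP_last]; linarith only [he, hμ]) (by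
      show L r (t + -τ * q) (t + -τ * q) + μ / 8 ≤
        L r (t + -τ * q) (t + -τ * q) + μ / 4 + e' * q
      linarith only [he, hμ]) (by linarith only [he]) (by
      linarith only [hdN.2, hbτq, he, hεq, hεeq]) (fun i hi => by
      have h1 := hEi i hi.le
      have h2 := hL0 i hi.le
      linarith only [h1.2, h2, mul_pos hK50 hq]) (fun i hi => by
      show 0 ≤ L r (t + -τ * q) (t + -τ * q) + μ / 4
      linarith only [hL0 r le_rfl, hμ]) (by linarith only [he]) (by linarith only [hq])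
    (by linarith only [ht0, hK5q, hK₀q, hq]) (by
      have := mul_le_mul_of_nonneg_right hTn1 hq.le
      linarith only [this]) hD0.le htG (X := X) (φ := φ) (kf := kf) (ℓ := ℓ)
    (fun k hk => hwin _ (hWj k hk)) hX1 hX3 hkf1 hkf2 hℓ1 hK1 hK2 (by
      linarith only [hK4, haa]) hφ0 hφ1 hεφ he (by
      have := mul_le_mul_of_nonneg_right he1 hq.le
      linarith only [this]) (by linarith only [he2q]) hpf hX4 hNf hδ0 hrows.1 hrows.2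
  exact ⟨S', c1, c2, R', hEi, by linarith only [hL0 r le_rfl, hμ], hUv1, p₁, p₂, pa₁, pa₂, PE⟩

section

variable {r D : ℕ} {S S₁ : PCl (r + 2)} {al : ℝ} {g₀ : ℝ → ℝ}
    {P : List (Fin (r + 2)) × Fin (r + 2) → ℝ → ℝ → ℝ} {θ : ℝ}
    {P₂ : ℕ → List (Fin (r + 2)) × Fin (r + 2) → ℝ → ℝ → ℝ} {θ₂ Eb e₂ : ℕ → ℝ}
    {c : ℕ → Fin (r + 2)} {Pt : ℝ → ℝ → ℝ} {rt : ℝ → ℝ} {h K₀ g : ℝ} {L T : ℕ → ℝ → ℝ → ℝ}
    {Sl : ℕ → ℝ} {κ : ℕ → Kg} {G : Set ℝ} {S₀ N : ℕ} {A V : ℕ → ℝ} {S₂ N' : ℕ} {V' : ℕ → ℝ}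
    {K' ε q t a e₀ ρ₀ π₀ μ el dl : ℝ} {k₀ : ℕ}

/-- **The data of a jointly nonfull pair.** -/
theorem GrA.pairs (hr : 1 ≤ r)
    (H : GrA r D S S₁ al g₀ P θ P₂ θ₂ Eb e₂ c Pt rt h K₀ g L T Sl κ G S₀ N A V S₂ N' V'
      K' ε q t a e₀ ρ₀ π₀ μ el dl k₀) {δ R τ Tn X φ kf ℓ e' ms : ℝ}
    (n : PrN r a K₀ K' ε δ el dl R τ Tn X φ kf ℓ e' ms) {M : ℕ} {W : ℕ → ℝ}
    (w : PrW r N' V' K₀ τ Tn X ms M W) (hk₀ : (K₀ + τ) * q ≤ (1 / 2) ^ k₀)
    (hqμ : (2 * (a * R) + 4) * q ≤ μ / 4) (N₀ : ℕ) :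
    ∃ S' : PCl (r + 2), S'.Ne ∧
      (∀ (τ : ℝ) (J : ℕ) (F : Fam (r + 2) J) (A : F.Ω → Prop), S'.St τ J F A → S₁.St τ J F A) ∧
      (∀ i ≤ r, 0 ≤ eP r L (e₀ - μ / 2) (t + -τ * q) i ∧
        L i (t + -τ * q) (t + -τ * q) + eP r L (e₀ - μ / 2) (t + -τ * q) i + 3 * K' * q ≤ 1) ∧
      0 ≤ L r (t + -τ * q) (t + -τ * q) + μ / 4 ∧ L r (t + -τ * q) (t + -τ * q) + μ / 4 < 1 ∧
      ∃ p₁ p₂ pa₁ pa₂ : ℝ,
      PairE S' (PsQ (LbF ((range (r + 1)).image c) (c (r + 1)) D (e₀ - μ / 2)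
          (ρ₀ - μ / 2)
          (L (r + 1) (t + -Tn * q) (t + -Tn * q) - e' * q / 16) (t + -Tn * q)) c r D
          (max D D * max 1 D) (t + -Tn * q) (t + -τ * q) t p₁ p₂
          (e₀ - μ / 2 - μ / 4) (L r (t + -τ * q) (t + -τ * q) + μ / 8)
          (L (r + 1) (t + -τ * q) (t + -τ * q) - e' * q / 2) pa₁ pa₂ (e₀ - μ / 2 - μ / 4)
          (L r t t + μ / 8) (L (r + 1) t t - e' * q / 2) (ℓ * q) (e' * q)
          (eP r L (e₀ - μ / 2) (t + -τ * q))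
          (fun _ => L r (t + -τ * q) (t + -τ * q) + μ / 4)
          (fun i => L i (t + -τ * q) (t + -τ * q))
          (nX r (fun l x => L l x x) (t + -τ * q) (X * q))) c r (max D D * max 1 D)
        ((range (r + 1)).image c) (c (r + 1)) a a R (h * a) δ (ℓ * q) N₀
        (t + -τ * q) t q (fun i => L i (t + -τ * q) (t + -τ * q))
        (nX r (fun l x => L l x x) (t + -τ * q) (X * q)) (fun x => L (r + 1) x x)
        (fun l => L l t t)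
        (fun l j => nX r (fun l x => L l x x) (t + -τ * q) (X * q) l - (j : ℕ) * (t + -τ * q))
        (e' * q)
        (eP r L (e₀ - μ / 2) (t + -τ * q) (r + 1) + e' * q)
        (L r (t + -τ * q) (t + -τ * q) + μ / 4 + e' * q) (L (r + 1) (t + -τ * q) (t + -τ * q))
        (eP r L (e₀ - μ / 2) (t + -τ * q)) (fun _ => L r (t + -τ * q) (t + -τ * q) + μ / 4)
        (t + -Tn * q) (L (r + 1) (t + -Tn * q) (t + -Tn * q)) (e₀ - μ / 2) (ρ₀ - μ / 2)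
        (D * max 1 D) := by
  have hq := H.rc.q0
  have ha := H.ha
  have hφq : 0 < φ * q := mul_pos n.hφ0 hq
  obtain ⟨S', h1, h2, -, h4, h5, h6, p₁, p₂, pa₁, pa₂, h7⟩ :=
    stgd_rec_s hr (R := R) (τ := τ) (Tn := Tn) H.ne H.hs H.rc H.hκ (by rw [H.hSa]; exact ha)
      (by rw [H.hSn]; linarith only [ha]) (by rw [H.hSn, H.hSa]) H.hh1 H.hε H.hK₀ H.hcu H.hμ H.hρ₀
      H.halt H.hnear H.hlab H.hel H.hdl (by rw [H.hSn]; exact H.hdlb)
      (by rw [H.hSn]; exact H.hful) n.hR n.hτ n.hTn (by rw [H.hSn]; exact n.hTn1) hk₀ w.hW0 w.hW1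
      w.hW2 w.hWm n.hms0 w.hWs w.hWb w.hWy w.hWin w.hWx (X := X) (φ := φ) (kf := kf) (ℓ := ℓ)
      (e' := e') w.hWj n.hX1 (by rw [H.hSa]; exact n.hX2) n.hX3 n.hkf1
      (by rw [H.hSn]; exact n.hkf2) n.hℓ1 n.hℓ2 (by rw [H.hSa]; exact n.hℓ3) n.hK1 n.hK2
      (by rw [H.hSn]; exact n.hK3) (by
        rw [H.hSa]
        have h3 := n.hK3
        have h4 : τ ≤ a * τ := by
          have := mul_le_mul_of_nonneg_right ha.le
            (show 0 ≤ τ by linarith only [n.hR, n.hτ])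
          linarith only [this]
        linarith only [h3, h4]) n.hK5 n.hφ0 n.hφ1 n.hεφ n.he' n.he1 n.he2 n.hεe
      (by rw [H.hSn]; exact n.hbτ) (by rw [H.hSa]; exact n.hams)
      (by
        rw [H.hSa, H.hSn]
        have e1 : (a * R + a * R + 4) * q = (2 * (a * R) + 4) * q := by ring
        rw [e1]
        exact hqμ) (pf := fun l => L l t t)
      (Nf := fun l j => nX r (fun l x => L l x x) (t + -τ * q) (X * q) l -
        (j : ℕ) * (t + -τ * q)) (fun l _ => by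
          show L l t t - φ * q ≤ L l t t
          linarith only [hφq]) (by rw [H.hSn]; exact n.hX4)
      (fun l _ j _ => le_rfl) n.hδ0 n.hδ1 n.hδ2 n.hδ3 N₀
  rw [H.hSa, H.hSn] at h7
  exact ⟨S', h1, h2, h4, h5, h6, p₁, p₂, pa₁, pa₂, h7⟩

end

end Pool.PN18
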