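import Pool.Agent.H63.AB.Bst
import Pool.Agent.H12.AB.Trm

/-!
# One tie and one hop, rows of the maximal members

`tie_stm`, `hop_stm`: `tie_stp`, `hop_stp` with the rows of the members with maximal codes.
`hopB_om`, `tieB_om`: `HopB`, `TieB` from the data of a step, rows of the maximal members.
-/

set_option autoImplicit false

namespace Pool.AB63

open Finset Real MvPolynomial
open Pool.Agent.H49.Ent Pool.Agent.H32.Dense Pool.STK Pool.KA Pool.KSAT Pool.K2S Pool.PB Pool.GEN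
open Pool.S6C Pool.RCD Pool.LA91 Pool.OWN68 Pool.AJW Pool.AJX Pool.CHT Pool.PN18 Pool.LPK12
open Pool.TE46 Pool.RWB12
open Pool.GRD (LbP)

/-- **One tie.** -/
theorem tie_stm (K B : ℕ) {i : ℕ} (hi : 1 ≤ i ∧ i ≤ K + 2) {α : ℝ} (hα : 0 < α) {h : ℝ}
    (hh : 0 < h) (hhα : h ≤ α) {ηl : ℝ} (hηl : 0 < ηl) {ε₁ : ℝ} (hε₁ : 0 < ε₁) :
    ∃ ε' : ℝ, 0 < ε' ∧ ∃ ε : ℝ, 0 < ε ∧ ε ≤ ε₁ ∧ ∃ δ : ℝ, 0 < δ ∧ ∃ c₀ : ℝ, 0 < c₀ ∧
    ∃ N₀ : ℕ, 0 < N₀ ∧ ∀ al : ℝ, 0 < al →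
    ∃ δ₁ : ℝ, 0 < δ₁ ∧
    ∀ {m : ℕ} {S : PCl m} {c : ℕ → Fin m} {r : ℕ} {Ψ₀ : Fm2 m} {e : ℝ} {E : ℕ → ℝ}
    {b w t : ℝ} {rd p : ℕ → ℝ} {X : ℕ → ℕ → ℝ} {U : Type} {Qp : Qt m U} {δn δs δc p₁ p₂ q k κ δh : ℝ}
    (_ : StC S c r K Ψ₀ e E b w t rd p X Qp δn δs δc) (_ : 0 < q) (_ : w + α * q ≤ 1) (_ : 0 ≤ k)
    (_ : δc ≤ δ₁ * q) (_ : κ + δn + δc + δs ≤ δ₁ * q) (_ : δn + δh + k ≤ δ₁ * q)
    {I₀ : Finset (Fin m)} {N₁ N₂ : ℕ → ℝ},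
    NwE (K + 2) {i} w p₁ α q N₁ → NwE (K + 2) {i} w p₂ α q N₂ →
    (∀ j ≤ K + 2, F1 S (fun J F => ptr F J) (vg t) (fun _ F => F.T) Qp
      (qJet m ((range r).image c) (c r) j b (p r) (N₁ j)) e (δ₁ * q)) →
    (∀ j ≤ K + 2, F1 S (fun J F => ptr F J) (vg t) (fun _ F => F.T) Qp
      (qJet m ((range (r + 1)).image c) (c (r + 1)) j b (p (r + 1)) (N₂ j)) e (δ₁ * q)) →
    (∀ j, i < j → j ≤ K + 2 → F1 S (fun J F => ptr F J) (vg w) (fun _ F => F.T) Qp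
      (qJet m ((range r).image c) (c r) j b (p r) (p₁ + α * q - j * w)) e δh) →
    (∀ j, i < j → j ≤ K + 2 → F1 S (fun J F => ptr F J) (vg w) (fun _ F => F.T) Qp
      (qJet m ((range (r + 1)).image c) (c (r + 1)) j b (p (r + 1)) (p₂ + α * q - j * w)) e δh) →
    IpF S (fun J F => ptr F J) w t (fun _ F => F.T) Qp
      ((qJet m ((range r).image c) (c r) i b (p r) (p₁ + α * q - i * w)).prod
        (qJet m ((range (r + 1)).image c) (c (r + 1)) i b (p (r + 1)) (p₂ + α * q - i * w)))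
      ((qJet m ((range r).image c) (c r) i b (p r) (p₁ - i * w)).prod
        (qJet m ((range (r + 1)).image c) (c (r + 1)) i b (p (r + 1)) (p₂ - i * w))) e k κ →
    AlF S (fun J F => ptr F J) t (fun _ F => F.T) Qp
      (qJet m ((range r).image c) (c r) i b (p r) (p₁ + ε' * (α * q) - i * w)) e (al * q) →
    RwV S (FmM (FmB Ψ₀ c r K e E b w rd p X) w k).swap (c (r + 1)) (c r) w (p₂ - α * q)
      (p₁ - α * q) α α (2 * q) h (δ * q) c₀ N₀ →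
    Fr2 S (FmM (FmB Ψ₀ c r K e E b w rd p X) w k) I₀ (c r) (c (r + 1)) w (p₁ + α * q)
      (p₂ + α * q) B (δ₁ * q) →
    Fl2 S (FmB Ψ₀ c r K e E b w rd p X) I₀ (c r) (c (r + 1)) w p₁ p₂ (α * q) ε
      ((α - h + ηl) * q * Real.log 2) → False := by
  obtain ⟨ε', hε', ε, hε, hεε, δ, hδ, c₀, hc₀, N₀, hN₀, H⟩ := tie_rbm K B hi hα hh hhα hηl hε₁
  refine ⟨ε', hε', ε, hε, hεε, δ, hδ, c₀, hc₀, N₀, hN₀, fun al hal => ?_⟩
  obtain ⟨δ₁, hδ₁, H⟩ := H al hal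
  refine ⟨δ₁, hδ₁, ?_⟩
  intro m S c r Ψ₀ e E b w t rd p X U Qp δn δs δc p₁ p₂ q k κ δh D hq hwq hk hc1 hc2 hc3 I₀ N₁ N₂
    hN1 hN2 hj1 hj2 hu hn hIp hAl hRw hFr hFl
  obtain ⟨C₀, htm⟩ := D.tm
  obtain ⟨K₀, hpa⟩ := D.pa
  refine H htm D.ne D.w0 D.wt D.t1 hq hwq (Qu := Qp) (f := fun J F => ptr F J)
    (y := fun _ F => F.T) ptr_id (fun J F => ⟨id, fun _ => rfl⟩) (e := e)
    (FmB Ψ₀ c r K e E b w rd p X) (FmB.lab (Ψ₀ := Ψ₀)) (FmB.hs D.her)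
    (Ψ' := FmM (FmB Ψ₀ c r K e E b w rd p X) w k) (fun J F A V C z z' G₁ G₂ c h => h.1)
    ((fmm_ex htm hk D.ex).and hpa) hN1 hN2 ?_ ?_ hRw ?_ ?_ ?_ (FmB.alu hAl) hFr hFl
  · obtain ⟨M1, J1, x1⟩ := FmB.qu Ψ₀ c r K e E b w rd p X (p₁ + α * q - i * w) i
    obtain ⟨M2, J2, x2⟩ := FmB.qn Ψ₀ c r K e E b w rd p X (p₂ + α * q - i * w) i
    obtain ⟨M3, J3, x3⟩ := FmB.qu Ψ₀ c r K e E b w rd p X (p₁ - i * w) i
    obtain ⟨M4, J4, x4⟩ := FmB.qn Ψ₀ c r K e E b w rd p X (p₂ - i * w) i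
    refine ip3_of_ipf htm D.wt D.t1
      (fun J F A V C z z' G₁ G₂ c h => (FmB.lab J F A V C z z' G₁ G₂ c h).2.2)
      D.np hIp ⟨max M1 M2, max J1 J2, fun J hJ F A V C z z' G₁ G₂ c h => ⟨?_, ?_⟩⟩
      ⟨max M3 M4, max J3 J4, fun J hJ F A V C z z' G₁ G₂ c h => ⟨?_, ?_⟩⟩ D.ctx D.self hc2
    · exact (qJet m _ _ _ _ _ _).mono (le_max_left _ _) le_rfl
        (x1 J ((le_max_left _ _).trans hJ) F A V C z z' G₁ G₂ c h)
    · exact (qJet m _ _ _ _ _ _).mono (le_max_right _ _) le_rfl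
        (x2 J ((le_max_right _ _).trans hJ) F A V C z z' G₁ G₂ c h)
    · exact (qJet m _ _ _ _ _ _).mono (le_max_left _ _) le_rfl
        (x3 J ((le_max_left _ _).trans hJ) F A V C z z' G₁ G₂ c h)
    · exact (qJet m _ _ _ _ _ _).mono (le_max_right _ _) le_rfl
        (x4 J ((le_max_right _ _).trans hJ) F A V C z z' G₁ G₂ c h)
  · intro K₁
    refine Bas.mono 0 (D.ctx K₁) ?_
    intro J _ F A h V C z z' G₁ G₂ c hc u₀ hu₀
    obtain ⟨V₁, z₁, hz₁, h1⟩ := h V C z z' G₁ G₂ c hc u₀ hu₀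
    exact ⟨V₁, z₁, hz₁, h1.trans (mul_le_mul_of_nonneg_right hc1 (Nat.cast_nonneg J))⟩
  · exact fun j hj => FmB.fwu (hj1 j hj)
  · exact fun j hj => FmB.fwn (hj2 j hj)
  · exact hi2_of htm D.np hu hn hc3

/-- **One hop.** -/
theorem hop_stm (K : ℕ) {i : ℕ} (hi : 1 ≤ i ∧ i ≤ K + 2) {α : ℝ} (hα : 0 < α) {h : ℝ}
    (hh : 0 < h) (hhα : h ≤ α) :
    ∃ ε' : ℝ, 0 < ε' ∧ ∃ δ : ℝ, 0 < δ ∧ ∀ al : ℝ, 0 < al →
    ∃ δ₁ : ℝ, 0 < δ₁ ∧
    ∀ {m : ℕ} {S : PCl m} {c : ℕ → Fin m} {r : ℕ} {Ψ₀ : Fm2 m} {e : ℝ} {E : ℕ → ℝ}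
    {b w t : ℝ} {rd p : ℕ → ℝ} {X : ℕ → ℕ → ℝ} {U : Type} {Qp : Qt m U}
    {δn δs δc P₁ p₁ p₂ q k κ δh δu : ℝ}
    (_ : StC S c r K Ψ₀ e E b w t rd p X Qp δn δs δc) (_ : 0 < q) (_ : w + α * q ≤ 1) (_ : 0 ≤ k)
    (_ : δc ≤ δ₁ * q) (_ : κ + δn + δc + δs + δu + (δn + δh + k) ≤ δ₁ * q)
    (_ : δn + δh + k ≤ δ₁ * q) {N₁ N₂ : ℕ → ℝ},
    (∀ j ≤ K + 2, P₁ - j * w ≤ N₁ j) → NwE (K + 2) {i} w p₂ α q N₂ →
    (∀ j ≤ K + 2, F1 S (fun J F => ptr F J) (vg t) (fun _ F => F.T) Qp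
      (qJet m ((range r).image c) (c r) j b (p r) (N₁ j)) e (δ₁ * q)) →
    (∀ j ≤ K + 2, F1 S (fun J F => ptr F J) (vg t) (fun _ F => F.T) Qp
      (qJet m ((range (r + 1)).image c) (c (r + 1)) j b (p (r + 1)) (N₂ j)) e (δ₁ * q)) →
    (∀ j, i < j → j ≤ K + 2 → F1 S (fun J F => ptr F J) (vg w) (fun _ F => F.T) Qp
      (qJet m ((range (r + 1)).image c) (c (r + 1)) j b (p (r + 1)) (p₂ + α * q - j * w)) e δh) →
    IpF S (fun J F => ptr F J) w t (fun _ F => F.T) Qp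
      ((qJet m ((range r).image c) (c r) i b (p r) (p₁ + α * q - i * w)).prod
        (qJet m ((range (r + 1)).image c) (c (r + 1)) i b (p (r + 1)) (p₂ + α * q - i * w)))
      ((qJet m ((range r).image c) (c r) i b (p r) (p₁ - i * w)).prod
        (qJet m ((range (r + 1)).image c) (c (r + 1)) i b (p (r + 1)) (p₂ - i * w))) e k κ →
    F1 S (fun J F => ptr F J) (vg t) (fun _ F => F.T) Qp
      (qJet m ((range r).image c) (c r) i b (p r) (p₁ + α * q - i * w)) e δu →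
    F1 S (fun J F => ptr F J) (vg w) (fun _ F => F.T) Qp
      (qJet m ((range r).image c) (c r) i b (p r) (p₁ - i * w)) e δh →
    AlF S (fun J F => ptr F J) t (fun _ F => F.T) Qp
      (qJet m ((range (r + 1)).image c) (c (r + 1)) i b (p (r + 1))
        (p₂ + ε' * (α * q) - i * w)) e (al * q) →
    Row1 S (FmM (FmB Ψ₀ c r K e E b w rd p X) w k) (c r) (c (r + 1)) w P₁ p₂ (α * q)
      ((α - h) * q * Real.log 2 + δ * q) → False := by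
  obtain ⟨ε', hε', δ, hδ, H⟩ := hop_rbm K hi hα hh hhα
  refine ⟨ε', hε', δ, hδ, fun al hal => ?_⟩
  obtain ⟨δ₁, hδ₁, H⟩ := H al hal
  refine ⟨δ₁, hδ₁, ?_⟩
  intro m S c r Ψ₀ e E b w t rd p X U Qp δn δs δc P₁ p₁ p₂ q k κ δh δu D hq hwq hk hc1 hc2 hc3
    N₁ N₂ hN1 hN2 hj1 hj2 hn hIp hu1 hu2 hAl hRw
  obtain ⟨C₀, htm⟩ := D.tm
  obtain ⟨K₀, hpa⟩ := D.pa
  refine H htm D.ne D.w0 D.wt D.t1 hq hwq (Qu := Qp) (f := fun J F => ptr F J)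
    (y := fun _ F => F.T) ptr_id (fun J F => ⟨id, fun _ => rfl⟩) (e := e)
    (FmB Ψ₀ c r K e E b w rd p X) (FmB.lab (Ψ₀ := Ψ₀)) (FmB.hs D.her)
    (Ψ' := FmM (FmB Ψ₀ c r K e E b w rd p X) w k) (fun J F A V C z z' G₁ G₂ c h => h.1)
    ((fmm_ex htm hk D.ex).and hpa) hN1 hN2 ?_ ?_ hRw ?_ ?_ ?_ (FmB.aln hAl)
  · obtain ⟨M1, J1, x1⟩ := FmB.qu Ψ₀ c r K e E b w rd p X (p₁ + α * q - i * w) i
    obtain ⟨M2, J2, x2⟩ := FmB.qn Ψ₀ c r K e E b w rd p X (p₂ + α * q - i * w) i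
    obtain ⟨M3, J3, x3⟩ := FmB.qu Ψ₀ c r K e E b w rd p X (p₁ - i * w) i
    obtain ⟨M4, J4, x4⟩ := FmB.qn Ψ₀ c r K e E b w rd p X (p₂ - i * w) i
    have h3 := ip3_of_ipf (Qu := Qp) (κ₁ := c r) (κ₂ := c (r + 1)) (p₁ := p₁) (p₂ := p₂)
      (αq := α * q) (i := i) htm D.wt D.t1
      (fun J F A V C z z' G₁ G₂ c h => (FmB.lab J F A V C z z' G₁ G₂ c h).2.2)
      D.np hIp ⟨max M1 M2, max J1 J2, fun J hJ F A V C z z' G₁ G₂ c h => ⟨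
        (qJet m _ _ _ _ _ _).mono (le_max_left _ _) le_rfl
          (x1 J ((le_max_left _ _).trans hJ) F A V C z z' G₁ G₂ c h),
        (qJet m _ _ _ _ _ _).mono (le_max_right _ _) le_rfl
          (x2 J ((le_max_right _ _).trans hJ) F A V C z z' G₁ G₂ c h)⟩⟩
      ⟨max M3 M4, max J3 J4, fun J hJ F A V C z z' G₁ G₂ c h => ⟨
        (qJet m _ _ _ _ _ _).mono (le_max_left _ _) le_rfl
          (x3 J ((le_max_left _ _).trans hJ) F A V C z z' G₁ G₂ c h),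
        (qJet m _ _ _ _ _ _).mono (le_max_right _ _) le_rfl
          (x4 J ((le_max_right _ _).trans hJ) F A V C z z' G₁ G₂ c h)⟩⟩ D.ctx D.self le_rfl
    refine ip1_of_ip3 htm h3 ?_ (ch_of_f1 htm (X := fun J F _ _ z' G₁ _ _ =>
      oj F (c r) z' G₁ ⌊w * J⌋₊ (p₁ - i * w) i) D.np hu2 ⟨M3, J3, x3⟩ le_rfl) hc2
    exact fw2_of_f1 (Ψ := FmM (FmB Ψ₀ c r K e E b w rd p X) w k)
      (X := fun J F _ _ z' G₁ _ _ => oj F (c r) z' G₁ ⌊w * J⌋₊ (p₁ + α * q - i * w) i) hu1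
      ⟨M1, J1, fun J hJ F A V C z z' G₁ G₂ cc h => x1 J hJ F A V C z z' G₁ G₂ cc h.1⟩
  · intro K₁
    refine Bas.mono 0 (D.ctx K₁) ?_
    intro J _ F A h V C z z' G₁ G₂ c hc u₀ hu₀
    obtain ⟨V₁, z₁, hz₁, h1⟩ := h V C z z' G₁ G₂ c hc u₀ hu₀
    exact ⟨V₁, z₁, hz₁, h1.trans (mul_le_mul_of_nonneg_right hc1 (Nat.cast_nonneg J))⟩
  · exact fun j hj => FmB.fwu (hj1 j hj)
  · exact fun j hj => FmB.fwn (hj2 j hj)
  · exact hi1_of htm D.np hn hc3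

/-- **One hop from the data of a step.** -/
theorem hopB_om (K : ℕ) {j : ℕ} (hj : 1 ≤ j ∧ j ≤ K + 2) {a : ℝ} (ha : 0 < a) {h : ℝ}
    (hh : 0 < h) (hha : h ≤ a) :
    ∃ ε' : ℝ, 0 < ε' ∧ ∃ δ : ℝ, 0 < δ ∧ ∀ al : ℝ, 0 < al →
    ∃ δ₁ : ℝ, 0 < δ₁ ∧
    ∀ {m : ℕ} {S : PCl m} {c : ℕ → Fin m} {r : ℕ} {Ψ₀ : Fm2 m} {E : ℕ → ℝ}
    {b w t : ℝ} {rd p : ℕ → ℝ} {X : ℕ → ℕ → ℝ} {U : Type} {Qp : Qt m U} {sn : ℕ → ℝ → ℝ}
    {γ s q : ℝ} (_ : 0 < q) (_ : w + a * q ≤ 1) (_ : p r = sn r b)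
    (_ : p (r + 1) = sn (r + 1) b - γ)
    (_ : ∀ η : ℝ, 0 < η → ∃ e₀ : ℝ, 0 < e₀ ∧ ∃ k₀ : ℝ, 0 < k₀ ∧ ∀ e k : ℝ, 0 < e → e ≤ e₀ →
      0 < k → k ≤ k₀ → StC S c r K Ψ₀ e E b w t rd p X Qp η η η ∧
      Row1 S (FmM (FmB Ψ₀ c r K e E b w rd p X) w k) (c r) (c (r + 1)) w
        (sn r b + s + a * (w - b) + (a - j) * (t - w) + a * q)
        (sn (r + 1) b + a * (w - b) + (a - j) * (t - w)) (a * q)
        ((a - h) * q * Real.log 2 + δ * q)),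
    HopB S c r K a b sn γ s Qp j w t (a * q) ε' q al δ₁ := by
  obtain ⟨ε', hε', δ, hδ, H⟩ := hop_stm K hj ha hh hha
  refine ⟨ε', hε', δ, hδ, fun al hal => ?_⟩
  obtain ⟨δ₁, hδ₁, H⟩ := H al hal
  refine ⟨δ₁, hδ₁, ?_⟩
  intro m S c r Ψ₀ E b w t rd p X U Qp sn γ s q hq hw1 hpr hpn D h1 h2 h3 h4 h5 h6 h7 h8
  have hδq : 0 < δ₁ * q := mul_pos hδ₁ hq
  obtain ⟨e₀, he₀, k₁, hk₁, D⟩ := D (δ₁ * q / 32) (by positivity)
  obtain ⟨e1, he1, h1⟩ := F1x.all (P := fun _ => True) fun l hl _ => h1 l hl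
  obtain ⟨e2, he2, h2⟩ := F1x.all (P := fun l => l ≠ j) h2
  obtain ⟨e3, he3, h3⟩ := h3.com
  obtain ⟨e4, he4, h4⟩ := F1x.all (n := K + 2) (P := fun l => j < l) fun l hl hl' => h4 l hl' hl
  obtain ⟨e5, he5, k₀, hk₀, h5⟩ := h5
  obtain ⟨e6, he6, h6⟩ := h6.com
  obtain ⟨e7, he7, h7⟩ := h7.com
  obtain ⟨e8, he8, h8⟩ := h8.com
  obtain ⟨e, he, l0, l1, l2, l3, l4, l5, l6, l7, l8⟩ : ∃ e : ℝ, 0 < e ∧ e ≤ e₀ ∧ e ≤ e1 ∧ e ≤ e2 ∧
      e ≤ e3 ∧ e ≤ e4 ∧ e ≤ e5 ∧ e ≤ e6 ∧ e ≤ e7 ∧ e ≤ e8 := by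
    refine ⟨min e₀ (min e1 (min e2 (min e3 (min e4 (min e5 (min e6 (min e7 e8))))))),
      by positivity, ?_⟩
    simp only [min_le_iff, le_refl, true_or, or_true, and_self]
  obtain ⟨k, hk, k1, k2, k3⟩ : ∃ k : ℝ, 0 < k ∧ k ≤ k₀ ∧ k ≤ δ₁ * q / 8 ∧ k ≤ k₁ :=
    ⟨min k₀ (min (δ₁ * q / 8) k₁), by positivity, min_le_left _ _,
      (min_le_right _ _).trans (min_le_left _ _), (min_le_right _ _).trans (min_le_right _ _)⟩
  obtain ⟨St, Rw⟩ := D e k he l0 hk k3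
  refine H (P₁ := sn r b + s + a * (w - b) + (a - j) * (t - w) + a * q)
    (p₁ := sn r b + s + a * (w - b) + (a - j) * (t - w))
    (p₂ := sn (r + 1) b + a * (w - b) + (a - j) * (t - w)) (k := k) (κ := δ₁ * q / 8)
    (δh := δ₁ * q / 8) (δu := δ₁ * q / 8)
    (N₁ := fun l => sn r b - l * b + ((a - l) * (w - b) + (a - j) * (t - w) + a * q + s))
    (N₂ := fun l => if l = j then sn (r + 1) b - l * b + (a - j) * (t - b) else
      sn (r + 1) b - l * b + ((a - l) * (w - b) + (a - j) * (t - w) + a * q))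
    St hq hw1 hk.le (by linarith) (by linarith) (by linarith) (fun l _ => le_of_eq (by ring))
    ⟨fun l hl => ?_, fun l hl hl' => ?_⟩ (fun l hl => ?_) (fun l hl => ?_) (fun l hl hl' => ?_)
    ?_ ?_ ?_ ?_ Rw
  · rw [Finset.mem_singleton] at hl
    subst hl
    simp only [if_true]
    exact le_of_eq (by ring)
  · rw [Finset.mem_singleton] at hl'
    simp only [if_neg hl']
    exact le_of_eq (by ring)
  · rw [hpr]
    exact h1 e l1 l hl trivial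
  · rw [hpn]
    by_cases hlj : l = j
    · subst hlj
      simp only [if_true]
      exact h3 e l3
    · simp only [if_neg hlj]
      exact h2 e l2 l hl hlj
  · rw [hpn]
    have h9 := h4 e l4 l hl' hl
    have e9 : sn (r + 1) b + a * (w - b) + (a - j) * (t - w) + a * q - l * w =
        sn (r + 1) b - l * b + ((a - l) * (w - b) + (a - j) * (t - w) + a * q) := by ring
    rw [e9]
    exact h9
  · rw [hpr, hpn]
    have h9 := h5 e k he l5 hk k1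
    have e1 : sn r b + s + a * (w - b) + (a - j) * (t - w) + a * q - j * w =
        sn r b - j * b + ((a - j) * (t - b) + a * q + s) := by ring
    have e2 : sn (r + 1) b + a * (w - b) + (a - j) * (t - w) + a * q - j * w =
        sn (r + 1) b - j * b + ((a - j) * (t - b) + a * q) := by ring
    have e3 : sn r b + s + a * (w - b) + (a - j) * (t - w) - j * w =
        sn r b - j * b + ((a - j) * (t - b) + s) := by ring
    have e4 : sn (r + 1) b + a * (w - b) + (a - j) * (t - w) - j * w =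
        sn (r + 1) b - j * b + (a - j) * (t - b) := by ring
    rw [e1, e2, e3, e4]
    exact h9
  · rw [hpr]
    have e1 : sn r b + s + a * (w - b) + (a - j) * (t - w) + a * q - j * w =
        sn r b - j * b + ((a - j) * (t - b) + a * q + s) := by ring
    rw [e1]
    exact h6 e l6
  · rw [hpr]
    have e3 : sn r b + s + a * (w - b) + (a - j) * (t - w) - j * w =
        sn r b - j * b + ((a - j) * (t - b) + s) := by ring
    rw [e3]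
    exact h7 e l7
  · rw [hpn]
    have e3 : sn (r + 1) b + a * (w - b) + (a - j) * (t - w) + ε' * (a * q) - j * w =
        sn (r + 1) b - j * b + ((a - j) * (t - b) + ε' * (a * q)) := by ring
    rw [e3]
    exact h8 e l8

/-- **One tie from the data of a step.** -/
theorem tieB_om (K B : ℕ) {i : ℕ} (hi : 1 ≤ i ∧ i ≤ K + 2) {a : ℝ} (ha : 0 < a) {h : ℝ}
    (hh : 0 < h) (hha : h ≤ a) {ηl : ℝ} (hηl : 0 < ηl) {ε₁ : ℝ} (hε₁ : 0 < ε₁) :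
    ∃ ε' : ℝ, 0 < ε' ∧ ∃ ε : ℝ, 0 < ε ∧ ε ≤ ε₁ ∧ ∃ δ : ℝ, 0 < δ ∧ ∃ c₀ : ℝ, 0 < c₀ ∧
    ∃ N₀ : ℕ, 0 < N₀ ∧ ∀ al : ℝ, 0 < al → ∃ δ₁ : ℝ, 0 < δ₁ ∧
    ∀ {m : ℕ} {S : PCl m} {c : ℕ → Fin m} {r : ℕ} {Ψ₀ : Fm2 m} {E : ℕ → ℝ}
    {b w t : ℝ} {rd p : ℕ → ℝ} {X : ℕ → ℕ → ℝ} {U : Type} {Qp : Qt m U} {sn : ℕ → ℝ → ℝ}
    {γ s q : ℝ} (_ : 0 < q) (_ : w + a * q ≤ 1) (_ : p r = sn r b)
    (_ : p (r + 1) = sn (r + 1) b - γ) {I₀ : Finset (Fin m)}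
    (_ : ∀ η : ℝ, 0 < η → ∃ e₀ : ℝ, 0 < e₀ ∧ ∃ k₀ : ℝ, 0 < k₀ ∧ ∀ e k : ℝ, 0 < e → e ≤ e₀ →
      0 < k → k ≤ k₀ → StC S c r K Ψ₀ e E b w t rd p X Qp η η η ∧
      RwV S (FmM (FmB Ψ₀ c r K e E b w rd p X) w k).swap (c (r + 1)) (c r) w
        (sn (r + 1) b + a * (w - b) + (a - i) * (t - w) - a * q)
        (sn r b + s + a * (w - b) + (a - i) * (t - w) - a * q) a a (2 * q) h (δ * q) c₀ N₀ ∧
      Fr2 S (FmM (FmB Ψ₀ c r K e E b w rd p X) w k) I₀ (c r) (c (r + 1)) w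
        (sn r b + s + a * (w - b) + (a - i) * (t - w) + a * q)
        (sn (r + 1) b + a * (w - b) + (a - i) * (t - w) + a * q) B (δ₁ * q) ∧
      Fl2 S (FmB Ψ₀ c r K e E b w rd p X) I₀ (c r) (c (r + 1)) w
        (sn r b + s + a * (w - b) + (a - i) * (t - w))
        (sn (r + 1) b + a * (w - b) + (a - i) * (t - w)) (a * q) ε
        ((a - h + ηl) * q * Real.log 2)),
    TieB S c r K a b sn γ s Qp i w t (a * q) ε' q al δ₁ := by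
  obtain ⟨ε', hε', ε, hε, hεε, δ, hδ, c₀, hc₀, N₀, hN₀, H⟩ := tie_stm K B hi ha hh hha hηl hε₁
  refine ⟨ε', hε', ε, hε, hεε, δ, hδ, c₀, hc₀, N₀, hN₀, fun al hal => ?_⟩
  obtain ⟨δ₁, hδ₁, H⟩ := H al hal
  refine ⟨δ₁, hδ₁, ?_⟩
  intro m S c r Ψ₀ E b w t rd p X U Qp sn γ s q hq hw1 hpr hpn I₀ D h1 h2 h3 h4 h5 h6 h7 h8
  have hδq : 0 < δ₁ * q := mul_pos hδ₁ hq
  obtain ⟨e₀, he₀, k₁, hk₁, D⟩ := D (δ₁ * q / 32) (by positivity)
  obtain ⟨e1, he1, h1⟩ := F1x.all (P := fun l => l ≠ i) h1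
  obtain ⟨e2, he2, h2⟩ := h2.com
  obtain ⟨e3, he3, h3⟩ := F1x.all (P := fun l => l ≠ i) h3
  obtain ⟨e4, he4, h4⟩ := h4.com
  obtain ⟨e5, he5, h5⟩ := F1x.all (n := K + 2) (P := fun l => i < l) fun l hl hl' => h5 l hl' hl
  obtain ⟨e6, he6, h6⟩ := F1x.all (n := K + 2) (P := fun l => i < l) fun l hl hl' => h6 l hl' hl
  obtain ⟨e7, he7, k₀, hk₀, h7⟩ := h7
  obtain ⟨e8, he8, h8⟩ := h8.com
  obtain ⟨e, he, l0, l1, l2, l3, l4, l5, l6, l7, l8⟩ : ∃ e : ℝ, 0 < e ∧ e ≤ e₀ ∧ e ≤ e1 ∧ e ≤ e2 ∧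
      e ≤ e3 ∧ e ≤ e4 ∧ e ≤ e5 ∧ e ≤ e6 ∧ e ≤ e7 ∧ e ≤ e8 := by
    refine ⟨min e₀ (min e1 (min e2 (min e3 (min e4 (min e5 (min e6 (min e7 e8))))))),
      by positivity, ?_⟩
    simp only [min_le_iff, le_refl, true_or, or_true, and_self]
  obtain ⟨k, hk, k1, k2, k3⟩ : ∃ k : ℝ, 0 < k ∧ k ≤ k₀ ∧ k ≤ δ₁ * q / 8 ∧ k ≤ k₁ :=
    ⟨min k₀ (min (δ₁ * q / 8) k₁), by positivity, min_le_left _ _,
      (min_le_right _ _).trans (min_le_left _ _), (min_le_right _ _).trans (min_le_right _ _)⟩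
  obtain ⟨St, Rw, Fr, Fl⟩ := D e k he l0 hk k3
  refine H (p₁ := sn r b + s + a * (w - b) + (a - i) * (t - w))
    (p₂ := sn (r + 1) b + a * (w - b) + (a - i) * (t - w)) (k := k) (κ := δ₁ * q / 8)
    (δh := δ₁ * q / 8)
    (N₁ := fun l => if l = i then sn r b - l * b + ((a - i) * (t - b) + s) else
      sn r b - l * b + ((a - l) * (w - b) + (a - i) * (t - w) + a * q + s))
    (N₂ := fun l => if l = i then sn (r + 1) b - l * b + (a - i) * (t - b) else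
      sn (r + 1) b - l * b + ((a - l) * (w - b) + (a - i) * (t - w) + a * q))
    St hq hw1 hk.le (by linarith) (by linarith) (by linarith) ⟨fun l hl => ?_, fun l hl hl' => ?_⟩
    ⟨fun l hl => ?_, fun l hl hl' => ?_⟩ (fun l hl => ?_) (fun l hl => ?_) (fun l hl hl' => ?_)
    (fun l hl hl' => ?_) ?_ ?_ Rw Fr Fl
  · rw [Finset.mem_singleton] at hl
    subst hl
    simp only [if_true]
    exact le_of_eq (by ring)
  · rw [Finset.mem_singleton] at hl'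
    simp only [if_neg hl']
    exact le_of_eq (by ring)
  · rw [Finset.mem_singleton] at hl
    subst hl
    simp only [if_true]
    exact le_of_eq (by ring)
  · rw [Finset.mem_singleton] at hl'
    simp only [if_neg hl']
    exact le_of_eq (by ring)
  · rw [hpr]
    by_cases hlj : l = i
    · subst hlj
      simp only [if_true]
      exact h2 e l2
    · simp only [if_neg hlj]
      exact h1 e l1 l hl hlj
  · rw [hpn]
    by_cases hlj : l = i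
    · subst hlj
      simp only [if_true]
      exact h4 e l4
    · simp only [if_neg hlj]
      exact h3 e l3 l hl hlj
  · rw [hpr]
    have h9 := h5 e l5 l hl' hl
    have e9 : sn r b + s + a * (w - b) + (a - i) * (t - w) + a * q - l * w =
        sn r b - l * b + ((a - l) * (w - b) + (a - i) * (t - w) + a * q + s) := by ring
    rw [e9]
    exact h9
  · rw [hpn]
    have h9 := h6 e l6 l hl' hl
    have e9 : sn (r + 1) b + a * (w - b) + (a - i) * (t - w) + a * q - l * w =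
        sn (r + 1) b - l * b + ((a - l) * (w - b) + (a - i) * (t - w) + a * q) := by ring
    rw [e9]
    exact h9
  · rw [hpr, hpn]
    have h9 := h7 e k he l7 hk k1
    have e1 : sn r b + s + a * (w - b) + (a - i) * (t - w) + a * q - i * w =
        sn r b - i * b + ((a - i) * (t - b) + a * q + s) := by ring
    have e2 : sn (r + 1) b + a * (w - b) + (a - i) * (t - w) + a * q - i * w =
        sn (r + 1) b - i * b + ((a - i) * (t - b) + a * q) := by ring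
    have e3 : sn r b + s + a * (w - b) + (a - i) * (t - w) - i * w =
        sn r b - i * b + ((a - i) * (t - b) + s) := by ring
    have e4 : sn (r + 1) b + a * (w - b) + (a - i) * (t - w) - i * w =
        sn (r + 1) b - i * b + (a - i) * (t - b) := by ring
    rw [e1, e2, e3, e4]
    exact h9
  · rw [hpr]
    have e3 : sn r b + s + a * (w - b) + (a - i) * (t - w) + ε' * (a * q) - i * w =
        sn r b - i * b + ((a - i) * (t - b) + s + ε' * (a * q)) := by ring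
    rw [e3]
    exact h8 e l8

end Pool.AB63

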