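import Pool.Agent.H18.AB.Hor
import Pool.Agent.H46.TE.Flc

/-!
# One tie at a record

`rows_tie`: the rows of one tie from the data of a step, for the orders `i ≤ a`. `tie_rec`: one tie at a
record; the place for the free velocities is a hypothesis.
-/

set_option autoImplicit false

namespace Pool.AB63

open Finset Real MvPolynomial
open Pool.Agent.H49.Ent Pool.Agent.H32.Dense Pool.STK Pool.KA Pool.KSAT Pool.K2S Pool.PB Pool.GEN
open Pool.S6C Pool.RCD Pool.LA91 Pool.OWN68 Pool.AJW Pool.AJX Pool.CHT Pool.PKG Pool.PN18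
open Pool.LPK12 Pool.ALT
open Pool.TE46 Pool.AB91 Pool.RWB12 Pool.AB18
open Pool.RJ28 (dgj dgj_lt dgj_st dgj_le)

/-- **The rows of one tie** from the data of a step. -/
theorem rows_tie {r D K : ℕ} {S : PCl (r + 2)} {Ψ₀ : Fm2 (r + 2)} {c : ℕ → Fin (r + 2)}
    {L : ℕ → ℝ → ℝ → ℝ} {a h δ R An Dn γ s e₁ E₀ R₀ b w t q τ d δB c₀ ε : ℝ} {i NE jE N₀ N : ℕ}
    (D' : StpD D K S Ψ₀ c L a h δ (R * q) An Dn γ s e₁ E₀ R₀ N b w t) (ha : 0 < a)
    (hha : h ≤ a) (hq : 0 < q) (hd : 0 < d) (hR : 0 < R) (haR : a * R = (a - i) * τ + d)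
    (hia : (i : ℝ) ≤ a) (htw : t - w = τ * q) (hN₀ : 0 < N₀) (hNE : 0 < NE)
    (hdN : d * NE = a * R * jE) (hid : (i : ℝ) < a → d ≤ (a - i) * τ)
    (hN : N = if (i : ℝ) < a then NE * N₀ else N₀) (hc₀ : 0 < c₀) (hδB : 0 < δB)
    (hδ : 0 ≤ δ) (he₁ : 0 < e₁) (he₁p : e₁ ≤ L (r + 1) w w)
    (hn : |L (r + 1) b b + a * (w - b) - L (r + 1) w w| ≤ ε * q)
    (hu : L r w w ≤ L r b b + s + a * (w - b))
    (hnum : δ * (R * q) + e₁ + 2 * (ε * q) * Real.log 2 < δB * (d / a * q) / 2) :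
    ∀ e k : ℝ, e ≤ e₁ → k ≤ c₀ * (δB * (d / a * q)) / 16 →
    RwV S (FmM (FmB Ψ₀ c r K e
      (fun i => if i = r + 1 then E₀ else max 0 (L r b b - L i b b)) b w
      (fun i => if i = r + 1 then R₀ else L r b b)
      (fun i => if i = r + 1 then L (r + 1) b b - γ else L i b b)
      (fun l j => L l b b + dgj An Dn r l + 2 * Dn + j * (w - b))) w k).swap (c (r + 1)) (c r) w
      (L (r + 1) b b + a * (w - b) + (a - i) * (t - w) - a * (d / a * q))
      (L r b b + s + a * (w - b) + (a - i) * (t - w) - a * (d / a * q)) a a (2 * (d / a * q)) h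
      (δB * (d / a * q)) c₀ N₀ := by
  intro e k hee hkk
  obtain ⟨C₀, htm⟩ := D'.tm
  have hqh : 0 < d / a * q := by positivity
  have hX : 0 < δB * (d / a * q) := mul_pos hδB hqh
  have hcX : 0 < c₀ * (δB * (d / a * q)) := mul_pos hc₀ hX
  have hRq : 0 < R * q := mul_pos hR hq
  have e1 : a * (d / a * q) = d * q := by field_simp
  have eR : a * (R * q) = (a - i) * (t - w) + d * q := by
    rw [htw, ← mul_assoc, haR]
    ring
  have hC := D'.cvr e k (c₀ * (δB * (d / a * q)) / 8) hee (by linarith only [hkk, hcX])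
  have eC : c₀ * (δB * (d / a * q)) / 8 / c₀ = δB * (d / a * q) / 8 := by
    field_simp
  by_cases hlt : (i : ℝ) < a
  · rw [if_pos hlt] at hN
    have hNE0 : (0 : ℝ) < NE := by exact_mod_cast hNE
    have hN₀0 : (0 : ℝ) < N₀ := by exact_mod_cast hN₀
    have h2 : 2 * jE ≤ NE := by
      have h3 := hid hlt
      have h4 : 2 * d ≤ a * R := by
        rw [haR]
        linarith only [h3]
      have h5 : 2 * d * jE ≤ a * R * jE := mul_le_mul_of_nonneg_right h4 (Nat.cast_nonneg _)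
      rw [← hdN] at h5
      have h6 : d * (2 * (jE : ℝ)) ≤ d * NE := by linarith only [h5]
      have h7 := le_of_mul_le_mul_left h6 hd
      exact_mod_cast h7
    have key := row_tie (q := d / a * q) (e' := δB * (d / a * q)) (x := ε * q) (k := 2 * jE)
      (N₀ := N₀) (c₀ := c₀) (p₁' := L r b b + s + a * (w - b))
      (p₂' := L (r + 1) b b + a * (w - b)) htm D'.rw₂ hC D'.her
      (by rw [hN]; exact Nat.mul_pos hNE hN₀) hN₀
      (by rw [hN]; exact Nat.mul_le_mul_right N₀ h2) hc₀ hqh.le ha.le hn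
      (by linarith only [hu]) (by linarith only []) (by linarith only [])
      (by
        rw [hN]
        push_cast
        rw [div_eq_iff (by positivity)]
        have e3 : d / a = R * jE / NE := by
          rw [div_eq_div_iff ha.ne' hNE0.ne']
          linarith only [hdN]
        rw [e3]
        field_simp)
      (by
        rw [eC]
        linarith only [hnum, hX, he₁])
    have e3 : a * (R * q - 2 * (d / a * q)) = (a - i) * (t - w) - a * (d / a * q) := by
      have e4 : a * (R * q - 2 * (d / a * q)) = a * (R * q) - 2 * (a * (d / a * q)) := by ring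
      rw [e4, eR, e1]
      ring
    rw [e3] at key
    have e5 : L (r + 1) b b + a * (w - b) + ((a - i) * (t - w) - a * (d / a * q)) =
        L (r + 1) b b + a * (w - b) + (a - i) * (t - w) - a * (d / a * q) := by ring
    have e6 : L r b b + s + a * (w - b) + ((a - i) * (t - w) - a * (d / a * q)) =
        L r b b + s + a * (w - b) + (a - i) * (t - w) - a * (d / a * q) := by ring
    rw [e5, e6] at key
    exact key
  · rw [if_neg hlt] at hN
    have hai : a - (i : ℝ) = 0 := by linarith only [hia, hlt]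
    have eRd : R = d / a := by
      rw [eq_div_iff ha.ne']
      rw [hai, zero_mul, zero_add] at haR
      linarith only [haR]
    subst hN
    obtain ⟨Kp, E₂, r₂, hlb⟩ := D'.lb₂
    have hnat := nat_lab (S := S) (Ψ := Ψ₀) htm he₁ he₁p (e₁ := e₁) (by
      have := Real.log_two_lt_d9
      have h3 : e₁ * Real.log 2 < e₁ * 1 := mul_lt_mul_of_pos_left (by linarith) he₁
      linarith only [h3]) hlb
    have key := row_top (q := R * q) (e' := δB * (d / a * q)) (x := ε * q) (e₁ := e₁)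
      (c₀ := c₀) (p₁' := L r b b + s + a * (w - b))
      (p₂' := L (r + 1) b b + a * (w - b)) htm D'.rw₂ hC D'.her hnat hN₀ hc₀ hRq.le ha.le hha
      (mul_nonneg hδ hRq.le) he₁.le hn (by linarith only [hu]) (by linarith only [])
      (by linarith only [])
      (by
        rw [eC]
        linarith only [hnum, hX])
    rw [hai, zero_mul]
    rw [eRd] at key
    have e5 : L (r + 1) b b + a * (w - b) + 0 - a * (d / a * q) =
        L (r + 1) b b + a * (w - b) - a * (d / a * q) := by ring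
    have e6 : L r b b + s + a * (w - b) + 0 - a * (d / a * q) =
        L r b b + s + a * (w - b) - a * (d / a * q) := by ring
    rw [e5, e6]
    exact key

/-- **One tie at a record.** The free velocities are a hypothesis. -/
theorem tie_rec {r D K : ℕ} (hr : 1 ≤ r) {a h : ℝ} (ha : 1 < a) (hh : 0 < h) (hh1 : h ≤ 1) {i : ℕ}
    (hi : 1 ≤ i ∧ i ≤ K + 2) {τ d R : ℝ} (hd : 0 < d) (hR : 0 < R)
    (haR : a * R = (a - i) * τ + d) (hia : (i : ℝ) ≤ a) (hτ : 0 ≤ τ) {NE jE : ℕ} (hNE : 0 < NE)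
    (hdN : d * NE = a * R * jE) (hid : (i : ℝ) < a → d ≤ (a - i) * τ) :
    ∃ ε' : ℝ, 0 < ε' ∧ ∃ δ : ℝ, 0 < δ ∧ ∀ al₁ : ℝ, 0 < al₁ → ∃ δ₁ : ℝ, 0 < δ₁ ∧
    ∀ {S S₁ : PCl (r + 2)} {al : ℝ} {g₀ : ℝ → ℝ}
    {P : List (Fin (r + 2)) × Fin (r + 2) → ℝ → ℝ → ℝ} {θ : ℝ}
    {P₂ : ℕ → List (Fin (r + 2)) × Fin (r + 2) → ℝ → ℝ → ℝ} {θ₂ Eb e₂ : ℕ → ℝ}
    {c : ℕ → Fin (r + 2)} {Pt : ℝ → ℝ → ℝ} {rt : ℝ → ℝ} {K₀ g : ℝ} {L T : ℕ → ℝ → ℝ → ℝ}
    {Sl : ℕ → ℝ} {κ : ℕ → Kg} {G : Set ℝ} {S₀ N : ℕ} {A V : ℕ → ℝ} {S₂ N' : ℕ} {V' : ℕ → ℝ}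
    {K' ε q t e₀ ρ₀ π₀ μ el dl : ℝ} {k₀ : ℕ}
    (_ : GrA r D S S₁ al g₀ P θ P₂ θ₂ Eb e₂ c Pt rt h K₀ g L T Sl κ G S₀ N A V S₂ N' V'
      K' ε q t a e₀ ρ₀ π₀ μ el dl k₀) {Tn X φ kf ℓ e' ms : ℝ}
    (_ : PrN r a K₀ K' ε δ el dl R τ Tn X φ kf ℓ e' ms) {M : ℕ} {W : ℕ → ℝ}
    (_ : PrW r N' V' K₀ τ Tn X ms M W) (_ : (K₀ + τ + d + 1) * q ≤ (1 / 2) ^ k₀)
    (_ : (2 * (a * R) + 4) * q ≤ μ / 4) {An Dn φn : ℝ} {v₀ : ℕ → ℝ}
    (_ : NpW S₁ c r (fun l x => L l x x) G (t + -Tn * q) (t + -τ * q) An Dn φn v₀)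
    (_ : max D D * max 1 D = K) {γ s : ℝ} (_ : e' * q ≤ γ) (_ : γ ≤ s)
    (_ : a * ((Tn - τ) * q) + a * R * q + s + γ ≤ An) (_ : s ≤ q / 8)
    (_ : ∀ l < r, nX r (fun l x => L l x x) (t + -τ * q) (X * q) l ≤
      L l (t + -Tn * q) (t + -Tn * q) + dgj An Dn r l + 2 * Dn) (_ : e' * q ≤ Dn / 16)
    (_ : 1 ≤ D) (_ : μ / 2 ≤ t + -Tn * q) (_ : (2 * a * (Tn + 1) + d + 2) * q ≤ μ / 8)
    (_ : s ≤ h * d / 32 * q) (_ : el * (2 * (K₀ + τ + d + 1)) ≤ h * d / 32)
    (_ : ∀ (S' : PCl (r + 2)) (Ψ₀ : Fm2 (r + 2)), S'.Ne →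
      (∀ (τ : ℝ) (J : ℕ) (F : Fam (r + 2) J) (A : F.Ω → Prop), S'.St τ J F A → S₁.St τ J F A) →
      ∃ e₁ : ℝ, 0 < e₁ ∧ ∃ k₁ : ℝ, 0 < k₁ ∧ ∀ e k : ℝ, 0 < e → e ≤ e₁ → 0 < k → k ≤ k₁ →
      Fr2 S' (FmM (FmB Ψ₀ c r K e
        (fun i => if i = r + 1 then e₀ - μ / 2 else max 0 (L r (t + -Tn * q) (t + -Tn * q) -
          L i (t + -Tn * q) (t + -Tn * q))) (t + -Tn * q) (t + -τ * q)
        (fun i => if i = r + 1 then ρ₀ - μ / 2 else L r (t + -Tn * q) (t + -Tn * q))
        (fun i => if i = r + 1 then L (r + 1) (t + -Tn * q) (t + -Tn * q) - γ else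
          L i (t + -Tn * q) (t + -Tn * q))
        (fun l j => L l (t + -Tn * q) (t + -Tn * q) + dgj An Dn r l + 2 * Dn +
          j * (t + -τ * q - (t + -Tn * q)))) (t + -τ * q) k) ((range r).image c) (c r) (c (r + 1))
        (t + -τ * q)
        (L r (t + -Tn * q) (t + -Tn * q) + s + a * (t + -τ * q - (t + -Tn * q)) +
          (a - i) * (t - (t + -τ * q)) + a * (d / a * q))
        (L (r + 1) (t + -Tn * q) (t + -Tn * q) + a * (t + -τ * q - (t + -Tn * q)) +
          (a - i) * (t - (t + -τ * q)) + a * (d / a * q))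
        ((4 * K + 23) ^ (r + 2)) (δ₁ * (d / a * q))),
    TieB S₁ c r K a (t + -Tn * q) (fun l x => L l x x) γ s
      (npQ (r + 2) c r (fun l x => L l x x) (t + -Tn * q) An Dn) i (t + -τ * q) t
      (a * (d / a * q)) ε' (d / a * q) al₁ δ₁ := by
  have ha0 : 0 < a := by linarith only [ha]
  have hha : 0 < h * a := mul_pos hh ha0
  obtain ⟨ε', hε', εl, hεl, hεl1, δB, hδB, c₀, hc₀, N₀, hN₀, HB⟩ := tieB_om K
    ((4 * K + 23) ^ (r + 2)) hi ha0 hha (mul_le_of_le_one_left ha0.le hh1) (ηl := h * a / 4)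
    (by positivity) (ε₁ := h / 32) (by positivity)
  obtain ⟨m, hm⟩ : ∃ m, m = min δB h := ⟨_, rfl⟩
  have hm0 : 0 < m := by rw [hm]; exact lt_min hδB hh
  have hm1 : m ≤ δB := by rw [hm]; exact min_le_left _ _
  have hm2 : m ≤ h := by rw [hm]; exact min_le_right _ _
  obtain ⟨δ, hδ⟩ : ∃ δ, δ = m * (d / a) / (4 * R) := ⟨_, rfl⟩
  have hδ0 : 0 < δ := by
    rw [hδ]
    positivity
  have hδR : δ * R = m * (d / a) / 4 := by
    rw [hδ]
    field_simp
  have hdaR : d ≤ a * R := by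
    rw [haR]
    have : 0 ≤ (a - i) * τ := mul_nonneg (by linarith only [hia]) hτ
    linarith only [this]
  have hδh : δ ≤ h / 4 := by
    rw [hδ, div_le_iff₀ (by positivity)]
    have h1 : d / a ≤ R := by
      rw [div_le_iff₀ ha0]
      linarith only [hdaR]
    have h2 : m * (d / a) ≤ h * R := mul_le_mul hm2 h1 (by positivity) hh.le
    linarith only [h2]
  refine ⟨ε', hε', δ, hδ0, fun al₁ hal => ?_⟩
  obtain ⟨δ₁, hδ₁, HB⟩ := HB al₁ hal
  refine ⟨δ₁, hδ₁, ?_⟩
  intro S S₁ al g₀ P θ P₂ θ₂ Eb e₂ c Pt rt K₀ g L T Sl κ G S₀ N A V S₂ N' V' K' ε q t e₀ ρ₀ π₀ μ el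
    dl k₀ H Tn X φ kf ℓ e' ms n M W w hk₀ hqμ An Dn φn v₀ NP hK γ s hγ hγs hAn hsq hnX heD hD hbμ
    hqμ' hsd hel hFr
  have hq := H.rc.q0
  have hε := H.hε
  have hεq : 0 < ε * q := mul_pos hε hq
  have hK₀ := H.hK₀
  have he'0 := n.he'
  have heq : 0 < e' * q := mul_pos he'0 hq
  have hk₀' : (K₀ + τ) * q ≤ (1 / 2) ^ k₀ := by
    have h1 : (K₀ + τ) * q ≤ (K₀ + τ + d + 1) * q :=
      mul_le_mul_of_nonneg_right (by linarith only [hd]) hq.le
    linarith only [h1, hk₀]
  obtain ⟨Np, hNp⟩ : ∃ Np : ℕ, Np = if (i : ℝ) < a then NE * N₀ else N₀ := ⟨_, rfl⟩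
  obtain ⟨S', Ψ₀, hs', D'⟩ := step_rec hr H n w hk₀' hqμ Np NP hK.le hγ hγs hAn hsq hnX heD
  refine TieB.up hs' ?_
  obtain ⟨eF, heF, kF, hkF, hFr⟩ := hFr S' Ψ₀ D'.ne hs'
  have hqh : 0 < d / a * q := by positivity
  have hDd := NP.D0
  -- the leaf
  have h128 := n.hεe
  have hδ1 := n.hδ1
  have hδ3 := n.hδ3
  have hams := n.hams
  have hms0 := n.hms0
  have hK3 := n.hK3
  have he'2 := n.he2
  have hTn := n.hTn
  have hR' := n.hR
  have hτR := n.hτ
  have hr0 : (0 : ℝ) ≤ r := Nat.cast_nonneg r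
  have hre : 0 ≤ r * e' := mul_nonneg hr0 he'0.le
  have hda : d / a ≤ d := div_le_self hd.le ha.le
  have hhd : 0 < h * d := mul_pos hh hd
  have hhd1 : h * d ≤ d := mul_le_of_le_one_left hd.le hh1
  have hmd : m * (d / a) ≤ h * d := mul_le_mul hm2 hda (by positivity) hh.le
  have he'd : 784 * e' ≤ h * d := by
    rw [hδR] at hδ1
    linarith only [hδ1, hmd, hre]
  have hl1 : Real.log 2 ≤ 1 := by
    have := Real.log_two_lt_d9
    linarith only [this]
  have hl2 : 69 / 100 ≤ Real.log 2 := by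
    have := Real.log_two_gt_d9
    linarith only [this]
  have hl0 : 0 < Real.log 2 := by linarith only [hl2]
  obtain ⟨yv, y1, y2, y3⟩ : ∃ yv : ℝ, (∃ j < N', V' j = yv) ∧ -τ ≤ yv ∧
      |a * yv + i * τ| ≤ a * ms := by
    by_cases hlt : (i : ℝ) < a
    · have h1 : (i : ℝ) * τ / a ≤ τ := by
        rw [div_le_iff₀ ha0]
        have := mul_le_mul_of_nonneg_right hia hτ
        linarith only [this]
      have h2 : 0 ≤ (i : ℝ) * τ / a := by positivity
      obtain ⟨k, hk, hk'⟩ := w.hWy (-(i * τ / a)) (by linarith only [h1]) (by linarith only [h2])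
      obtain ⟨k1, k2⟩ := abs_le.1 hk'
      refine ⟨W k, w.hWin k hk, ?_, ?_⟩
      · have h3 := hid hlt
        have h4 : ms ≤ τ - i * τ / a := by
          have h5 : a * ms ≤ a * (τ - i * τ / a) := by
            have h6 : a * (τ - i * τ / a) = (a - i) * τ := by field_simp
            rw [h6]
            linarith only [h3, hams, he'd, hhd1, he'0]
          exact le_of_mul_le_mul_left h5 ha0
        have h5 : -(↑i * τ / a) = -(i * τ / a) := rfl
        generalize (i : ℝ) * τ / a = x at k1 h4 h5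
        linarith only [k1, h4]
      · have h3 : a * W k + i * τ = a * (W k - -(i * τ / a)) := by field_simp; ring
        rw [h3, abs_mul, abs_of_pos ha0]
        exact mul_le_mul_of_nonneg_left hk' ha0.le
    · have hai : (i : ℝ) = a := le_antisymm hia (not_lt.mp hlt)
      refine ⟨-τ, ?_, le_rfl, ?_⟩
      · obtain ⟨j, hj, hj'⟩ := w.hWin (M + 1) (by omega)
        exact ⟨j, hj, by rw [hj', w.hW1]⟩
      · rw [hai]
        have : a * -τ + a * τ = 0 := by ring
        rw [this, abs_zero]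
        positivity
  have hFl : ∀ e : ℝ, 0 < e → e ≤ e' * q → Fl2 S' (FmB Ψ₀ c r K e
      (fun i => if i = r + 1 then e₀ - μ / 2 else max 0 (L r (t + -Tn * q) (t + -Tn * q) -
        L i (t + -Tn * q) (t + -Tn * q))) (t + -Tn * q) (t + -τ * q)
      (fun i => if i = r + 1 then ρ₀ - μ / 2 else L r (t + -Tn * q) (t + -Tn * q))
      (fun i => if i = r + 1 then L (r + 1) (t + -Tn * q) (t + -Tn * q) - γ else
        L i (t + -Tn * q) (t + -Tn * q))
      (fun l j => L l (t + -Tn * q) (t + -Tn * q) + dgj An Dn r l + 2 * Dn +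
        j * (t + -τ * q - (t + -Tn * q)))) ((range r).image c) (c r) (c (r + 1)) (t + -τ * q)
      (L r (t + -Tn * q) (t + -Tn * q) + s + a * ((t + -τ * q) - (t + -Tn * q)) +
        (a - i) * (t - (t + -τ * q)))
      (L (r + 1) (t + -Tn * q) (t + -Tn * q) + a * ((t + -τ * q) - (t + -Tn * q)) +
        (a - i) * (t - (t + -τ * q))) (d * q) εl
      ((a - h * a + h * a / 4) * (d / a * q) * Real.log 2) := by
    intro e he hee
    have hεld : εl * d ≤ h / 32 * d := mul_le_mul_of_nonneg_right hεl1 hd.le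
    refine GrA.fl2 (H.sub D'.ne hs') hD (s₁ := h * d / 32) (ν := a * ms) (yv := yv) (γ := γ) hia hK.ge
      (by
        obtain ⟨j, hj, hj'⟩ := w.hWin 0 (by omega)
        exact ⟨j, hj, by rw [hj', w.hW0]⟩) y1 w.hWx y2 y3 (by positivity) hτ hTn n.hK5
      (by
        have h1 : τ ≤ a * τ := le_mul_of_one_le_left hτ ha.le
        linarith only [h1, hdaR, hK3])
      (by linarith only [h128, hams, he'd, hhd1, he'0])
      (by linarith only [hams, he'2]) hk₀ hbμ (by linarith only [hγs, hγ, heq]) hsd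
      (by linarith only [hγ, heq]) he.le hεl.le ?_ ?_ ?_ ?_ ?_ ?_ ?_ ?_
    · have h1 : (2 * a * (Tn + 1) + h * d / 32 + εl * d + 4 * ε) * q + q / 8 + q / 32 ≤
          (2 * a * (Tn + 1) + d + 2) * q := by
        have h2 : 2 * a * (Tn + 1) + h * d / 32 + εl * d + 4 * ε + 1 / 8 + 1 / 32 ≤
            2 * a * (Tn + 1) + d + 2 := by
          linarith only [hεld, hhd1, h128, he'2, hd, hhd]
        have h3 := mul_le_mul_of_nonneg_right h2 hq.le
        linarith only [h3]
      have h2 : e' * q ≤ 1 / 64 * q := mul_le_mul_of_nonneg_right he'2 hq.le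
      linarith only [h1, h2, hee, hγs, hsq, hqμ']
    · show (if r = r + 1 then e₀ - μ / 2 else _) = _
      rw [if_neg (by omega), sub_self, max_self]
    · exact if_pos rfl
    · exact if_neg (by omega)
    · exact if_pos rfl
    · exact if_neg (by omega)
    · exact if_pos rfl
    · have e1 : (a - h * a + h * a / 4) * (d / a * q) * Real.log 2 =
          d * q * Real.log 2 - 3 / 4 * (h * d) * q * Real.log 2 := by
        field_simp
        ring
      have e2 : (a * Real.log 2 - dl) * ((d - 2 * ε - a * ms) / a * q) =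
          (d - 2 * ε - a * ms) * q * Real.log 2 - dl * ((d - 2 * ε - a * ms) / a) * q := by
        field_simp
      rw [e1, e2]
      have hdl : dl * ((d - 2 * ε - a * ms) / a) ≤ h / 16 * d := by
        have h1 : (d - 2 * ε - a * ms) / a ≤ d := by
          rw [div_le_iff₀ ha0]
          have h2 : d ≤ d * a := le_mul_of_one_le_right hd.le ha.le
          have h3 : 0 < a * ms := mul_pos ha0 hms0
          linarith only [h2, h3, hε]
        have h3 : dl ≤ h / 16 := by linarith only [hδ3, hδh]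
        have h4 : 0 ≤ (d - 2 * ε - a * ms) / a := by
          refine div_nonneg ?_ ha0.le
          linarith only [h128, hams, he'd, hhd1, he'0]
        exact mul_le_mul h3 h1 h4 (by positivity)
      have hel' : 2 * el * (K₀ + τ + d + 1) ≤ h * d / 32 := by linarith only [hel]
      -- one inequality, times `q`
      have main : (2 * εl * d + 2 * (h * d / 32 + 2 * ε + a * ms + ε)) * Real.log 2 +
          2 * el * (K₀ + τ + d + 1) + dl * ((d - 2 * ε - a * ms) / a) +
          (2 * ε + a * ms) * Real.log 2 < 3 / 4 * (h * d) * Real.log 2 := by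
        have h1 : (2 * εl * d + 2 * (h * d / 32 + 2 * ε + a * ms + ε) + (2 * ε + a * ms)) *
            Real.log 2 ≤ (h * d / 4) * Real.log 2 := by
          refine mul_le_mul_of_nonneg_right ?_ hl0.le
          linarith only [hεld, h128, hams, he'd, hhd]
        have h2 : (69 / 100) * (h * d) ≤ Real.log 2 * (h * d) :=
          mul_le_mul_of_nonneg_right hl2 hhd.le
        linarith only [h1, h2, hel', hdl, hhd]
      have main' := mul_lt_mul_of_pos_right main hq
      linarith only [main']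
  have hKq := H.rc.t1
  have hKq0 := H.rc.t0
  obtain ⟨b, hb⟩ : ∃ b, b = t + -Tn * q := ⟨_, rfl⟩
  obtain ⟨v, hv⟩ : ∃ v, v = t + -τ * q := ⟨_, rfl⟩
  rw [← hb, ← hv] at D' hFr hFl
  rw [← hb, ← hv]
  have htv : t - v = τ * q := by rw [hv]; ring
  have e1 : a * (d / a * q) = d * q := by field_simp
  -- the levels
  have hTnK : Tn ≤ K' := by
    have hK5 := n.hK5
    linarith only [hK5, hK₀]
  have hTnq : Tn * q ≤ K' * q := mul_le_mul_of_nonneg_right hTnK hq.le
  have hτq : τ * q ≤ Tn * q := mul_le_mul_of_nonneg_right hTn hq.le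
  have hτq0 : 0 ≤ τ * q := mul_nonneg hτ hq.le
  have abb : |b - t| ≤ K' * q := by
    rw [abs_le]
    exact ⟨by linarith only [hb, hTnq], by linarith only [hb, hTnq, hτq, hτq0]⟩
  have abv : |v - t| ≤ K' * q := by
    rw [abs_le]
    exact ⟨by linarith only [hv, hTnq, hτq], by linarith only [hv, hTnq, hτq, hτq0]⟩
  have habs : ∀ l < r + 2, Sl l = a → |L l b b + a * (v - b) - L l v v| ≤ 2 * ε * q := by
    intro l hl hSl
    have h1 := abs_le.1 (H.rc.dL l hl b abb)
    have h2 := abs_le.1 (H.rc.dL l hl v abv)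
    rw [hSl] at h1 h2
    rw [abs_le]
    exact ⟨by linarith only [h1.1, h2.2], by linarith only [h1.2, h2.1]⟩
  have hN2 := habs (r + 1) (by omega) H.hSn
  have hN1 := (abs_le.1 (habs r (by omega) H.hSa)).1
  have h128q : 128 * ε * q ≤ e' * q := mul_le_mul_of_nonneg_right h128 hq.le
  have hs2 : 2 * ε * q ≤ s := by linarith only [h128q, hεq, hγ, hγs]
  have he'q : 784 * (e' * q) ≤ h * d * q := by
    have := mul_le_mul_of_nonneg_right he'd hq.le
    linarith only [this]
  have hvl : e' * q ≤ L (r + 1) v v := by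
    have hv1 : 0 ≤ v := by linarith only [hv, hKq0, hTnq, hτq]
    have h2 : v ≤ L (r + 1) v v := H.rc.low_at (by omega) hv1 le_rfl (by
      linarith only [hv, hKq, hτq0, hTnq, hτq])
    have h3 : (Tn + 1) * q ≤ K' * q :=
      mul_le_mul_of_nonneg_right (by have := n.hK5; linarith only [this, hK₀]) hq.le
    have h4 : e' * q ≤ 1 / 64 * q := mul_le_mul_of_nonneg_right he'2 hq.le
    linarith only [hv, h2, h3, h4, hKq0, hτq, hq]
  have hRw := rows_tie (q := q) (τ := τ) (d := d) (R := R) (δB := δB) (c₀ := c₀) (ε := 2 * ε)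
    (i := i) (NE := NE) (jE := jE) (N₀ := N₀) D' ha0 (mul_le_of_le_one_left ha0.le hh1) hq hd hR
    haR hia htv hN₀ hNE hdN hid hNp hc₀ hδB hδ0.le heq hvl hN2
    (by linarith only [hN1, hs2])
    (by
      have h1 : δ * (R * q) = m * (d / a) / 4 * q := by
        rw [← mul_assoc, hδR]
      have h2 : m * (d / a) * q ≤ δB * (d / a) * q :=
        mul_le_mul_of_nonneg_right (mul_le_mul_of_nonneg_right hm1 (by positivity)) hq.le
      have h3 : 2 * (2 * ε * q) * Real.log 2 ≤ 4 * ε * q := by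
        have h4 : 0 ≤ 2 * (2 * ε * q) := by linarith only [hεq]
        have h5 := mul_le_mul_of_nonneg_left hl1 h4
        linarith only [h5]
      have h6 : (8 * r + 49) * e' * q ≤ δ * R / 4 * q := mul_le_mul_of_nonneg_right hδ1 hq.le
      have e2 : δ * R / 4 * q = m * (d / a) * q / 16 := by
        rw [hδR]
        ring
      rw [e2] at h6
      have h7 : 0 ≤ r * (e' * q) := mul_nonneg hr0 heq.le
      have h8 : 0 < δB * (d / a) * q := by positivity
      rw [h1]
      have e3 : δB * (d / a * q) / 2 = δB * (d / a) * q / 2 := by ring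
      rw [e3]
      linarith only [h2, h3, h6, h7, h8, h128q, heq])
  refine HB (E := fun i => if i = r + 1 then e₀ - μ / 2 else max 0 (L r b b - L i b b))
    (rd := fun i => if i = r + 1 then ρ₀ - μ / 2 else L r b b)
    (p := fun i => if i = r + 1 then L (r + 1) b b - γ else L i b b)
    (X := fun l j => L l b b + dgj An Dn r l + 2 * Dn + j * (v - b)) hqh
    (by
      have h2 : (a * τ + a * R + 2) * q ≤ K' * q := mul_le_mul_of_nonneg_right hK3 hq.le
      have h3 : d * q ≤ a * R * q := mul_le_mul_of_nonneg_right hdaR hq.le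
      have h4 : 0 ≤ a * τ * q := by positivity
      rw [e1]
      linarith only [hKq, h2, h3, h4, hτq0, htv, hq])
    (if_neg (by omega)) (if_pos rfl) (I₀ := (range r).image c)
    (fun η hη => ⟨min (min (Dn / 16) (e' * q)) eF,
      lt_min (lt_min (by linarith only [hDd]) heq) heF,
      min (c₀ * (δB * (d / a * q)) / 16) kF, lt_min (by positivity) hkF,
      fun e k he hee hk hkk => ⟨D'.stc η e hη he
        (hee.trans ((min_le_left _ _).trans (min_le_left _ _))),
        hRw e k (hee.trans ((min_le_left _ _).trans (min_le_right _ _)))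
          (hkk.trans (min_le_left _ _)),
        hFr e k he (hee.trans (min_le_right _ _)) hk (hkk.trans (min_le_right _ _)), ?_⟩⟩)
  rw [e1]
  exact hFl e he (hee.trans ((min_le_left _ _).trans (min_le_right _ _)))

end Pool.AB63
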