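import Pool.Agent.H63.AB.Stp
import Pool.Agent.H62.AB.NumR

/-!
# One tie and one hop as predicates on a class

`qu`, `qn`, `xg`: the jets of the places `c r`, `c (r + 1)` over the labels of the early window `b`, to
`D` digits behind the levels; the label of `c (r + 1)` with the precision `sn (r + 1) b - γ`. `HopB`,
`TieB`: one hop, one tie at the window `t` of a class.
-/

set_option autoImplicit false

namespace Pool.AB63

open Finset Real MvPolynomial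
open Pool.Agent.H49.Ent Pool.Agent.H32.Dense Pool.STK Pool.KA Pool.KSAT Pool.K2S Pool.PB Pool.GEN
open Pool.S6C Pool.RCD Pool.LA91 Pool.OWN68 Pool.AJW Pool.AJX Pool.CHT Pool.PN18 Pool.LPK12
open Pool.TE46
open Pool.AB62 (RNN)

/-- The jet of order `l` of the place `c r` over the labels of `b`, `D` digits behind the level. -/
noncomputable def qu (m : ℕ) (c : ℕ → Fin m) (r : ℕ) (b : ℝ) (sn : ℕ → ℝ → ℝ) (l : ℕ) (D : ℝ) :
    Qt m ℤ :=
  qJet m ((range r).image c) (c r) l b (sn r b) (sn r b - l * b + D)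

/-- The jet of order `l` of the place `c (r + 1)`, labels with the precision `sn (r + 1) b - γ`. -/
noncomputable def qn (m : ℕ) (c : ℕ → Fin m) (r : ℕ) (b : ℝ) (sn : ℕ → ℝ → ℝ) (γ : ℝ) (l : ℕ)
    (D : ℝ) : Qt m ℤ :=
  qJet m ((range (r + 1)).image c) (c (r + 1)) l b (sn (r + 1) b - γ) (sn (r + 1) b - l * b + D)

/-- Both jets of order `l`. -/
noncomputable def xg (m : ℕ) (c : ℕ → Fin m) (r : ℕ) (b : ℝ) (sn : ℕ → ℝ → ℝ) (γ s : ℝ) (l : ℕ)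
    (D : ℝ) : Qt m (ℤ × ℤ) :=
  (qu m c r b sn l (D + s)).prod (qn m c r b sn γ l D)

/-- `F1` at some precision, relative to the time. -/
def F1x {m : ℕ} (S : PCl m) (t : ℝ) {U U' : Type} (Qp : Qt m U) (Q : Qt m U') (δ : ℝ) : Prop :=
  ∃ e : ℝ, 0 < e ∧ F1 S (fun J F => ptr F J) (vg t) (fun _ F => F.T) Qp Q e δ

/-- Alive at some precision. -/
def Alx {m : ℕ} (S : PCl m) (t : ℝ) {U U' : Type} (Qp : Qt m U) (Q : Qt m U') (β : ℝ) : Prop :=
  ∃ e : ℝ, 0 < e ∧ AlF S (fun J F => ptr F J) t (fun _ F => F.T) Qp Q e β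

/-- `IpF` at all small precisions. -/
def Ipx {m : ℕ} (S : PCl m) (w t : ℝ) {U U₁ U₂ : Type} (Qp : Qt m U) (Xo : Qt m U₁) (Xt : Qt m U₂)
    (κ : ℝ) : Prop :=
  ∃ e₀ : ℝ, 0 < e₀ ∧ ∃ k₀ : ℝ, 0 < k₀ ∧ ∀ e k : ℝ, 0 < e → e ≤ e₀ → 0 < k → k ≤ k₀ →
    IpF S (fun J F => ptr F J) w t (fun _ F => F.T) Qp Xo Xt e k κ

/-- **One hop of order** `j` at the window `t`, `B` digits behind the natural ones of `t`, `q` the
radius, `al` the rate, `δ₁` the tolerance. -/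
def HopB {m : ℕ} (S : PCl m) (c : ℕ → Fin m) (r K : ℕ) (a b : ℝ) (sn : ℕ → ℝ → ℝ) (γ s : ℝ)
    {U : Type} (Qp : Qt m U) (j : ℕ) (w t B ε' q al δ₁ : ℝ) : Prop :=
  (∀ l ≤ K + 2, F1x S t Qp (qu m c r b sn l ((a - l) * (w - b) + (a - j) * (t - w) + B + s))
    (δ₁ * q)) →
  (∀ l ≤ K + 2, l ≠ j → F1x S t Qp
    (qn m c r b sn γ l ((a - l) * (w - b) + (a - j) * (t - w) + B)) (δ₁ * q)) →
  F1x S t Qp (qn m c r b sn γ j ((a - j) * (t - b))) (δ₁ * q) →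
  (∀ l, j < l → l ≤ K + 2 → F1x S w Qp
    (qn m c r b sn γ l ((a - l) * (w - b) + (a - j) * (t - w) + B)) (δ₁ * q / 8)) →
  Ipx S w t Qp (xg m c r b sn γ s j ((a - j) * (t - b) + B)) (xg m c r b sn γ s j ((a - j) * (t - b)))
    (δ₁ * q / 8) →
  F1x S t Qp (qu m c r b sn j ((a - j) * (t - b) + B + s)) (δ₁ * q / 8) →
  F1x S w Qp (qu m c r b sn j ((a - j) * (t - b) + s)) (δ₁ * q / 8) →
  Alx S t Qp (qn m c r b sn γ j ((a - j) * (t - b) + ε' * B)) (al * q) → False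

/-- **One tie of order** `i` at the window `t`. -/
def TieB {m : ℕ} (S : PCl m) (c : ℕ → Fin m) (r K : ℕ) (a b : ℝ) (sn : ℕ → ℝ → ℝ) (γ s : ℝ)
    {U : Type} (Qp : Qt m U) (i : ℕ) (w t B ε' q al δ₁ : ℝ) : Prop :=
  (∀ l ≤ K + 2, l ≠ i → F1x S t Qp
    (qu m c r b sn l ((a - l) * (w - b) + (a - i) * (t - w) + B + s)) (δ₁ * q)) →
  F1x S t Qp (qu m c r b sn i ((a - i) * (t - b) + s)) (δ₁ * q) →
  (∀ l ≤ K + 2, l ≠ i → F1x S t Qp
    (qn m c r b sn γ l ((a - l) * (w - b) + (a - i) * (t - w) + B)) (δ₁ * q)) →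
  F1x S t Qp (qn m c r b sn γ i ((a - i) * (t - b))) (δ₁ * q) →
  (∀ l, i < l → l ≤ K + 2 → F1x S w Qp
    (qu m c r b sn l ((a - l) * (w - b) + (a - i) * (t - w) + B + s)) (δ₁ * q / 8)) →
  (∀ l, i < l → l ≤ K + 2 → F1x S w Qp
    (qn m c r b sn γ l ((a - l) * (w - b) + (a - i) * (t - w) + B)) (δ₁ * q / 8)) →
  Ipx S w t Qp (xg m c r b sn γ s i ((a - i) * (t - b) + B)) (xg m c r b sn γ s i ((a - i) * (t - b)))
    (δ₁ * q / 8) →
  Alx S t Qp (qu m c r b sn i ((a - i) * (t - b) + s + ε' * B)) (al * q) → False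

end Pool.AB63
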