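import Pool.Agent.H63.AB.Cnv
import Pool.Agent.H63.JAB.Fwj
import Pool.Agent.H18.PN.Stg8
import Pool.Agent.H28.RJ.Uni

/-!
# The context and the near path of the family over the early labels

`FmB.np`: the near path is few bits given the labels, the context and the time. `FmB.ctx`: the context is
few bits given the near path, a closed code and the time, from the jets of the chain. `paA`: all jets of
the chain over the labels of `b` from the near path.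
-/

set_option autoImplicit false

namespace Pool.AB63

open Finset Real MvPolynomial
open Pool.Agent.H49.Ent Pool.Agent.H32.Dense Pool.STK Pool.KA Pool.KSAT Pool.K2S Pool.PB Pool.GEN
open Pool.S6C Pool.RCD Pool.LA91 Pool.OWN68 Pool.AJW Pool.AJX Pool.CHT Pool.PN18 Pool.LPK12
open Pool.TE46
open Pool.GRD (LbP)
open Pool.LP30 (paQ)
open Pool.RJ28 (dgj dgj_lt dgj_st dgj_le)

variable {m : ℕ}

/-- The family of the labels of the place `l`. -/
def FmL (c : ℕ → Fin m) (r K : ℕ) (e : ℝ) (E : ℕ → ℝ) (b w : ℝ) (rd p : ℕ → ℝ) (l : ℕ) : Fm2 m :=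
  fun J F A V _ _ z' G₁ _ _ =>
  ∃ (V₁ : Type) (z₁ : PtT F → V₁) (z₁' : LnT F → V₁)
    (g₁ : V₁ → ℕ → MvPolynomial (Option (Fin m)) ℝ) (φ₁ : V → V₁),
    LbX F c 0 (r + 2) K e E b rd p A z₁ z₁' g₁ ∧
    (∀ ω, φ₁ (z' (slam F ⌊w * J⌋₊ ω)) = z₁' (slam F ⌊b * J⌋₊ ω)) ∧
    G₁ = (fun v => g₁ (φ₁ v) l)

section

variable {Ψ₀ : Fm2 m} {c : ℕ → Fin m} {r K : ℕ} {e : ℝ} {E : ℕ → ℝ} {b w : ℝ} {rd p : ℕ → ℝ}
  {X : ℕ → ℕ → ℝ}

/-- The jets of the labels of the place `l`. -/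
theorem FmL.qj (c : ℕ → Fin m) (r K : ℕ) (e : ℝ) (E : ℕ → ℝ) (b w : ℝ) (rd p : ℕ → ℝ)
    {l : ℕ} (hl : l < r + 2) (N : ℝ) (j : ℕ) :
    ∃ M J₁ : ℕ, ∀ J ≥ J₁, ∀ (F : Fam m J) (A : F.Ω → Prop) (V C : Type) (z : PtT F → V)
      (z' : LnT F → V) (G₁ G₂ : V → MvPolynomial (Option (Fin m)) ℝ) (cc : LnT F → C),
      FmL c r K e E b w rd p l J F A V C z z' G₁ G₂ cc →
      (qJet m ((range l).image c) (c l) j b (p l) N).P M e J F A
        (oj F (c l) z' G₁ ⌊w * J⌋₊ N j) := by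
  obtain ⟨M, J₁, H⟩ := qj_of m K j N (E l + e) (rd l + e) b (p l) e
  refine ⟨M, J₁, fun J hJ F A V C z z' G₁ G₂ cc h => ?_⟩
  obtain ⟨V₁, z₁, z₁', g₁, φ₁, h2, h5, rfl⟩ := h
  refine H J hJ F _ _ A V₁ z₁ z₁' (fun v => g₁ v l) (h2 l (Nat.zero_le _) hl) _ fun ω hω => ?_
  show ⌊(2 : ℝ) ^ (N * J) * ojet F (c l) j (g₁ (φ₁ (z' (slam F ⌊w * J⌋₊ ω))) l) ω⌋ = _
  rw [h5 ω]

/-- **The context is few bits** given the jets of the chain over the labels of `b`. -/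
theorem FmB.ctx {S : PCl m} {C₀ : ℝ} (htm : TmC S C₀) {α γ : ∀ J : ℕ, Fam m J → Type}
    {f : ∀ (J : ℕ) (F : Fam m J), F.Ω → α J F} {y : ∀ (J : ℕ) (F : Fam m J), F.Ω → γ J F} {a : ℝ}
    {U₀ : Type} {Qu : Qt m U₀} (hw0 : 0 ≤ w) (hwa : w ≤ a) (ha : a ≤ 1)
    (hf : ∀ (J : ℕ) (F : Fam m J), ∃ φ : α J F → PtT F, ∀ ω, ptr F J ω = φ (f J F ω))
    (hy : ∀ (J : ℕ) (F : Fam m J), ∃ φ : γ J F → ℕ, ∀ ω, F.T ω = φ (y J F ω))
    (hX : ∀ l < r, ∀ i j, i ≤ j → X l i ≤ X l j)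
    (hJ : ∀ η : ℝ, 0 < η → ∀ l < r, ∀ j ≤ K + 2, F1 S f (vg a) y Qu
      (qJet m ((range l).image c) (c l) j b (p l) (0 + X l j - j * w)) e η)
    {δ : ℝ} (hδ : 0 < δ) :
    Fw2 S f a y Qu (FmB Ψ₀ c r K e E b w rd p X) (τ := fun _ _ _ C => C)
      (fun J F _ _ _ _ _ cc ω => cc (vg w J F ω)) e δ := by
  classical
  obtain ⟨η, hη⟩ : ∃ η : ℝ, η = δ / (2 * (r + 1) * (K + 3)) := ⟨_, rfl⟩
  have hK3 : (0 : ℝ) < K + 3 := by positivity
  have hr1 : (0 : ℝ) < r + 1 := by positivity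
  have hη0 : 0 < η := by
    rw [hη]
    positivity
  have hηe : (r + 1) * ((K + 3) * η + δ / (2 * (r + 1))) = δ := by
    rw [hη]
    field_simp
    ring
  have key : ∀ l < r, Fw2 S f a y Qu (FmL c r K e E b w rd p l) (τ := fun _ _ _ _ => Fin (K + 3) → ℤ)
      (fun J F _ _ z' G₁ _ _ ω => fun l' => if 0 ≤ (l' : ℕ) then
        ⌊jr F ⌊w * J⌋₊ (2 ^ ((0 + X l l') * J)) (c l) z' G₁ l' (vg w J F ω)⌋ else 0) e
      ((K + 3) * η + δ / (2 * (r + 1))) := by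
    intro l hl
    refine jr_of_oj K htm hw0 hwa ha (fun i j _ hij => hX l hl i j hij) hy hη0.le (by positivity)
      ?_ ?_
    · rintro J F A V C z z' G₁ G₂ cc ⟨V₁, z₁, z₁', g₁, φ₁, h2, h5, rfl⟩ v
      exact ((h2 l (Nat.zero_le _) (by omega)).deg (φ₁ v)).trans (Nat.le_succ K)
    · intro j _ hj
      exact fw2_of_f1 (X := fun J F _ _ z' G₁ _ _ =>
        oj F (c l) z' G₁ ⌊w * J⌋₊ (0 + X l j - j * w) j) (hJ η hη0 l hl j hj)
        (FmL.qj c r K e E b w rd p (by omega) _ j)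
  intro K₀
  refine Bas.mono 0 ((Bas.all r fun l hl => key l hl K₀).and
    (Pool.GRW.tmc_bas htm one_pos)) ?_
  rintro J - F A ⟨hall, hA, -⟩ V C z z' G₁ G₂ cc hcc u₀ hu₀
  obtain ⟨V₀, C₀', V₁, z₀, z₀', P₁, P₂, c₀, z₁, z₁', g₁, Hp, φ₀, φ₁, h1, h2, h3, h4, h5, rfl, rfl,
    h8, h9, h10, h11, ψ, h12⟩ := hcc
  have hz : ∀ l : Fin r, ∃ (V₂ : Type) (z₂ : F.Ω → V₂), Cl2 (f J F) (vg a J F) A z₂ ∧
      CH (Pool.Agent.H49.Ent.cond F.p A True) (fun ω => fun l' : Fin (K + 3) => if 0 ≤ (l' : ℕ) then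
        ⌊jr F ⌊w * J⌋₊ (2 ^ ((0 + X l l') * J)) (c l) z' (fun v => g₁ (φ₁ v) l) l'
          (vg w J F ω)⌋ else 0)
        (fun ω => (u₀ ω, (z₂ ω, y J F ω))) ≤ ((K + 3) * η + δ / (2 * (r + 1))) * J := fun l =>
    hall l l.2 V C z z' (fun v => g₁ (φ₁ v) l) (fun v => g₁ (φ₁ v) l) cc
      ⟨V₁, z₁, z₁', g₁, φ₁, h2, h5, rfl⟩ u₀ hu₀
  choose V2 z2 hz2 hC using hz
  have h0 := (isLaw_cond F.isLaw hA).nonneg
  have hJ0 : (0 : ℝ) ≤ J := Nat.cast_nonneg J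
  obtain ⟨φg, hφg⟩ := vg_mono hwa ha J F
  obtain ⟨φf, hφf⟩ := hf J F
  have b1 : Cl2 (f J F) (vg a J F) A (fun ω => z' (slam F ⌊w * J⌋₊ ω)) := by
    refine ⟨⟨fun x => z (φf x), fun ω hω => ?_⟩, ⟨fun x => z' (φg x), fun ω _ => ?_⟩⟩
    · dsimp only
      rw [← hφf ω]
      exact (h3 ω hω).symm
    · dsimp only
      rw [← hφg ω]
      rfl
  refine ⟨_, _, b1.join (Cl2.pi hz2), ?_⟩
  obtain ⟨q, hq⟩ : ∃ q : F.Ω → ℝ, q = Pool.Agent.H49.Ent.cond F.p A True := ⟨_, rfl⟩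
  rw [← hq] at h0 hC ⊢
  obtain ⟨R, hR⟩ : ∃ R : F.Ω → U₀ × ((V × (∀ l, V2 l)) × γ J F), R = fun ω =>
    (u₀ ω, ((z' (slam F ⌊w * J⌋₊ ω), fun l => z2 l ω), y J F ω)) := ⟨_, rfl⟩
  obtain ⟨Y, hY⟩ : ∃ Y : F.Ω → Fin r → Fin (K + 3) → ℤ, Y = fun ω (l : Fin r)
      (l' : Fin (K + 3)) => if 0 ≤ (l' : ℕ) then
        ⌊jr F ⌊w * J⌋₊ (2 ^ ((0 + X l l') * J)) (c l) z' (fun v => g₁ (φ₁ v) l) l'
          (vg w J F ω)⌋ else 0 := ⟨_, rfl⟩
  have e1 : CH q (fun ω => cc (vg w J F ω)) R ≤ CH q Y R := by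
    refine CH_mono_left h0 fun ω ω' _ _ hh => ?_
    obtain ⟨a1, a2⟩ := Prod.ext_iff.mp hh
    dsimp only at a1
    rw [hR] at a2
    have a3 : z' (slam F ⌊w * J⌋₊ ω) = z' (slam F ⌊w * J⌋₊ ω') :=
      (Prod.ext_iff.mp (Prod.ext_iff.mp (Prod.ext_iff.mp a2).2).1).1
    show cc (vg w J F ω) = cc (vg w J F ω')
    rw [h12 (vg w J F ω), h12 (vg w J F ω')]
    refine congrArg ψ (Prod.ext a3 ?_)
    funext l j
    show (if l < r ∧ j < K + 3 then _ else (0 : ℤ)) = if l < r ∧ j < K + 3 then _ else (0 : ℤ)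
    by_cases hlj : l < r ∧ j < K + 3
    · rw [if_pos hlj, if_pos hlj]
      have a4 := congrFun (congrFun a1 ⟨l, hlj.1⟩) ⟨j, hlj.2⟩
      rw [hY] at a4
      simpa only [Nat.zero_le, if_true, zero_add] using a4
    · rw [if_neg hlj, if_neg hlj]
  have e2 : CH q Y R ≤ ∑ l : Fin r, CH q (fun ω => Y ω l) R := CH_pis h0 _ _
  have e3 : ∀ l : Fin r, CH q (fun ω => Y ω l) R ≤ ((K + 3) * η + δ / (2 * (r + 1))) * J := by
    intro l
    rw [hY]
    refine (CH_mono_cond h0 fun ω ω' _ _ hh => ?_).trans (hC l)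
    rw [hR] at hh
    obtain ⟨a1, a2⟩ := Prod.ext_iff.mp hh
    obtain ⟨a3, a4⟩ := Prod.ext_iff.mp a2
    exact Prod.ext a1 (Prod.ext (congrFun (Prod.ext_iff.mp a3).2 l) a4)
  have e4 : ∑ l : Fin r, CH q (fun ω => Y ω l) R ≤ r * (((K + 3) * η + δ / (2 * (r + 1))) * J) := by
    refine (Finset.sum_le_sum fun l _ => e3 l).trans (le_of_eq ?_)
    rw [Finset.sum_const, Finset.card_univ, Fintype.card_fin, nsmul_eq_mul]
  have e5 : 0 ≤ ((K + 3) * η + δ / (2 * (r + 1))) * J := by positivity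
  have e6 : δ * J = (r + 1) * (((K + 3) * η + δ / (2 * (r + 1))) * J) := by
    rw [← mul_assoc, hηe]
  rw [hR] at e1 e2 e4
  linarith

/-- **The near path is few bits** given the labels, the context and the time. -/
theorem FmB.np {S : PCl m} {C₀ : ℝ} (htm : TmC S C₀) (hw0 : 0 ≤ w) (hw1 : w ≤ 1) {γ e₁ δ₁ : ℝ}
    {nH nV : ℕ → ℝ} (hγ : 0 ≤ γ) (hX : ∀ l < r, ∀ i j, i ≤ j → X l i ≤ X l j)
    (hH : ∀ l < r, nH l ≤ X l 0 + γ) (hV : ∀ l < r, nV l ≤ X l 1 - w + γ) (he : e ≤ e₁)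
    (hδ : 2 * r * (γ * Real.log 2) < δ₁) :
    NpF S (FmB Ψ₀ c r K e E b w rd p X) w (paQ m c r b p nH nV) e₁ δ₁ := by
  classical
  obtain ⟨Cj, hCj0, hCj⟩ := oj_near K
  obtain ⟨Ll, hLl⟩ : ∃ Ll : ℝ, Ll = Real.log (4 * Cj + 7) := ⟨_, rfl⟩
  have hLl0 : 0 ≤ Ll := by
    rw [hLl]
    exact Real.log_nonneg (by linarith)
  obtain ⟨N, hN⟩ : ∃ N : ℕ → ℕ → ℝ, N = fun l j => if j = 0 then nH l else nV l := ⟨_, rfl⟩
  have hNn : ∀ l < r, ∀ j < 2, N l j ≤ 0 + X l j - (j : ℕ) * w + γ := by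
    intro l hl j hj
    rcases Nat.eq_zero_or_pos j with rfl | h1
    · rw [hN]
      simp only [if_true, Nat.cast_zero, zero_mul, sub_zero, zero_add]
      exact hH l hl
    · obtain rfl : j = 1 := by omega
      rw [hN]
      simp only [one_ne_zero, if_false, Nat.cast_one, one_mul, zero_add]
      exact hV l hl
  choose M J₁ hc using fun l j => FmL.qj (m := m) c r K e E b w rd p (l := min l (r + 1))
    (lt_of_le_of_lt (min_le_right _ _) (Nat.lt_succ_self _)) (N l j) j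
  obtain ⟨s, hs⟩ : ∃ s : ℝ, s = δ₁ - 2 * r * (γ * Real.log 2) := ⟨_, rfl⟩
  have hs0 : 0 < s := by
    rw [hs]
    linarith
  obtain ⟨J₂, hJ₂⟩ := exists_nat_ge (2 * r * Ll / s)
  refine ⟨∑ l ∈ range r, ∑ j ∈ range 2, M l j,
    Bas.mono (max (∑ l ∈ range r, ∑ j ∈ range 2, J₁ l j) J₂) (Pool.GRW.tmc_bas htm one_pos) ?_⟩
  rintro J hJ F A ⟨hA, -⟩ V C z z' G₁ G₂ cc hcc
  obtain ⟨V₀, C₀', V₁, z₀, z₀', P₁, P₂, c₀, z₁, z₁', g₁, Hp, φ₀, φ₁, h1, h2, h3, h4, h5, rfl, rfl,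
    h8, h9, h10, ⟨φ, hφ⟩, h12⟩ := hcc
  have hJ0 : (0 : ℝ) ≤ J := Nat.cast_nonneg J
  have hJ2 : (J₂ : ℝ) ≤ J := by exact_mod_cast (le_max_right _ _).trans hJ
  have hsJ : 2 * r * Ll ≤ s * J := by
    have := hJ₂.trans hJ2
    rw [div_le_iff₀ hs0] at this
    linarith
  have hql := isLaw_cond F.isLaw hA
  have h0 := hql.nonneg
  obtain ⟨q, hq⟩ : ∃ q : F.Ω → ℝ, q = Pool.Agent.H49.Ent.cond F.p A True := ⟨_, rfl⟩
  rw [← hq] at hql h0 ⊢
  obtain ⟨pa, hpa⟩ : ∃ pa : F.Ω → ℕ → ℕ → ℤ, pa = fun ω l j => if l < r ∧ j < 2 then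
    oj F (c l) z' (fun v => g₁ (φ₁ v) l) ⌊w * J⌋₊ (N l j) j ω else 0 := ⟨_, rfl⟩
  have hpl : ∀ l < r, ∀ j < 2, (fun ω => pa ω l j) =
      oj F (c l) z' (fun v => g₁ (φ₁ v) l) ⌊w * J⌋₊ (N l j) j := by
    intro l hl j hj
    funext ω
    rw [hpa]
    dsimp only
    rw [if_pos ⟨hl, hj⟩]
  refine ⟨pa, ⟨fun l _ hl j hj => ?_, fun ω _ l j h => ?_⟩, ?_⟩
  · have hl' : l ∈ range r := Finset.mem_range.2 hl
    have hj' : j ∈ range 2 := Finset.mem_range.2 (by omega)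
    have hmin : min l (r + 1) = l := min_eq_left (by omega)
    rw [hpl l hl j (by omega)]
    have e1 : J₁ l j ≤ ∑ l ∈ range r, ∑ j ∈ range 2, J₁ l j :=
      (Finset.single_le_sum (f := fun j => J₁ l j) (fun _ _ => Nat.zero_le _) hj').trans
        (Finset.single_le_sum (f := fun l => ∑ j ∈ range 2, J₁ l j)
          (fun _ _ => Nat.zero_le _) hl')
    have e2 : M l j ≤ ∑ l ∈ range r, ∑ j ∈ range 2, M l j :=
      (Finset.single_le_sum (f := fun j => M l j) (fun _ _ => Nat.zero_le _) hj').trans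
        (Finset.single_le_sum (f := fun l => ∑ j ∈ range 2, M l j)
          (fun _ _ => Nat.zero_le _) hl')
    have h6 := hc l j J (e1.trans ((le_max_left _ _).trans hJ)) F A V C z z'
      (fun v => g₁ (φ₁ v) (min l (r + 1))) (fun v => g₁ (φ₁ v) l) cc
      ⟨V₁, z₁, z₁', g₁, φ₁, h2, h5, rfl⟩
    rw [hmin] at h6
    have h7 := (qJet m _ _ _ _ _ _).mono e2 he h6
    rw [hN] at h7 ⊢
    exact h7
  · rw [hpa]
    dsimp only
    rw [if_neg fun h1 => h ⟨Nat.zero_le _, h1.1, by omega⟩]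
  · obtain ⟨Lc, hLc⟩ : ∃ Lc : F.Ω → V × (C × (ℕ × F.ζ)), Lc = fun ω =>
      (z' (slam F ⌊w * J⌋₊ ω), (cc (slam F ⌊w * J⌋₊ ω), F.W ω)) := ⟨_, rfl⟩
    rw [← hLc]
    have key : ∀ l < r, ∀ j < 2, CH q (fun ω => pa ω l j) Lc ≤ γ * J * Real.log 2 + Ll := by
      intro l hl j hj
      have hdeg : ∀ v, (g₁ (φ₁ v) l).totalDegree ≤ K + 1 := fun v =>
        ((h2 l (Nat.zero_le _) (by omega)).deg (φ₁ v)).trans (Nat.le_succ K)
      obtain ⟨Φ, hΦ⟩ := hCj F (κ := c l) z' (fun v => g₁ (φ₁ v) l) hdeg (w := w) (p := 0) hw0 hw1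
        (X := X l) (Nat.zero_le j) (by omega) (fun i hi => hX l hl j i hi)
      rw [hpl l hl j hj, hLl]
      refine ch_oj hql Lc (n' := 0 + X l j - (j : ℕ) * w) (hNn l hl j hj) hγ hCj0
        (fun x => Φ (fun i => φ x.2.1 l i) x.2.2.1) fun ω => ?_
      have h1 := hΦ ω
      have h2 := hφ (slam F ⌊w * J⌋₊ ω)
      rw [hLc]
      dsimp only
      rw [← h2]
      unfold pcd
      simp only [Nat.zero_le, if_true] at h1 ⊢
      have e1 : (fun i : Fin (K + 3) => if l < r ∧ (i : ℕ) < K + 3 then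
          ⌊jr F ⌊w * J⌋₊ (2 ^ (X l i * J)) (c l) z' (fun v => g₁ (φ₁ v) l) i
            (slam F ⌊w * J⌋₊ ω)⌋ else 0) = fun i : Fin (K + 3) =>
          ⌊jr F ⌊w * J⌋₊ (2 ^ ((0 + X l i) * J)) (c l) z' (fun v => g₁ (φ₁ v) l) i
            (slam F ⌊w * J⌋₊ ω)⌋ := by
        funext i
        rw [if_pos ⟨hl, i.2⟩, zero_add]
      rw [e1]
      exact h1
    have h3' : CH q pa Lc ≤ CH q (fun ω (l : Fin r) (j : Fin 2) => pa ω l j) Lc := by
      refine CH_mono_left h0 fun ω ω' _ _ hh => ?_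
      have h4 := (Prod.ext_iff.mp hh).1
      funext l j
      by_cases h5 : l < r ∧ j < 2
      · exact congrFun (congrFun h4 ⟨l, h5.1⟩) ⟨j, h5.2⟩
      · rw [hpa]
        dsimp only
        rw [if_neg h5, if_neg h5]
    have h4' : CH q (fun ω (l : Fin r) (j : Fin 2) => pa ω l j) Lc ≤
        ∑ l : Fin r, ∑ j : Fin 2, CH q (fun ω => pa ω l j) Lc :=
      (CH_pis h0 _ _).trans (Finset.sum_le_sum fun l _ => CH_pis h0 _ _)
    have h5' : ∑ l : Fin r, ∑ j : Fin 2, CH q (fun ω => pa ω l j) Lc ≤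
        ∑ l : Fin r, ∑ j : Fin 2, (γ * J * Real.log 2 + Ll) :=
      Finset.sum_le_sum fun l _ => Finset.sum_le_sum fun j _ => key l l.2 j j.2
    have h6' : ∑ l : Fin r, ∑ j : Fin 2, (γ * J * Real.log 2 + Ll) =
        2 * r * (γ * Real.log 2) * J + 2 * r * Ll := by
      simp only [Finset.sum_const, Finset.card_univ, Fintype.card_fin, nsmul_eq_mul]
      push_cast
      ring
    have h7' : δ₁ * J = 2 * r * (γ * Real.log 2) * J + s * J := by
      rw [hs]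
      ring
    linarith only [h3', h4', h5', h6', h7', hsJ]

end

/-- **All jets of the chain over the labels of** `b` from the near path, to the digits of the
heights. -/
theorem paA {S : PCl m} {C₀ : ℝ} (htm : TmC S C₀) {c : ℕ → Fin m} {r : ℕ} {sn : ℕ → ℝ → ℝ}
    {G : Set ℝ} (hch : ChG S c r sn G) {b a A D φ : ℝ} {v₀ : ℕ → ℝ} (hb : b ∈ G) (hba : b ≤ a)
    (ha : a ≤ 1) (hA : 0 ≤ A) (hD : 0 < D) (hφ : φ ≤ D / 2)
    (hv : ∀ i < r, v₀ i ∈ G ∧ 0 ≤ v₀ i ∧ b - v₀ i = dgj A D r i + 3 * D ∧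
      |sn i b - sn i (v₀ i) - (b - v₀ i)| ≤ φ)
    (h1b : 3 * dgj A D r 0 + 6 * D ≤ 1 - b) :
    JetA S (fun J F => ptr F J) (vg a) (fun _ F => F.T)
      (paQ m c r b (fun l => sn l b) (fun l => sn l b + dgj A D r l + 2 * D)
        (fun l => sn l b + dgj A D r l + 2 * D - b)) c 0 r b (fun l => sn l b)
      (fun l => sn l b + dgj A D r l + 2 * D) (D / 16) := by
  obtain ⟨u₁, rd, hrd, hcb⟩ := hch.ch b hb
  have hb0 : 0 ≤ b := hcb.w0
  have hd0 : ∀ l, l < r → dgj A D r l ≤ dgj A D r 0 := fun l hl => by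
    rcases Nat.eq_zero_or_pos l with rfl | h1
    · exact le_rfl
    · have h2 := dgj_st hA hD h1 hl
      have h3 := dgj_lt hA hD hl
      linarith
  have hlt : ∀ l, l < r → 16 * D ≤ dgj A D r l := fun l hl => by
    have := dgj_lt hA hD hl
    linarith
  rcases Nat.eq_zero_or_pos r with hr0 | hr0
  · subst hr0
    intro η _ l _ hl
    exact absurd hl (Nat.not_lt_zero l)
  have hd00 := hlt 0 hr0
  have hb1 : b < 1 := by linarith
  have e0 : min (1 : ℝ) (1 - b) = 1 - b := min_eq_right (by linarith)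
  have hP : ∀ i < r, sn i b - (b - v₀ i) - φ ≤ sn i (v₀ i) := fun i hi => by
    have := (abs_le.1 (hv i hi).2.2.2).2
    linarith
  have hPm : ∀ i < r, sn i b - (b - v₀ i) - φ ≤ min (sn i (v₀ i)) (sn i b) := fun i hi => by
    refine le_min (hP i hi) ?_
    have h1 := (hv i hi).2.2.1
    have h2 := hlt i hi
    have h3 := (abs_nonneg _).trans (hv i hi).2.2.2
    linarith
  have hself : ∀ η : ℝ, 0 < η → ∀ l, 0 ≤ l → l < r → ∀ j ≤ 1,
      F1 S (fun J F => ptr F J) (vg a) (fun _ F => F.T)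
      (paQ m c r b (fun l => sn l b) (fun l => sn l b + dgj A D r l + 2 * D)
        (fun l => sn l b + dgj A D r l + 2 * D - b))
      (qJet m ((range l).image c) (c l) j b (sn l b)
        (sn l b + dgj A D r l + 2 * D - (j : ℕ) * b)) (D / 2 / 8) η := by
    intro η hη l _ hl j hj
    have hNv : ∀ i < r, ∀ j' ≤ 1, (if j' = 0 then sn i b + dgj A D r i + 2 * D else
        sn i b + dgj A D r i + 2 * D - b) = sn i b + dgj A D r i + 2 * D - (j' : ℕ) * b := by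
      intro i _ j' hj'
      rcases Nat.eq_zero_or_pos j' with rfl | h1
      · simp
      · obtain rfl : j' = 1 := by omega
        simp
    have k1 := jetN_F1 (y := fun (_ : ℕ) (F : Fam m _) => F.T)
      (f := fun (J : ℕ) (F : Fam m J) => ptr F J) htm (hcb.take (Nat.zero_le _) hl.le)
      (k := c l) (j := j) (lv := dgj A D r) (p₀ := 1) (lam := 1) (σ₀ := D / 2) (w₁ := b) (w₂ := b)
      (p₁ := sn l b) (p₂ := sn l b)
      (N₁ := if j = 0 then sn l b + dgj A D r l + 2 * D else sn l b + dgj A D r l + 2 * D - b)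
      (N₂ := sn l b + dgj A D r l + 2 * D - (j : ℕ) * b)
      (wv := fun _ _ => b) (pv := fun l _ => sn l b)
      (Nv := fun l j => if j = 0 then sn l b + dgj A D r l + 2 * D else
        sn l b + dgj A D r l + 2 * D - b)
      (fun _ _ _ _ _ => le_rfl) le_rfl le_rfl hb1 le_rfl one_pos (by linarith)
      (fun i _ hi => by linarith [hlt i (by omega)])
      (fun i _ hi j' hj' => by
        rw [hNv i (by omega) j' (by omega)]
        linarith)
      (fun i _ hi j' _ => by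
        rw [min_self, e0]
        linarith [hd0 i (by omega)])
      (fun i _ hi j' _ l' _ hl' => by
        rw [min_self]
        linarith [dgj_st hA hD hl' (by omega : i < r), hlt i (by omega)])
      (le_of_eq (hNv l hl j hj).symm)
      (by
        rw [min_self, e0]
        linarith [hd0 l hl])
      (fun l' _ hl' => by
        rw [min_self]
        linarith [dgj_st hA hD hl' hl, hlt l hl]) ptr_id (kn_T c _ _) hη
    refine F1.up hba ha (F1.pull htm (Q₁ := (qJets m c 0 l j (fun _ _ => b) (fun l _ => sn l b)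
        (fun l j => if j = 0 then sn l b + dgj A D r l + 2 * D else
          sn l b + dgj A D r l + 2 * D - b)).prod
        (qJet m ((range l).image c) (c l) j b (sn l b)
          (if j = 0 then sn l b + dgj A D r l + 2 * D else sn l b + dgj A D r l + 2 * D - b)))
      (fun u => ((fun i' j' => if i' < l ∧ j' ≤ j then u i' j' else 0), u l j)) ?_ k1)
    intro K e J F A u hu
    refine ⟨⟨fun i' a b' j' c' => ?_, fun ω hω i' j' h' => ?_⟩, ?_⟩
    · have e1 := hu.1 i' a (b'.trans hl) j' (c'.trans hj)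
      show (qJet m _ _ _ _ _ _).P K e J F A (fun ω => if i' < l ∧ j' ≤ j then u ω i' j' else 0)
      simp only [if_pos (show i' < l ∧ j' ≤ j from ⟨b', c'⟩)]
      exact e1
    · show (if i' < l ∧ j' ≤ j then u ω i' j' else 0) = 0
      split_ifs with h3
      · exact hu.2 ω hω i' j' fun h4 => h' ⟨h4.1, h3.1, h3.2⟩
      · rfl
    · exact hu.1 l (Nat.zero_le _) hl j hj
  have h5 := jetA_onesV (Q := paQ m c r b (fun l => sn l b)
      (fun l => sn l b + dgj A D r l + 2 * D) (fun l => sn l b + dgj A D r l + 2 * D - b))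
    (f := fun (J : ℕ) (F : Fam m J) => ptr F J) (y := fun (_ : ℕ) (F : Fam m _) => F.T)
    (n := fun l => sn l b + dgj A D r l + 2 * D) (P₀ := fun i => sn i (v₀ i))
    (lv := dgj A D r) (lam := 1 - b) (σ := D / 2) (e₁ := D / 2 / 8) htm hcb
    (fun l _ hl => hrd l hl) hba ha (fun i _ hi => (hv i hi).2.1)
    (fun i _ hi => by
      have h1 := (hv i hi).2.2.1
      linarith [hlt i hi])
    (fun i _ hi => by
      obtain ⟨u', r', hr', hc'⟩ := hch.ch (v₀ i) (hv i hi).1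
      exact ⟨r' i, hr' i hi, hc'.att i (Nat.zero_le _) hi⟩)
    (by linarith) (by linarith) (by linarith)
    (fun l _ hl => by linarith [hlt l hl])
    (fun l _ hl => by
      show sn l b + dgj A D r l + D / 2 ≤ sn l b + dgj A D r l + 2 * D
      linarith)
    (fun l _ hl => by
      have h1 := hPm l hl
      have h2 := (hv l hl).2.2.1
      show sn l b + dgj A D r l + 2 * D + D / 2 ≤ min (sn l (v₀ l)) (sn l b) + (1 - b)
      linarith [hd0 l hl])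
    (fun i _ hi l _ hl => by
      have h1 := hPm i hi
      have h2 := (hv i hi).2.2.1
      have h3 := dgj_st hA hD hl hi
      show sn i b + dgj A D r i + 2 * D + D / 2 ≤ min (sn i (v₀ i)) (sn i b) + dgj A D r l
      linarith [hlt i hi])
    (fun i _ hi => by
      have h1 := hP i hi
      have h2 := (hv i hi).2.2.1
      show sn i b + dgj A D r i + 2 * D + D / 2 ≤ sn i (v₀ i) + 2 * (b - v₀ i)
      linarith) ptr_id (kn_T c _ _) (by positivity) hself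
  have e16 : min (D / 2 / 8) (D / 2 / 8) = D / 16 := by
    rw [min_self]
    ring
  rw [e16] at h5
  exact h5

end Pool.AB63
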