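import Pool.Agent.H63.AB.Bst
import Pool.Agent.H91.AB.Nmf

/-!
# The sub-box: the orders above are dead

`BoxD`: the facts at the windows of a sub-box with the cells `u`: natural digits, numbers of the pairs
of jets, rates of the jets of the place `c r`. `dead_all`: from the hops all orders above `i` are dead.
`box_false`: with the tie of order `i` a contradiction.
-/

set_option autoImplicit false

namespace Pool.AB63

open Finset Real MvPolynomial
open Pool.Agent.H49.Ent Pool.Agent.H32.Dense Pool.STK Pool.KA Pool.KSAT Pool.K2S Pool.PB Pool.GEN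
open Pool.S6C Pool.RCD Pool.LA91 Pool.OWN68 Pool.AJW Pool.AJX Pool.CHT Pool.PN18 Pool.LPK12
open Pool.TE46 Pool.AB91

/-- `FewC` relative to the time. -/
def Fcx {m : ℕ} (S : PCl m) (t : ℝ) {U U' : Type} (Qp : Qt m U) (Q : Qt m U') (c : ℝ) : Prop :=
  FewC S (fun J F => ptr F J) (vg t) (fun _ F => F.T) Qp Q c

section

variable {m : ℕ} {S : PCl m} {t : ℝ} {U U' U₁ U₂ : Type} {Qp : Qt m U} {Q : Qt m U'}
  {Q₁ : Qt m U₁} {Q₂ : Qt m U₂}

theorem Fcx.x {c δ : ℝ} (h : Fcx S t Qp Q c) (hc : c < δ) : F1x S t Qp Q δ := by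
  obtain ⟨e, he, H⟩ := h (δ - c) (by linarith)
  refine ⟨e, he, fun K => Bas.mono 0 (H K) ?_⟩
  intro J _ F A H u u' hu hu'
  obtain ⟨V, z, hz, h1⟩ := H u u' hu hu'
  refine ⟨V, z, hz, h1.trans (le_of_eq (by ring))⟩

theorem F1x.up {w δ : ℝ} (hwt : w ≤ t) (ht : t ≤ 1) (h : F1x S w Qp Q δ) : F1x S t Qp Q δ := by
  obtain ⟨e, he, h⟩ := h
  exact ⟨e, he, F1.up hwt ht h⟩

theorem Fcx.dg {C₀ : ℝ} (htm : TmC S C₀) {I : Finset (Fin m)} {k : Fin m} {j : ℕ}
    {w p N N' c c' g' : ℝ} (h : Fcx S t Qp (qJet m I k j w p N') c) (hN : N ≤ N' + g')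
    (hg : 0 ≤ g') (hc : c + g' * Real.log 2 ≤ c') : Fcx S t Qp (qJet m I k j w p N) c' :=
  fewC_dg (S := S) (f := fun J F => ptr F J) (g := vg t) (y := fun _ F => F.T) htm h hN hg hc

theorem Alx.snd {C₀ : ℝ} (htm : TmC S C₀) {β δ : ℝ} (h : Alx S t Qp (Q₁.prod Q₂) β)
    (h1 : F1x S t Qp Q₁ δ) (hx : Exs S Q₁) : Alx S t Qp Q₂ (β - δ) := by
  obtain ⟨e₁, he₁, h⟩ := h.com
  obtain ⟨e₂, he₂, h1⟩ := h1.com
  have he : 0 < min e₁ e₂ := lt_min he₁ he₂
  exact ⟨min e₁ e₂, he, alf_snd (S := S) (f := fun J F => ptr F J) (y := fun _ F => F.T) htm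
    (h _ (min_le_left _ _)) (h1 _ (min_le_right _ _)) (exs_ex hx he)⟩

theorem Alx.dg {C₀ : ℝ} (htm : TmC S C₀) {I : Finset (Fin m)} {k : Fin m} {j : ℕ}
    {w p N N' b b' : ℝ} (h : Alx S t Qp (qJet m I k j w p N) b) (hN : N ≤ N') (hb : b' < b) :
    Alx S t Qp (qJet m I k j w p N') b' := by
  obtain ⟨e, he, h⟩ := h
  exact ⟨e, he, alf_dg (S := S) (f := fun J F => ptr F J) (y := fun _ F => F.T) htm h
    (g' := 0) (by linarith) le_rfl (by linarith)⟩

theorem Ipx.mono {w κ κ' : ℝ} (h : Ipx S w t Qp Q₁ Q₂ κ) (hκ : κ ≤ κ') :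
    Ipx S w t Qp Q₁ Q₂ κ' := by
  obtain ⟨e, he, k, hk, h⟩ := h
  exact ⟨e, he, k, hk, fun e' k' a b a' b' => ipf_mono (h e' k' a b a' b') le_rfl le_rfl hκ⟩

end

/-- **The facts at the windows of a sub-box** with the cells `u`, errors `η u`. -/
structure BoxD {m : ℕ} (S : PCl m) (c : ℕ → Fin m) (r K kt : ℕ) (a b : ℝ) (sn : ℕ → ℝ → ℝ)
    (γ s : ℝ) {U : Type} (Qp : Qt m U) (x : ℕ → ℝ) (N : ℕ) (u η : ℝ) (θ : ℕ → ℕ → ℕ → ℝ)
    (φ : ℕ → ℝ) : Prop where
  tm : ∃ C₀ : ℝ, TmC S C₀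
  u0 : 0 < u
  s0 : 0 ≤ s
  s1 : s ≤ η * u
  xs : ∀ n ≤ N, x n = x 0 + n * u
  x1 : x N ≤ 1
  exu : ∀ l ≤ K + 2, ∀ D, Exs S (qu m c r b sn l D)
  exn : ∀ l ≤ K + 2, ∀ D, Exs S (qn m c r b sn γ l D)
  /-- natural digits -/
  nu : ∀ n ≤ N, ∀ l ≤ K + 2, ∀ D, D ≤ (a - l) * (x n - b) →
    Fcx S (x n) Qp (qu m c r b sn l D) (η * u)
  nn : ∀ n ≤ N, ∀ l ≤ K + 2, ∀ D, D ≤ (a - l) * (x n - b) →
    Fcx S (x n) Qp (qn m c r b sn γ l D) (η * u)
  /-- no digits -/
  zu : ∀ n ≤ N, ∀ l ≤ K + 2, ∀ D, D ≤ 0 → Fcx S (x n) Qp (qu m c r b sn l D) (η * u)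
  zn : ∀ n ≤ N, ∀ l ≤ K + 2, ∀ D, D ≤ 0 → Fcx S (x n) Qp (qn m c r b sn γ l D) (η * u)
  /-- the numbers -/
  rf : ∀ l, 1 ≤ l → l ≤ kt → ∀ i j, i ≤ j → j ≤ N →
    Fcx S (x i) Qp (xg m c r b sn γ s l ((a - l) * (x j - b))) (θ l i j)
  ra : ∀ l, 1 ≤ l → l ≤ kt → ∀ i j, i ≤ j → j ≤ N →
    Alx S (x i) Qp (xg m c r b sn γ s l ((a - l) * (x j - b))) (θ l i j - η * u)
  ad : ∀ l, 1 ≤ l → l ≤ kt → ∀ i j k, i ≤ j → j ≤ k → k ≤ N →
    θ l i k ≤ θ l i j + θ l j k + η * u
  ip : ∀ l, 1 ≤ l → l ≤ kt → ∀ i j k, i ≤ j → j ≤ k → k ≤ N →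
    Ipx S (x i) (x j) Qp (xg m c r b sn γ s l ((a - l) * (x k - b)))
      (xg m c r b sn γ s l ((a - l) * (x j - b))) (η * u)
  /-- the rates of the place `c r` -/
  vf : ∀ l, 1 ≤ l → l ≤ kt → ∀ i j, i ≤ j → j ≤ N →
    Fcx S (x i) Qp (qu m c r b sn l ((a - l) * (x j - b))) (φ l * (x j - x i) + η * u)
  va : ∀ l, 1 ≤ l → l ≤ kt → ∀ i j, i ≤ j → j ≤ N →
    Alx S (x i) Qp (qu m c r b sn l ((a - l) * (x j - b)))
      ((φ l - φ (l + 1)) * (x j - x i) - η * u)

/-- **The orders above** `i`: small rates of the place `c r`, the order `kt + 1` has few bits, the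
hops. -/
structure BoxH (m0 E i : ℕ) (εh : ℕ → ℝ) (dh : ℕ → ℝ → ℝ) {m : ℕ} (S : PCl m) (c : ℕ → Fin m)
    (r K kt : ℕ) (a b : ℝ) (sn : ℕ → ℝ → ℝ) (γ s : ℝ) {U : Type} (Qp : Qt m U) (x : ℕ → ℝ) (N : ℕ)
    (u η : ℝ) (θ : ℕ → ℕ → ℕ → ℝ) (φ : ℕ → ℝ) : Prop
    extends BoxD S c r K kt a b sn γ s Qp x N u η θ φ where
  deep : a * (m0 + 1) * (E * u) + s ≤ x 0 - b
  tu : kt + 1 ≤ K + 2 → ∀ n ≤ N, Fcx S (x n) Qp (qu m c r b sn (kt + 1)
    ((a - (kt + 1 : ℕ)) * (x n - b) + a * (m0 + 1) * (E * u) + s)) (η * u)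
  tn : kt + 1 ≤ K + 2 → ∀ n ≤ N, Fcx S (x n) Qp (qn m c r b sn γ (kt + 1)
    ((a - (kt + 1 : ℕ)) * (x n - b) + a * (m0 + 1) * (E * u))) (η * u)
  sm : ∀ l, i < l → l ≤ kt → φ l ≤ η
  hop : ∀ j, i < j → j ≤ kt → ∀ n, m0 * E ≤ n → n + E ≤ N → ∀ al : ℝ, 0 < al →
    HopB S c r K a b sn γ s Qp j (x (n - m0 * E)) (x n) (a * ((a - j) * (E * u) / a)) (εh j)
      ((a - j) * (E * u) / a) al (dh j al)

section

variable {m : ℕ} {S : PCl m} {c : ℕ → Fin m} {r K kt : ℕ} {a b : ℝ} {sn : ℕ → ℝ → ℝ} {γ s : ℝ}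
  {U : Type} {Qp : Qt m U} {x : ℕ → ℝ} {N : ℕ} {u η : ℝ} {θ : ℕ → ℕ → ℕ → ℝ} {φ : ℕ → ℝ}

theorem BoxD.df (B : BoxD S c r K kt a b sn γ s Qp x N u η θ φ) {n n' : ℕ} (h : n ≤ n')
    (h' : n' ≤ N) : x n' - x n = ((n' - n : ℕ) : ℝ) * u := by
  rw [B.xs n' h', B.xs n (h.trans h'), Nat.cast_sub h]
  ring

theorem BoxD.mn (B : BoxD S c r K kt a b sn γ s Qp x N u η θ φ) {n n' : ℕ} (h : n ≤ n')
    (h' : n' ≤ N) : x n ≤ x n' := by
  have h1 := B.df h h'
  have h2 : 0 ≤ ((n' - n : ℕ) : ℝ) * u := mul_nonneg (Nat.cast_nonneg _) B.u0.le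
  linarith

theorem BoxD.on (B : BoxD S c r K kt a b sn γ s Qp x N u η θ φ) {n : ℕ} (h : n ≤ N) :
    x n ≤ 1 := (B.mn h le_rfl).trans B.x1

/-- **The other orders at a step of order** `j`. -/
theorem step_fc (B : BoxD S c r K kt a b sn γ s Qp x N u η θ φ) {m0 E j n : ℕ} {T δ : ℝ}
    (ha : 0 < a) (hm0 : a + 1 ≤ m0) (hE : 1 ≤ E) (hη1 : η ≤ 1) (hηT : η ≤ T)
    (hn : m0 * E ≤ n) (hnN : n ≤ N)
    (hd : ∀ l, j < l → l ≤ K + 2 →
      Fcx S (x (n - m0 * E)) Qp (qu m c r b sn l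
        ((a - l) * (x (n - m0 * E) - b) + a * (m0 + 1) * (E * u) + s)) (T * u) ∧
      Fcx S (x (n - m0 * E)) Qp (qn m c r b sn γ l
        ((a - l) * (x (n - m0 * E) - b) + a * (m0 + 1) * (E * u))) (T * u))
    (hT : T * u < δ) :
    (∀ l ≤ K + 2, l ≠ j → F1x S (x n) Qp (qu m c r b sn l ((a - l) * (x (n - m0 * E) - b) +
      (a - j) * (x n - x (n - m0 * E)) + a * ((a - j) * (E * u) / a) + s)) δ) ∧
    (∀ l ≤ K + 2, l ≠ j → F1x S (x n) Qp (qn m c r b sn γ l ((a - l) * (x (n - m0 * E) - b) +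
      (a - j) * (x n - x (n - m0 * E)) + a * ((a - j) * (E * u) / a))) δ) ∧
    (∀ l, j < l → l ≤ K + 2 → F1x S (x (n - m0 * E)) Qp (qu m c r b sn l
      ((a - l) * (x (n - m0 * E) - b) +
      (a - j) * (x n - x (n - m0 * E)) + a * ((a - j) * (E * u) / a) + s)) δ) ∧
    (∀ l, j < l → l ≤ K + 2 → F1x S (x (n - m0 * E)) Qp (qn m c r b sn γ l
      ((a - l) * (x (n - m0 * E) - b) +
      (a - j) * (x n - x (n - m0 * E)) + a * ((a - j) * (E * u) / a))) δ) := by
  obtain ⟨C₀, htm⟩ := B.tm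
  have hu0 := B.u0
  obtain ⟨w, hw⟩ : ∃ w, w = x (n - m0 * E) := ⟨_, rfl⟩
  have hwt : x n - w = m0 * (E * u) := by
    rw [hw, B.df (Nat.sub_le _ _) hnN]
    have : n - (n - m0 * E) = m0 * E := by omega
    rw [this]
    push_cast
    ring
  have hwle : w ≤ x n := by
    rw [hw]
    exact B.mn (Nat.sub_le _ _) hnN
  have hE1 : (1 : ℝ) ≤ E := by exact_mod_cast hE
  have hEu : u ≤ E * u := by nlinarith
  have hEu0 : 0 < (E : ℝ) * u := by positivity
  have haq : a * ((a - j) * (E * u) / a) = (a - j) * (E * u) := by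
    field_simp
  have hs : s ≤ E * u := B.s1.trans ((mul_le_of_le_one_left hu0.le hη1).trans hEu)
  rw [← hw] at hd ⊢
  rw [haq]
  -- below
  have lo : ∀ l < j, (a - l) * (w - b) + (a - j) * (x n - w) + (a - j) * (E * u) + s ≤
      (a - l) * (x n - b) := by
    intro l hl
    have h1 : (l : ℝ) + 1 ≤ j := by exact_mod_cast hl
    have h2 : (a - l) * (x n - b) = (a - l) * (w - b) + (a - j) * (x n - w) +
        (j - l) * (x n - w) := by ring
    have h3 : (a + 1) * (E * u) ≤ (j - l) * (x n - w) := by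
      rw [hwt]
      have h4 : (a + 1) * (E * u) ≤ m0 * (E * u) := mul_le_mul_of_nonneg_right hm0 hEu0.le
      have h5 : 1 * (m0 * (E * u)) ≤ (j - l) * (m0 * (E * u)) :=
        mul_le_mul_of_nonneg_right (by linarith) (by positivity)
      linarith
    have h4 : (a - j) * (E * u) ≤ a * (E * u) :=
      mul_le_mul_of_nonneg_right (by linarith [(Nat.cast_nonneg j : (0 : ℝ) ≤ j)]) hEu0.le
    have h5 : (a + 1) * (E * u) = a * (E * u) + E * u := by ring
    linarith
  -- above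
  have up : ∀ l : ℕ, (a - l) * (w - b) + (a - j) * (x n - w) + (a - j) * (E * u) ≤
      (a - l) * (w - b) + a * (m0 + 1) * (E * u) := by
    intro l
    rw [hwt]
    have h4 : (a - j) * ((m0 + 1) * (E * u)) ≤ a * ((m0 + 1) * (E * u)) :=
      mul_le_mul_of_nonneg_right (by linarith [(Nat.cast_nonneg j : (0 : ℝ) ≤ j)])
        (by positivity)
    have h5 : (a - j) * ((m0 + 1) * (E * u)) = (a - j) * (m0 * (E * u)) + (a - j) * (E * u) := by
      ring
    have h6 : a * ((m0 + 1) * (E * u)) = a * (m0 + 1) * (E * u) := by ring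
    linarith
  have hηu : η * u < δ := (mul_le_mul_of_nonneg_right hηT hu0.le).trans_lt hT
  have du : ∀ l, j < l → l ≤ K + 2 → F1x S w Qp (qu m c r b sn l ((a - l) * (w - b) +
      (a - j) * (x n - w) + (a - j) * (E * u) + s)) δ := fun l hl hlK =>
    ((hd l hl hlK).1.dg htm (by linarith [up l]) le_rfl (c' := T * u)
      (le_of_eq (by ring)) : Fcx S w Qp (qu m c r b sn l ((a - l) * (w - b) +
      (a - j) * (x n - w) + (a - j) * (E * u) + s)) (T * u)).x hT
  have dn : ∀ l, j < l → l ≤ K + 2 → F1x S w Qp (qn m c r b sn γ l ((a - l) * (w - b) +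
      (a - j) * (x n - w) + (a - j) * (E * u))) δ := fun l hl hlK =>
    ((hd l hl hlK).2.dg htm (by linarith [up l]) le_rfl (c' := T * u)
      (le_of_eq (by ring)) : Fcx S w Qp (qn m c r b sn γ l ((a - l) * (w - b) +
      (a - j) * (x n - w) + (a - j) * (E * u))) (T * u)).x hT
  refine ⟨fun l hlK hlj => ?_, fun l hlK hlj => ?_, du, dn⟩
  · rcases Nat.lt_or_gt_of_ne hlj with h | h
    · exact (B.nu n hnN l hlK _ (lo l h)).x hηu
    · exact (du l h hlK).up hwle (B.on hnN)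
  · rcases Nat.lt_or_gt_of_ne hlj with h | h
    · exact (B.nn n hnN l hlK _ (by linarith [lo l h, B.s0])).x hηu
    · exact (dn l h hlK).up hwle (B.on hnN)

end

/-- **The hop at one window**: the number of one cell is small. -/
theorem hop_one {m0 E i j n : ℕ} {εh : ℕ → ℝ} {dh : ℕ → ℝ → ℝ} {m : ℕ} {S : PCl m} {c : ℕ → Fin m}
    {r K kt : ℕ} {a b : ℝ} {sn : ℕ → ℝ → ℝ} {γ s : ℝ}
    {U : Type} {Qp : Qt m U} {x : ℕ → ℝ} {N : ℕ} {u η : ℝ} {θ : ℕ → ℕ → ℕ → ℝ} {φ : ℕ → ℝ}
    (B : BoxH m0 E i εh dh S c r K kt a b sn γ s Qp x N u η θ φ) {T al : ℝ} (hal : 0 < al)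
    (hij : i < j) (hj : j ≤ kt) (hkK : kt ≤ K + 2) (ha : 0 < a) (hja : (j : ℝ) < a)
    (hm0 : a + 1 ≤ m0) (hE : 1 ≤ E)
    (hεE : 1 ≤ εh j * E) (hη0 : 0 ≤ η) (hη1 : η ≤ 1) (hηT : η ≤ T)
    (hn : m0 * E ≤ n) (hnN : n + E ≤ N)
    (hd : ∀ l, j < l → l ≤ K + 2 →
      Fcx S (x (n - m0 * E)) Qp (qu m c r b sn l
        ((a - l) * (x (n - m0 * E) - b) + a * (m0 + 1) * (E * u) + s)) (T * u) ∧
      Fcx S (x (n - m0 * E)) Qp (qn m c r b sn γ l
        ((a - l) * (x (n - m0 * E) - b) + a * (m0 + 1) * (E * u))) (T * u))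
    (hT : 16 * T ≤ dh j al * ((a - j) * E / a))
    (h1 : 16 * ((m0 + 1) * E + 3) * η ≤ dh j al * ((a - j) * E / a))
    (hδ : 0 < dh j al)
    (h2 : 6 * η ≤ al * ((a - j) * E / a)) :
    θ j n (n + 1) < 2 * (al * ((a - j) * E / a)) * u := by
  by_contra hcon
  rw [not_lt] at hcon
  obtain ⟨C₀, htm⟩ := B.tm
  have hu0 := B.u0
  have hE1 : (1 : ℝ) ≤ E := by exact_mod_cast hE
  have hnN' : n ≤ N := by omega
  have hm00 : (0 : ℝ) ≤ m0 := Nat.cast_nonneg _
  have hl2 : Real.log 2 ≤ 1 := by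
    have := Real.log_two_lt_d9
    linarith
  have hj1 : 1 ≤ j := by omega
  obtain ⟨Q, hQ⟩ : ∃ Q, Q = (a - j) * E / a := ⟨_, rfl⟩
  have hQ0 : 0 < Q := by
    rw [hQ]
    have : 0 < a - j := by linarith
    positivity
  have hq : (a - j) * (E * u) / a = Q * u := by
    rw [hQ]
    ring
  have haq : a * (Q * u) = (a - j) * (E * u) := by
    rw [hQ]
    field_simp
  obtain ⟨δ, hδE⟩ : ∃ δ, δ = dh j al := ⟨_, rfl⟩
  rw [← hδE, ← hQ] at hT h1
  rw [← hδE] at hδ
  rw [← hQ] at h2 hcon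
  have hQu : 0 < Q * u := by positivity
  have hδQ : 0 < δ * Q := by positivity
  have hTu : T * u < δ * (Q * u) / 8 := by
    have h3 : 16 * T * u ≤ δ * Q * u := mul_le_mul_of_nonneg_right hT hu0.le
    have h4 : δ * (Q * u) = δ * Q * u := by ring
    have h5 : 0 < δ * Q * u := by positivity
    rw [h4]
    linarith
  have H := step_fc B.toBoxD ha hm0 hE hη1 hηT hn hnN' hd hTu
  rw [hq] at H
  obtain ⟨f1, f2, -, f4⟩ := H
  have hwt : x n - x (n - m0 * E) = m0 * (E * u) := by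
    rw [B.df (Nat.sub_le _ _) hnN']
    have : n - (n - m0 * E) = m0 * E := by omega
    rw [this]
    push_cast
    ring
  have hto : x (n + E) - x n = E * u := by
    rw [B.df (Nat.le_add_right _ _) hnN, Nat.add_sub_cancel_left]
  have ht1 : x (n + 1) - x n = u := by
    rw [B.df (Nat.le_add_right _ _) (by omega), Nat.add_sub_cancel_left]
    simp
  have hu1 : 16 * ((m0 + 1) * E + 3) * η * u ≤ δ * (Q * u) := by
    have h3 := mul_le_mul_of_nonneg_right h1 hu0.le
    have h4 : δ * (Q * u) = δ * Q * u := by ring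
    rw [h4]
    exact h3
  have hηu : 0 ≤ η * u := by positivity
  have hslog : s * Real.log 2 ≤ η * u := by
    have := mul_le_mul B.s1 hl2 (Real.log_nonneg one_le_two) hηu
    linarith
  have hφ0 : φ j ≤ η := B.sm j hij hj
  -- the jet of order `j` of the place `c r` at the late window
  have hxo : (a - j) * (x (n + E) - b) = (a - j) * (x n - b) + a * (Q * u) := by
    rw [haq, ← hto]
    ring
  have k1 : Fcx S (x n) Qp (qu m c r b sn j ((a - j) * (x n - b) + a * (Q * u) + s))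
      ((E + 2) * (η * u)) := by
    have h3 := B.vf j hj1 hj n (n + E) (Nat.le_add_right _ _) hnN
    rw [hto, hxo] at h3
    refine h3.dg htm (g' := s) (by linarith) B.s0 ?_
    have h4 : φ j * (E * u) ≤ η * (E * u) := mul_le_mul_of_nonneg_right hφ0 (by positivity)
    have h5 : η * (E * u) = E * (η * u) := by ring
    linarith
  have kb : ∀ X : ℝ, X ≤ (m0 + 1) * E + 2 → X * (η * u) < δ * (Q * u) / 8 := by
    intro X hX
    have h3 : X * (η * u) ≤ ((m0 + 1) * E + 2) * (η * u) := mul_le_mul_of_nonneg_right hX hηu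
    have h4 : 16 * ((m0 + 1) * E + 3) * η * u = 16 * (((m0 + 1) * E + 2) * (η * u)) +
      16 * (η * u) := by ring
    have h5 : 0 < δ * (Q * u) := by positivity
    linarith
  have hEm : (E : ℝ) ≤ (m0 + 1) * E := by nlinarith
  have k1' : F1x S (x n) Qp (qu m c r b sn j ((a - j) * (x n - b) + a * (Q * u) + s))
      (δ * (Q * u) / 8) := k1.x (kb _ (by linarith))
  have k2 : F1x S (x (n - m0 * E)) Qp (qu m c r b sn j ((a - j) * (x n - b) + s))
      (δ * (Q * u) / 8) := by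
    have h3 := B.vf j hj1 hj (n - m0 * E) n (Nat.sub_le _ _) hnN'
    rw [hwt] at h3
    refine (h3.dg htm (g' := s) (c' := (m0 * E + 2) * (η * u)) (by linarith) B.s0 ?_ :
      Fcx S (x (n - m0 * E)) Qp (qu m c r b sn j ((a - j) * (x n - b) + s)) _).x
      (kb _ (by nlinarith))
    have h4 : φ j * (m0 * (E * u)) ≤ η * (m0 * (E * u)) :=
      mul_le_mul_of_nonneg_right hφ0 (by positivity)
    have h5 : η * (m0 * (E * u)) = m0 * E * (η * u) := by ring
    linarith
  have k3 : F1x S (x n) Qp (qn m c r b sn γ j ((a - j) * (x n - b))) (δ * (Q * u)) := by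
    refine (B.nn n hnN' j (by omega) _ le_rfl).x ?_
    have h3 := kb 1 (by nlinarith)
    linarith
  -- no look-ahead
  have k4 : Ipx S (x (n - m0 * E)) (x n) Qp
      (xg m c r b sn γ s j ((a - j) * (x n - b) + a * (Q * u)))
      (xg m c r b sn γ s j ((a - j) * (x n - b))) (δ * (Q * u) / 8) := by
    have h3 := B.ip j hj1 hj (n - m0 * E) n (n + E) (Nat.sub_le _ _) (Nat.le_add_right _ _) hnN
    rw [hxo] at h3
    refine h3.mono ?_
    have h3 := kb 1 (by nlinarith)
    linarith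
  -- alive
  have k5 : Alx S (x n) Qp (qn m c r b sn γ j ((a - j) * (x n - b) + εh j * (a * (Q * u))))
      (al * (Q * u)) := by
    have h3 := B.ra j hj1 hj n (n + 1) (Nat.le_add_right _ _) (by omega)
    have h4 := B.vf j hj1 hj n (n + 1) (Nat.le_add_right _ _) (by omega)
    rw [ht1] at h4
    have h5 : F1x S (x n) Qp (qu m c r b sn j ((a - j) * (x (n + 1) - b) + s))
        (4 * (η * u)) ∨ η = 0 := by
      rcases hη0.eq_or_lt with h | h
      · exact Or.inr h.symm
      · refine Or.inl (((h4.dg htm (g' := s) (c' := 3 * (η * u)) (by linarith) B.s0 ?_) :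
          Fcx S (x n) Qp (qu m c r b sn j ((a - j) * (x (n + 1) - b) + s)) _).x ?_)
        · have h6 : φ j * u ≤ η * u := mul_le_mul_of_nonneg_right hφ0 hu0.le
          linarith
        · have : 0 < η * u := by positivity
          linarith
    have h5' : F1x S (x n) Qp (qu m c r b sn j ((a - j) * (x (n + 1) - b) + s))
        (4 * (η * u) + al * (Q * u) / 8) := by
      rcases h5 with h5 | h5
      · exact h5.mono (by
          have : 0 < al * (Q * u) := by positivity
          linarith)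
      · refine ((h4.dg htm (g' := s) (c' := 3 * (η * u)) (by linarith) B.s0 ?_) :
          Fcx S (x n) Qp (qu m c r b sn j ((a - j) * (x (n + 1) - b) + s)) _).x ?_
        · have h6 : φ j * u ≤ η * u := mul_le_mul_of_nonneg_right hφ0 hu0.le
          linarith
        · have : 0 < al * (Q * u) := by positivity
          linarith
    have h6 := h3.snd htm h5' (B.exu j (by omega) _)
    refine h6.dg htm ?_ ?_
    · have h7 : (a - j) * u ≤ εh j * (a * (Q * u)) := by
        rw [haq]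
        have h8 : 0 ≤ (a - j) * u := mul_nonneg (by linarith) hu0.le
        have h9 := mul_le_mul_of_nonneg_right hεE h8
        have h10 : εh j * ((a - j) * (E * u)) = εh j * E * ((a - j) * u) := by ring
        linarith
      have h8 : (a - j) * (x (n + 1) - b) = (a - j) * (x n - b) + (a - j) * u := by
        rw [← ht1]
        ring
      rw [h8]
      linarith
    · have h7 := mul_le_mul_of_nonneg_right h2 hu0.le
      have h8 : al * Q * u = al * (Q * u) := by ring
      have h9 : 2 * (al * Q) * u = 2 * (al * (Q * u)) := by ring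
      have h10 : 0 < al * (Q * u) := by positivity
      have h11 : 6 * η * u = 6 * (η * u) := by ring
      linarith
  have hB := B.hop j hij hj n hn hnN al hal
  rw [hq, ← hδE] at hB
  refine hB (fun l hl => ?_) (fun l hl hlj => ?_) k3 (fun l hl hlK => f4 l hl hlK) k4 k1' k2 k5
  · by_cases hlj : l = j
    · subst hlj
      have e1 : (a - l) * (x (n - m0 * E) - b) + (a - l) * (x n - x (n - m0 * E)) + a * (Q * u) + s =
          (a - l) * (x n - b) + a * (Q * u) + s := by ring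
      rw [e1]
      exact k1'.mono (by linarith [mul_pos hδ hQu])
    · exact (f1 l hl hlj).mono (by linarith [mul_pos hδ hQu])
  · exact (f2 l hl hlj).mono (by linarith [mul_pos hδ hQu])

/-- **All orders above** `i` **are dead** away from the ends of the sub-box. -/
theorem dead_all {K kt m0 E M i : ℕ} {a : ℝ} {εh : ℕ → ℝ} {dh : ℕ → ℝ → ℝ} (ha : 0 < a)
    (hkt : (kt : ℝ) < a) (hka : a ≤ kt + 1) (hkK : kt ≤ K + 2) (hm0 : a + 1 ≤ m0) (hE : 1 ≤ E)
    (hεE : ∀ j, i < j → j ≤ kt → 1 ≤ εh j * E)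
    (hdh : ∀ j al, i < j → j ≤ kt → 0 < al → 0 < dh j al)
    (hM : a * (m0 + 1) * E ≤ (a - kt) * M) (n : ℕ) :
    ∀ T : ℝ, 0 < T → ∃ tol : ℝ, 0 < tol ∧
    ∀ {m : ℕ} {S : PCl m} {c : ℕ → Fin m} {r : ℕ} {b : ℝ} {sn : ℕ → ℝ → ℝ} {γ s : ℝ}
    {U : Type} {Qp : Qt m U} {x : ℕ → ℝ} {N : ℕ} {u η : ℝ} {θ : ℕ → ℕ → ℕ → ℝ} {φ : ℕ → ℝ},
    BoxH m0 E i εh dh S c r K kt a b sn γ s Qp x N u η θ φ → 0 ≤ η → η ≤ tol →
    ∀ l ≤ K + 2, i < l → kt + 1 ≤ l + n → ∀ p : ℕ, n * (m0 * E + M + E) ≤ p →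
    p + n * (m0 * E + M + E) ≤ N →
      Fcx S (x p) Qp (qu m c r b sn l ((a - l) * (x p - b) + a * (m0 + 1) * (E * u) + s))
        (T * u) ∧
      Fcx S (x p) Qp (qn m c r b sn γ l ((a - l) * (x p - b) + a * (m0 + 1) * (E * u)))
        (T * u) := by
  have hE1 : (1 : ℝ) ≤ E := by exact_mod_cast hE
  have hm00 : (0 : ℝ) ≤ m0 := Nat.cast_nonneg _
  induction n with
  | zero =>
    intro T hT
    refine ⟨T, hT, ?_⟩
    intro m S c r b sn γ s U Qp x N u η θ φ B hη0 hηT l hlK hil hl p hp hpN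
    have hu0 := B.u0
    have hηu : η * u ≤ T * u := mul_le_mul_of_nonneg_right hηT hu0.le
    rw [Nat.zero_mul, Nat.add_zero] at hpN
    rcases Nat.eq_or_lt_of_le (show kt + 1 ≤ l by omega) with h | h
    · subst h
      exact ⟨(B.tu hlK p hpN).mono hηu, (B.tn hlK p hpN).mono hηu⟩
    · have h1 : (kt : ℝ) + 2 ≤ l := by exact_mod_cast h
      have h2 : x 0 ≤ x p := B.mn (Nat.zero_le _) hpN
      have h3 := B.deep
      have h4 : 0 ≤ a * (m0 + 1) * (E * u) := by positivity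
      have h5 : 0 ≤ x p - b := by linarith [B.s0]
      have h6 : (a - l) * (x p - b) ≤ (-1) * (x p - b) :=
        mul_le_mul_of_nonneg_right (by linarith) h5
      exact ⟨(B.zu p hpN l hlK _ (by linarith)).mono hηu,
        (B.zn p hpN l hlK _ (by linarith [B.s0])).mono hηu⟩
  | succ n ih =>
    intro T hT
    by_cases hj : i < kt - n ∧ n < kt
    · obtain ⟨hij, hnk⟩ := hj
      obtain ⟨j, hjE⟩ : ∃ j, j = kt - n := ⟨_, rfl⟩
      rw [← hjE] at hij
      have hjk : j ≤ kt := by omega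
      have hjr : (j : ℝ) ≤ kt := by exact_mod_cast hjk
      have hja : (j : ℝ) < a := by linarith
      obtain ⟨Q, hQ⟩ : ∃ Q, Q = (a - j) * E / a := ⟨_, rfl⟩
      have hQ0 : 0 < Q := by
        rw [hQ]
        have : 0 < a - j := by linarith
        positivity
      have hM0 : (0 : ℝ) < M := by
        have h1 : 0 < a * (m0 + 1) * E := by positivity
        have h2 : 0 < (a - kt) * M := h1.trans_le hM
        have h3 : 0 < a - kt := by linarith
        exact (mul_pos_iff_of_pos_left h3).1 h2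
      have hM1 : 1 ≤ M := by exact_mod_cast hM0
      obtain ⟨al, hal⟩ : ∃ al, al = T / (4 * M * Q) := ⟨_, rfl⟩
      have hal0 : 0 < al := by
        rw [hal]
        positivity
      have halQ : M * (2 * (al * Q)) = T / 2 := by
        rw [hal]
        field_simp
        ring
      have hd0 := hdh j al hij hjk hal0
      obtain ⟨T', hT'⟩ : ∃ T', T' = min T (dh j al * Q / 16) := ⟨_, rfl⟩
      have hT'0 : 0 < T' := by
        rw [hT']
        positivity
      have hT'1 : T' ≤ T := by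
        rw [hT']
        exact min_le_left _ _
      have hT'2 : 16 * T' ≤ dh j al * Q := by
        have : T' ≤ dh j al * Q / 16 := by
          rw [hT']
          exact min_le_right _ _
        linarith
      obtain ⟨tol', htol', H⟩ := ih T' hT'0
      have hEE : (0 : ℝ) < 16 * ((m0 + 1) * E + 3) := by positivity
      refine ⟨min (min tol' 1) (min (min (T / (2 * M)) T')
        (min (dh j al * Q / (16 * ((m0 + 1) * E + 3))) (al * Q / 6))), by positivity, ?_⟩
      intro m S c r b sn γ s U Qp x N u η θ φ B hη0 hη l hlK hil hl p hp hpN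
      have g1 : η ≤ tol' := hη.trans ((min_le_left _ _).trans (min_le_left _ _))
      have g2 : η ≤ 1 := hη.trans ((min_le_left _ _).trans (min_le_right _ _))
      have g3 : η ≤ T / (2 * M) := hη.trans ((min_le_right _ _).trans ((min_le_left _ _).trans
        (min_le_left _ _)))
      have g4 : η ≤ T' := hη.trans ((min_le_right _ _).trans ((min_le_left _ _).trans
        (min_le_right _ _)))
      have g5 : η ≤ dh j al * Q / (16 * ((m0 + 1) * E + 3)) := hη.trans
        ((min_le_right _ _).trans ((min_le_right _ _).trans (min_le_left _ _)))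
      have g6 : η ≤ al * Q / 6 := hη.trans ((min_le_right _ _).trans ((min_le_right _ _).trans
        (min_le_right _ _)))
      rw [le_div_iff₀ hEE] at g5
      rw [le_div_iff₀ (by positivity)] at g3
      have hu0 := B.u0
      obtain ⟨C₀, htm⟩ := B.tm
      have IH := H B hη0 g1
      obtain ⟨Z, hZ⟩ : ∃ Z, Z = m0 * E + M + E := ⟨_, rfl⟩
      rw [← hZ] at IH hp hpN
      have hnZ : (n + 1) * Z = n * Z + Z := by ring
      rw [hnZ] at hp hpN
      have hTu : T' * u ≤ T * u := mul_le_mul_of_nonneg_right hT'1 hu0.le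
      rcases Nat.lt_or_ge (l + n) (kt + 1) with h | h
      · -- the order `j`
        obtain rfl : l = j := by omega
        have hone : ∀ p' : ℕ, n * Z + m0 * E ≤ p' → p' + n * Z + E ≤ N →
            θ l p' (p' + 1) < 2 * (al * Q) * u := by
          intro p' h1 h2
          rw [hQ] at hT'2 g5 g6 ⊢
          refine hop_one B hal0 hij hjk hkK ha hja hm0 hE (hεE l hij hjk) hη0 g2 g4 (by omega)
            (by omega) (fun l' h3 h4 => ?_) hT'2 (by linarith) hd0 (by linarith)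
          exact IH l' h4 (by omega) (by omega) (p' - m0 * E) (by omega) (by omega)
        have hall : ∀ k : ℕ, 1 ≤ k → k ≤ M → θ l p (p + k) ≤ k * ((2 * (al * Q) + η) * u) := by
          intro k hk
          induction k, hk using Nat.le_induction with
          | base =>
            intro _
            have h1 := hone p (by omega) (by omega)
            have h2 : 0 ≤ η * u := by positivity
            rw [Nat.cast_one, one_mul, add_mul]
            linarith
          | succ k hk ihk =>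
            intro hkM
            have h1 := ihk (by omega)
            have h2 := hone (p + k) (by omega) (by omega)
            have h3 := B.ad l (by omega) hjk p (p + k) (p + k + 1) (by omega) (by omega)
              (by omega)
            have h4 : ((k + 1 : ℕ) : ℝ) * ((2 * (al * Q) + η) * u) =
              k * ((2 * (al * Q) + η) * u) + 2 * (al * Q) * u + η * u := by
              push_cast
              ring
            rw [h4, show p + (k + 1) = p + k + 1 by omega]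
            linarith
        have hθ : θ l p (p + M) ≤ T * u := by
          refine (hall M hM1 le_rfl).trans ?_
          have h1 : (M : ℝ) * ((2 * (al * Q) + η) * u) = (M * (2 * (al * Q)) + η * M) * u := by
            ring
          rw [h1, halQ]
          refine mul_le_mul_of_nonneg_right ?_ hu0.le
          linarith
        have hF := B.rf l (by omega) hjk p (p + M) (by omega) (by omega)
        have hdx : x (p + M) - x p = M * u := by
          rw [B.df (Nat.le_add_right _ _) (by omega), Nat.add_sub_cancel_left]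
        have hdg : (a - l) * (x p - b) + a * (m0 + 1) * (E * u) ≤
            (a - l) * (x (p + M) - b) := by
          have h1 : (a - l) * (x (p + M) - b) = (a - l) * (x p - b) +
              (a - l) * (x (p + M) - x p) := by ring
          rw [h1, hdx]
          have h2 : (a - kt) * (M * u) ≤ (a - l) * (M * u) :=
            mul_le_mul_of_nonneg_right (by linarith) (by positivity)
          have h3 := mul_le_mul_of_nonneg_right hM hu0.le
          have h4 : (a - kt) * M * u = (a - kt) * (M * u) := by ring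
          have h5 : a * (m0 + 1) * E * u = a * (m0 + 1) * (E * u) := by ring
          linarith
        refine ⟨?_, ?_⟩
        · have h1 : Fcx S (x p) Qp (qu m c r b sn l ((a - l) * (x (p + M) - b) + s))
              (θ l p (p + M)) := fewC_fst (S := S) (f := fun J F => ptr F J) (g := vg (x p))
                (y := fun _ F => F.T) htm hF (B.exn l hlK _)
          exact h1.dg htm (g' := 0) (by linarith) le_rfl (by linarith)
        · have h1 : Fcx S (x p) Qp (qn m c r b sn γ l ((a - l) * (x (p + M) - b)))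
              (θ l p (p + M)) := fewC_snd (S := S) (f := fun J F => ptr F J) (g := vg (x p))
                (y := fun _ F => F.T) htm hF (B.exu l hlK _)
          exact h1.dg htm (g' := 0) (by linarith) le_rfl (by linarith)
      · have h1 := IH l hlK hil h p (by omega) (by omega)
        exact ⟨h1.1.mono hTu, h1.2.mono hTu⟩
    · obtain ⟨tol, htol, H⟩ := ih T hT
      refine ⟨tol, htol, ?_⟩
      intro m S c r b sn γ s U Qp x N u η θ φ B hη0 hη l hlK hil hl p hp hpN
      have hnZ : (n + 1) * (m0 * E + M + E) = n * (m0 * E + M + E) + (m0 * E + M + E) := by ring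
      rw [hnZ] at hp hpN
      exact H B hη0 hη l hlK hil (by omega) p (by omega) (by omega)

/-- **The sub-box is impossible**: the jet of order `i` of the place `c r` is alive, the ones of the
orders above have small rates; hops and the tie. -/
theorem box_false {K kt m0 E M i : ℕ} {a : ℝ} {εh : ℕ → ℝ} {dh : ℕ → ℝ → ℝ} {εt : ℝ} {dt : ℝ → ℝ}
    (ha : 0 < a) (hkt : (kt : ℝ) < a) (hka : a ≤ kt + 1) (hkK : kt ≤ K + 2) (hm0 : a + 1 ≤ m0)
    (hE : 1 ≤ E) (hεE : ∀ j, i < j → j ≤ kt → 1 ≤ εh j * E)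
    (hdh : ∀ j al, i < j → j ≤ kt → 0 < al → 0 < dh j al)
    (hM : a * (m0 + 1) * E ≤ (a - kt) * M) (hi : 1 ≤ i) (hik : i ≤ kt) (hεt : 1 ≤ εt * E)
    (hdt : ∀ al : ℝ, 0 < al → 0 < dt al) (κ : ℝ) (hκ : 0 < κ) :
    ∃ tol : ℝ, 0 < tol ∧
    ∀ {m : ℕ} {S : PCl m} {c : ℕ → Fin m} {r : ℕ} {b : ℝ} {sn : ℕ → ℝ → ℝ} {γ s : ℝ}
    {U : Type} {Qp : Qt m U} {x : ℕ → ℝ} {N : ℕ} {u η : ℝ} {θ : ℕ → ℕ → ℕ → ℝ} {φ : ℕ → ℝ},
    BoxH m0 E i εh dh S c r K kt a b sn γ s Qp x N u η θ φ → 0 ≤ η → η ≤ tol →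
    κ ≤ φ i - φ (i + 1) → (2 * kt + 1) * (m0 * E + M + E) ≤ N →
    (∀ n, m0 * E ≤ n → n + E ≤ N → ∀ al : ℝ, 0 < al →
      TieB S c r K a b sn γ s Qp i (x (n - m0 * E)) (x n) (a * ((a - i) * (E * u) / a)) εt
        ((a - i) * (E * u) / a) al (dt al)) → False := by
  have hE1 : (1 : ℝ) ≤ E := by exact_mod_cast hE
  have hm00 : (0 : ℝ) ≤ m0 := Nat.cast_nonneg _
  have hir : (i : ℝ) ≤ kt := by exact_mod_cast hik
  have hia : (i : ℝ) < a := by linarith
  obtain ⟨Q, hQ⟩ : ∃ Q, Q = (a - i) * E / a := ⟨_, rfl⟩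
  have hQ0 : 0 < Q := by
    rw [hQ]
    have : 0 < a - i := by linarith
    positivity
  obtain ⟨al, hal⟩ : ∃ al, al = κ / (2 * Q) := ⟨_, rfl⟩
  have hal0 : 0 < al := by
    rw [hal]
    positivity
  have halQ : al * Q = κ / 2 := by
    rw [hal]
    field_simp
  have hd0 := hdt al hal0
  obtain ⟨T, hT⟩ : ∃ T, T = dt al * Q / 16 := ⟨_, rfl⟩
  have hT0 : 0 < T := by
    rw [hT]
    positivity
  obtain ⟨tol, htol, H⟩ := dead_all (K := K) (εh := εh) (dh := dh) (i := i) ha hkt hka hkK hm0 hE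
    hεE hdh hM (kt - i) T hT0
  refine ⟨min (min tol 1) (min (T / 2) (κ / 4)), by positivity, ?_⟩
  intro m S c r b sn γ s U Qp x N u η θ φ B hη0 hη hφ hN hTie
  have g1 : η ≤ tol := hη.trans ((min_le_left _ _).trans (min_le_left _ _))
  have g2 : η ≤ 1 := hη.trans ((min_le_left _ _).trans (min_le_right _ _))
  have g3 : η ≤ T / 2 := hη.trans ((min_le_right _ _).trans (min_le_left _ _))
  have g4 : η ≤ κ / 4 := hη.trans ((min_le_right _ _).trans (min_le_right _ _))
  have hu0 := B.u0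
  obtain ⟨C₀, htm⟩ := B.tm
  obtain ⟨Z, hZ⟩ : ∃ Z, Z = m0 * E + M + E := ⟨_, rfl⟩
  have H := H B hη0 g1
  rw [← hZ] at hN H
  have hl2 : Real.log 2 ≤ 1 := by
    have := Real.log_two_lt_d9
    linarith
  have hNZ : 2 * ((kt - i) * Z) + Z ≤ N := by
    refine le_trans ?_ hN
    have h1 : (kt - i) * Z ≤ kt * Z := Nat.mul_le_mul_right _ (Nat.sub_le _ _)
    have h2 : (2 * kt + 1) * Z = 2 * (kt * Z) + Z := by ring
    omega
  obtain ⟨n, hn⟩ : ∃ n, n = (kt - i) * Z + m0 * E := ⟨_, rfl⟩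
  have hn1 : m0 * E ≤ n := by omega
  have hn2 : n + E ≤ N := by omega
  have hnN' : n ≤ N := by omega
  have hdd : ∀ l, i < l → l ≤ K + 2 →
      Fcx S (x (n - m0 * E)) Qp (qu m c r b sn l
        ((a - l) * (x (n - m0 * E) - b) + a * (m0 + 1) * (E * u) + s)) (T * u) ∧
      Fcx S (x (n - m0 * E)) Qp (qn m c r b sn γ l
        ((a - l) * (x (n - m0 * E) - b) + a * (m0 + 1) * (E * u))) (T * u) := fun l hl hlK =>
    H l hlK hl (by omega) _ (by omega) (by omega)
  obtain ⟨δ, hδE⟩ : ∃ δ, δ = dt al := ⟨_, rfl⟩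
  rw [← hδE] at hT hd0
  have hq : (a - i) * (E * u) / a = Q * u := by
    rw [hQ]
    ring
  have haq : a * (Q * u) = (a - i) * (E * u) := by
    rw [hQ]
    field_simp
  have hQu : 0 < Q * u := by positivity
  have hδQ : 0 < δ * (Q * u) := by positivity
  have hTu : T * u < δ * (Q * u) / 8 := by
    rw [hT]
    have h3 : δ * Q / 16 * u = δ * (Q * u) / 16 := by ring
    rw [h3]
    linarith
  have hηu : 0 ≤ η * u := by positivity
  have hηT : η * u ≤ T * u / 2 := by
    have := mul_le_mul_of_nonneg_right g3 hu0.le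
    linarith
  have hslog : s * Real.log 2 ≤ η * u := by
    have := mul_le_mul B.s1 hl2 (Real.log_nonneg one_le_two) hηu
    linarith
  have F := step_fc B.toBoxD ha hm0 hE g2 (by linarith) hn1 hnN' hdd hTu
  rw [hq] at F
  obtain ⟨f1, f2, f3, f4⟩ := F
  have ht1 : x (n + 1) - x n = u := by
    rw [B.df (Nat.le_add_right _ _) (by omega), Nat.add_sub_cancel_left]
    simp
  have hto : x (n + E) - x n = E * u := by
    rw [B.df (Nat.le_add_right _ _) hn2, Nat.add_sub_cancel_left]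
  have hxo : (a - i) * (x (n + E) - b) = (a - i) * (x n - b) + a * (Q * u) := by
    rw [haq, ← hto]
    ring
  have hB := hTie n hn1 hn2 al hal0
  rw [hq, ← hδE] at hB
  refine hB (fun l hl hlj => (f1 l hl hlj).mono (by linarith)) ?_
    (fun l hl hlj => (f2 l hl hlj).mono (by linarith)) ?_ (fun l hl hlK => f3 l hl hlK)
    (fun l hl hlK => f4 l hl hlK) ?_ ?_
  · refine ((B.nu n hnN' i (by omega) _ le_rfl).dg htm (g' := s) (c' := 2 * (η * u)) (by linarith)
      B.s0 (by linarith) : Fcx S (x n) Qp (qu m c r b sn i ((a - i) * (x n - b) + s)) _).x ?_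
    linarith
  · exact (B.nn n hnN' i (by omega) _ le_rfl).x (by linarith)
  · have h3 := B.ip i hi hik (n - m0 * E) n (n + E) (Nat.sub_le _ _) (Nat.le_add_right _ _) hn2
    rw [hxo] at h3
    exact h3.mono (by linarith)
  · have h3 := B.va i hi hik n (n + 1) (Nat.le_add_right _ _) (by omega)
    rw [ht1] at h3
    refine h3.dg htm ?_ ?_
    · have h7 : (a - i) * u ≤ εt * (a * (Q * u)) := by
        rw [haq]
        have h8 : 0 ≤ (a - i) * u := mul_nonneg (by linarith) hu0.le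
        have h9 := mul_le_mul_of_nonneg_right hεt h8
        have h10 : εt * ((a - i) * (E * u)) = εt * E * ((a - i) * u) := by ring
        linarith
      have h8 : (a - i) * (x (n + 1) - b) = (a - i) * (x n - b) + (a - i) * u := by
        rw [← ht1]
        ring
      rw [h8]
      linarith [B.s0]
    · have h7 := mul_le_mul_of_nonneg_right hφ hu0.le
      have h8 := mul_le_mul_of_nonneg_right g4 hu0.le
      have h9 : al * (Q * u) = κ / 2 * u := by
        rw [← halQ]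
        ring
      rw [h9]
      have h10 : 0 < κ * u := by positivity
      linarith

end Pool.AB63
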