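import Pool.Agent.H63.AB.Fme
import Pool.Agent.H46.TE.Hrb
import Pool.Agent.H92.GN.Prod

/-!
# From the class to the members of a family

`fw2_of_f1`: few bits for the members from few bits in the class. `AlF`: alive in the class.
`NpF`: the near path of a family. `ch_of_f1`, `hi2_of`, `hi1_of`: few bits at the window of the family.
`IpF`, `ip3_of_ipf`, `ip1_of_ip3`: the record does not see more.
-/

set_option autoImplicit false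

namespace Pool.AB63

open Finset Real MvPolynomial
open Pool.Agent.H49.Ent Pool.Agent.H32.Dense Pool.STK Pool.KA Pool.KSAT Pool.K2S Pool.PB Pool.GEN
open Pool.S6C Pool.RCD Pool.LA91 Pool.OWN68 Pool.AJW Pool.AJX Pool.CHT Pool.PN18 Pool.LPK12
open Pool.TE46
open Pool.GRD (LbP)

variable {m : ℕ}

section gen

variable {S : PCl m} {α γ : ∀ J : ℕ, Fam m J → Type}
  {f : ∀ (J : ℕ) (F : Fam m J), F.Ω → α J F} {y : ∀ (J : ℕ) (F : Fam m J), F.Ω → γ J F} {a w : ℝ}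
  {U₀ U₁ U₂ U : Type} {Qu : Qt m U₀} {Qp : Qt m U} {Q' : Qt m U₁} {Ψ : Fm2 m} {e : ℝ}

/-- **Few bits for the members of a family.** -/
theorem fw2_of_f1 {X : ∀ (J : ℕ) (F : Fam m J) (V C : Type), (LnT F → V) →
      (V → MvPolynomial (Option (Fin m)) ℝ) → (V → MvPolynomial (Option (Fin m)) ℝ) →
      (LnT F → C) → F.Ω → U₁} {δ : ℝ}
    (h : F1 S f (vg a) y Qu Q' e δ)
    (hX : ∃ M J₁ : ℕ, ∀ J ≥ J₁, ∀ (F : Fam m J) (A : F.Ω → Prop) (V C : Type) (z : PtT F → V)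
      (z' : LnT F → V) (G₁ G₂ : V → MvPolynomial (Option (Fin m)) ℝ) (c : LnT F → C),
      Ψ J F A V C z z' G₁ G₂ c → Q'.P M e J F A (X J F V C z' G₁ G₂ c)) :
    Fw2 S f a y Qu Ψ (τ := fun _ _ _ _ => U₁) X e δ := by
  obtain ⟨M, J₁, hX⟩ := hX
  intro K₀
  refine Bas.mono J₁ (h (max K₀ M)) ?_
  intro J hJ F A h V C z z' G₁ G₂ c hc u₀ hu₀
  exact h u₀ _ (Qu.mono (le_max_left _ _) le_rfl hu₀)
    (Q'.mono (le_max_right _ _) le_rfl (hX J hJ F A V C z z' G₁ G₂ c hc))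

/-- **Alive**: a natural quantity has at least `β J` bits given another one and every closed
record. -/
def AlF (S : PCl m) (f : ∀ (J : ℕ) (F : Fam m J), F.Ω → α J F) (a : ℝ)
    (y : ∀ (J : ℕ) (F : Fam m J), F.Ω → γ J F) (Qu : Qt m U₀) (Q' : Qt m U₁) (e β : ℝ) : Prop :=
  ∀ K : ℕ, Bas S (fun J F A => ∀ u u', Qu.P K e J F A u → Q'.P K e J F A u' →
    ∀ (V : Type) (z : F.Ω → V), Cl2 (f J F) (vg a J F) A z →
      β * J ≤ CH (Pool.Agent.H49.Ent.cond F.p A True) u' (fun ω => (u ω, (z ω, y J F ω))))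

theorem AlF.mono {e' β β' : ℝ} (h : AlF S f a y Qu Q' e β) (he : e' ≤ e) (hβ : β' ≤ β) :
    AlF S f a y Qu Q' e' β' := by
  intro K
  refine Bas.mono 0 (h K) ?_
  intro J _ F A h u u' hu hu' V z hz
  exact (mul_le_mul_of_nonneg_right hβ (Nat.cast_nonneg J)).trans
    (h u u' (Qu.mono le_rfl he hu) (Q'.mono le_rfl he hu') V z hz)

theorem AlF.sub {S' : PCl m} (hs : ∀ (τ : ℝ) (J : ℕ) (F : Fam m J) (A : F.Ω → Prop),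
    S'.St τ J F A → S.St τ J F A) {β : ℝ} (h : AlF S f a y Qu Q' e β) :
    AlF S' f a y Qu Q' e β := fun K => (h K).sub hs

/-- **The near path of a family**: a natural quantity which is few bits given the labels, the
context and the time. -/
def NpF (S : PCl m) (Ψ : Fm2 m) (w : ℝ) (Qp : Qt m U) (e δ : ℝ) : Prop :=
  ∃ K₁ : ℕ, Bas S (fun J F A => ∀ (V C : Type) (z : PtT F → V) (z' : LnT F → V)
    (G₁ G₂ : V → MvPolynomial (Option (Fin m)) ℝ) (cc : LnT F → C), Ψ J F A V C z z' G₁ G₂ cc →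
    ∃ pa : F.Ω → U, Qp.P K₁ e J F A pa ∧ CH (Pool.Agent.H49.Ent.cond F.p A True) pa
      (fun ω => (z' (slam F ⌊w * J⌋₊ ω), (cc (slam F ⌊w * J⌋₊ ω), F.W ω))) ≤ δ * J)

/-- **Few bits given the labels, the context and the time**, if the code is maximal. -/
theorem ch_of_f1 {C₀ : ℝ} (htm : TmC S C₀) {X : ∀ (J : ℕ) (F : Fam m J) (V C : Type), (LnT F → V) →
      (V → MvPolynomial (Option (Fin m)) ℝ) → (V → MvPolynomial (Option (Fin m)) ℝ) →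
      (LnT F → C) → F.Ω → U₁} {k δ₁ δ₂ δ : ℝ} (hp : NpF S Ψ w Qp e δ₁)
    (h : F1 S (fun J F => ptr F J) (vg w) (fun _ F => F.T) Qp Q' e δ₂)
    (hX : ∃ M J₁ : ℕ, ∀ J ≥ J₁, ∀ (F : Fam m J) (A : F.Ω → Prop) (V C : Type) (z : PtT F → V)
      (z' : LnT F → V) (G₁ G₂ : V → MvPolynomial (Option (Fin m)) ℝ) (c : LnT F → C),
      Ψ J F A V C z z' G₁ G₂ c → Q'.P M e J F A (X J F V C z' G₁ G₂ c))
    (hδ : δ₁ + δ₂ + k ≤ δ) :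
    Bas S (fun J F A => ∀ (V C : Type) (z : PtT F → V) (z' : LnT F → V)
      (G₁ G₂ : V → MvPolynomial (Option (Fin m)) ℝ) (cc : LnT F → C),
      FmM Ψ w k J F A V C z z' G₁ G₂ cc →
      CH (Pool.Agent.H49.Ent.cond F.p A True) (X J F V C z' G₁ G₂ cc)
        (fun ω => (z' (slam F ⌊w * J⌋₊ ω), (cc (slam F ⌊w * J⌋₊ ω), F.W ω))) ≤ δ * J) := by
  obtain ⟨M, J₁, hX⟩ := hX
  obtain ⟨K₁, hp⟩ := hp
  refine Bas.mono J₁ ((hp.and (h (max K₁ M))).and (Pool.GRW.tmc_bas htm one_pos)) ?_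
  rintro J hJ F A ⟨⟨hp, h⟩, hA, -⟩ V C z z' G₁ G₂ cc hcc
  obtain ⟨pa, hpa, hpaC⟩ := hp V C z z' G₁ G₂ cc hcc.1
  obtain ⟨V₁, z₁, hz₁, hC⟩ := h pa _ (Qp.mono (le_max_left _ _) le_rfl hpa)
    (Q'.mono (le_max_right _ _) le_rfl (hX J hJ F A V C z z' G₁ G₂ cc hcc.1))
  have h0 := (isLaw_cond F.isLaw hA).nonneg
  have hk := hcc.2.2 V₁ z₁ hz₁
  have hJ0 : (0 : ℝ) ≤ J := Nat.cast_nonneg J
  obtain ⟨Lc, hLc⟩ : ∃ Lc : F.Ω → V × (C × (ℕ × F.ζ)), Lc = fun ω =>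
      (z' (slam F ⌊w * J⌋₊ ω), (cc (slam F ⌊w * J⌋₊ ω), F.W ω)) := ⟨_, rfl⟩
  rw [← hLc] at hpaC ⊢
  have b1 := CH_le_add h0 (X J F V C z' G₁ G₂ cc) pa Lc
  have b2 := CH_le_add h0 (X J F V C z' G₁ G₂ cc) z₁ (fun ω => (pa ω, Lc ω))
  have b3 : CH (Pool.Agent.H49.Ent.cond F.p A True) z₁ (fun ω => (pa ω, Lc ω)) ≤
      CH (Pool.Agent.H49.Ent.cond F.p A True) z₁ (fun ω => z' (slam F ⌊w * J⌋₊ ω)) := by
    refine CH_mono_cond h0 fun ω ω' _ _ hh => ?_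
    rw [hLc] at hh
    exact (Prod.ext_iff.mp (Prod.ext_iff.mp hh).2).1
  have b4 : CH (Pool.Agent.H49.Ent.cond F.p A True) (X J F V C z' G₁ G₂ cc)
      (fun ω => (z₁ ω, (pa ω, Lc ω))) ≤ CH (Pool.Agent.H49.Ent.cond F.p A True)
      (X J F V C z' G₁ G₂ cc) (fun ω => (pa ω, (z₁ ω, F.T ω))) := by
    refine CH_mono_cond h0 fun ω ω' _ _ hh => ?_
    obtain ⟨e1, e2⟩ := Prod.ext_iff.mp hh
    obtain ⟨e3, e4⟩ := Prod.ext_iff.mp e2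
    dsimp only at e1 e3 e4
    rw [hLc] at e4
    have e5 : F.W ω = F.W ω' := (Prod.ext_iff.mp (Prod.ext_iff.mp e4).2).2
    exact Prod.ext e3 (Prod.ext e1 (Prod.ext_iff.mp e5).1)
  have c1 := mul_le_mul_of_nonneg_right hδ hJ0
  linarith

/-- **The record does not see more** of a quantity than the closed codes of an earlier window, given
a part of it. -/
def IpF (S : PCl m) (f : ∀ (J : ℕ) (F : Fam m J), F.Ω → α J F) (w a : ℝ)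
    (y : ∀ (J : ℕ) (F : Fam m J), F.Ω → γ J F) (Qp : Qt m U) (Xo : Qt m U₁) (Xt : Qt m U₂)
    (e k κ : ℝ) : Prop :=
  ∀ K : ℕ, Bas S (fun J F A => ∀ (V : Type) (z : F.Ω → V), Mx f (vg w) k F A z →
    ∀ (V₁ : Type) (z₁ : F.Ω → V₁), Cl2 (f J F) (vg a J F) A z₁ →
    ∀ pa uo ut, Qp.P K e J F A pa → Xo.P K e J F A uo → Xt.P K e J F A ut →
      CH (Pool.Agent.H49.Ent.cond F.p A True) uo
        (fun ω => (ut ω, (pa ω, (z ω, y J F ω)))) ≤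
      CH (Pool.Agent.H49.Ent.cond F.p A True) uo (fun ω => (pa ω, (z₁ ω, y J F ω))) + κ * J)

/-- **(I')** for the family with maximal codes. -/
theorem ip3_of_ipf {C₀ : ℝ} (htm : TmC S C₀) {κ₁ κ₂ : Fin m} {p₁ p₂ αq : ℝ} {i : ℕ}
    {Xo Xt : Qt m (ℤ × ℤ)} {k κ δ₁ δ₂ δ₃ δ : ℝ} (hwa : w ≤ a) (ha : a ≤ 1)
    (hcl : ∀ (J : ℕ) (F : Fam m J) (A : F.Ω → Prop) (V C : Type) (z : PtT F → V) (z' : LnT F → V)
      (G₁ G₂ : V → MvPolynomial (Option (Fin m)) ℝ) (c : LnT F → C), Ψ J F A V C z z' G₁ G₂ c →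
      ∀ ω, A ω → z (ptr F J ω) = z' (slam F ⌊w * J⌋₊ ω))
    (hp : NpF S Ψ w Qp e δ₁)
    (hI : IpF S (fun J F => ptr F J) w a (fun _ F => F.T) Qp Xo Xt e k κ)
    (hXo : ∃ M J₁ : ℕ, ∀ J ≥ J₁, ∀ (F : Fam m J) (A : F.Ω → Prop) (V C : Type) (z : PtT F → V)
      (z' : LnT F → V) (G₁ G₂ : V → MvPolynomial (Option (Fin m)) ℝ) (c : LnT F → C),
      Ψ J F A V C z z' G₁ G₂ c → Xo.P M e J F A
        (fun ω => (oj F κ₁ z' G₁ ⌊w * J⌋₊ (p₁ + αq - i * w) i ω,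
          oj F κ₂ z' G₂ ⌊w * J⌋₊ (p₂ + αq - i * w) i ω)))
    (hXt : ∃ M J₁ : ℕ, ∀ J ≥ J₁, ∀ (F : Fam m J) (A : F.Ω → Prop) (V C : Type) (z : PtT F → V)
      (z' : LnT F → V) (G₁ G₂ : V → MvPolynomial (Option (Fin m)) ℝ) (c : LnT F → C),
      Ψ J F A V C z z' G₁ G₂ c → Xt.P M e J F A
        (fun ω => (oj F κ₁ z' G₁ ⌊w * J⌋₊ (p₁ - i * w) i ω,
          oj F κ₂ z' G₂ ⌊w * J⌋₊ (p₂ - i * w) i ω)))
    (hC : Fw2 S (fun J F => ptr F J) a (fun _ F => F.T) Qu Ψ (τ := fun _ _ _ C => C)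
      (fun J F _ _ _ _ _ c ω => c (vg w J F ω)) e δ₂)
    (hU : F1 S (fun J F => ptr F J) (vg a) (fun _ F => F.T) Qp Qu e δ₃)
    (hδ : κ + δ₁ + δ₂ + δ₃ ≤ δ) :
    Ip3 S (fun J F => ptr F J) a (fun _ F => F.T) Qu (FmM Ψ w k) κ₁ κ₂ w p₁ p₂ αq i e δ := by
  obtain ⟨K₁, hp⟩ := hp
  obtain ⟨M₁, J₁, hXo⟩ := hXo
  obtain ⟨M₂, J₂, hXt⟩ := hXt
  intro K₀
  obtain ⟨K, hK⟩ : ∃ K : ℕ, K = max (max K₀ K₁) (max M₁ M₂) := ⟨_, rfl⟩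
  have k0 : K₀ ≤ K := by rw [hK]; exact (le_max_left _ _).trans (le_max_left _ _)
  have k1 : K₁ ≤ K := by rw [hK]; exact (le_max_right _ _).trans (le_max_left _ _)
  have k2 : M₁ ≤ K := by rw [hK]; exact (le_max_left _ _).trans (le_max_right _ _)
  have k3 : M₂ ≤ K := by rw [hK]; exact (le_max_right _ _).trans (le_max_right _ _)
  refine Bas.mono (max J₁ J₂) (((hp.and (hI K)).and ((hC K₀).and (hU K))).and
    (Pool.GRW.tmc_bas htm one_pos)) ?_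
  rintro J hJ F A ⟨⟨⟨hp, hI⟩, hC, hU⟩, hA, -⟩ V C z z' G₁ G₂ c hcx u₀ hu₀ V₁ z₁ hz₁
  have hcΨ := hcx.1
  have hMx := hcx.2
  have hcls := hcl J F A V C z z' G₁ G₂ c hcΨ
  obtain ⟨pa, hpa, hpaC⟩ := hp V C z z' G₁ G₂ c hcΨ
  obtain ⟨Vc, zc, hzc, hzC⟩ := hC V C z z' G₁ G₂ c hcΨ u₀ hu₀
  obtain ⟨Vu, zu, hzu, hzU⟩ := hU pa u₀ (Qp.mono k1 le_rfl hpa) (Qu.mono k0 le_rfl hu₀)
  have xo := Xo.mono k2 le_rfl (hXo J ((le_max_left _ _).trans hJ) F A V C z z' G₁ G₂ c hcΨ)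
  have xt := Xt.mono k3 le_rfl (hXt J ((le_max_right _ _).trans hJ) F A V C z z' G₁ G₂ c hcΨ)
  obtain ⟨q, hq⟩ : ∃ q : F.Ω → ℝ, q = Pool.Agent.H49.Ent.cond F.p A True := ⟨_, rfl⟩
  have hql : IsLaw q := by
    rw [hq]
    exact isLaw_cond F.isLaw hA
  have h0 := hql.nonneg
  have hJ0 : (0 : ℝ) ≤ J := Nat.cast_nonneg J
  obtain ⟨W, hW⟩ : ∃ W : ℕ, W = ⌊w * J⌋₊ := ⟨_, rfl⟩
  have hvg : ∀ ω, vg w J F ω = slam F W ω := fun ω => by rw [hW]; rfl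
  simp only [hvg] at hzC
  obtain ⟨φg, hφg⟩ := vg_mono hwa ha J F
  have b1 : Cl2 (ptr F J) (vg a J F) A (fun ω => z' (slam F W ω)) := by
    refine ⟨⟨z, fun ω hω => ?_⟩, ⟨fun x => z' (φg x), fun ω _ => ?_⟩⟩
    · rw [hW]
      exact (hcls ω hω).symm
    · dsimp only
      rw [← hφg ω, hvg ω]
  rw [← hW] at hpaC xo xt hMx ⊢
  obtain ⟨Bj, hBj⟩ : ∃ Bj : F.Ω → V × (V₁ × (Vc × Vu)), Bj = fun ω => (z' (slam F W ω),
    (z₁ ω, (zc ω, zu ω))) := ⟨_, rfl⟩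
  have hBc : Cl2 (ptr F J) (vg a J F) A Bj := by
    rw [hBj]
    exact b1.join (hz₁.join (hzc.join hzu))
  have hmain := hI V _ hMx _ Bj hBc pa _ _ (Qp.mono k1 le_rfl hpa) xo xt
  rw [← hq] at hpaC hzC hzU hmain ⊢
  obtain ⟨X, hX⟩ : ∃ X : F.Ω → ℤ × ℤ, X = fun ω => (oj F κ₁ z' G₁ W (p₁ + αq - i * w) i ω,
    oj F κ₂ z' G₂ W (p₂ + αq - i * w) i ω) := ⟨_, rfl⟩
  obtain ⟨Mt, hMt⟩ : ∃ Mt : F.Ω → ℤ × ℤ, Mt = fun ω => (oj F κ₁ z' G₁ W (p₁ - i * w) i ω,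
    oj F κ₂ z' G₂ W (p₂ - i * w) i ω) := ⟨_, rfl⟩
  obtain ⟨Lc, hLc⟩ : ∃ Lc : F.Ω → V × (C × (ℕ × F.ζ)), Lc = fun ω => (z' (slam F W ω),
    (c (slam F W ω), F.W ω)) := ⟨_, rfl⟩
  obtain ⟨Ry, hRy⟩ : ∃ Ry : F.Ω → U × ((V × (V₁ × (Vc × Vu))) × ℕ), Ry = fun ω =>
    (pa ω, (Bj ω, F.T ω)) := ⟨_, rfl⟩
  obtain ⟨E, hE⟩ : ∃ E : F.Ω → (V × C) × (U₀ × (V₁ × ℕ)), E = fun ω =>
    ((z' (slam F W ω), c (slam F W ω)), (u₀ ω, (z₁ ω, F.T ω))) := ⟨_, rfl⟩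
  have a3 : CH q pa (fun ω => (Mt ω, Lc ω)) ≤ δ₁ * J := by
    refine (CH_mono_cond h0 fun ω ω' _ _ hh => ?_).trans hpaC
    have := (Prod.ext_iff.mp hh).2
    rw [hLc] at this
    exact this
  have a6 := CH_le_add h0 X pa (fun ω => (Mt ω, Lc ω))
  have a7 : CH q X (fun ω => (pa ω, (Mt ω, Lc ω))) ≤
      CH q X (fun ω => (Mt ω, (pa ω, (z' (slam F W ω), F.T ω)))) := by
    refine CH_mono_cond h0 fun ω ω' _ _ hh => ?_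
    obtain ⟨e1, e2⟩ := Prod.ext_iff.mp hh
    obtain ⟨e3, e4⟩ := Prod.ext_iff.mp e2
    dsimp only at e1 e3 e4
    rw [hLc] at e4
    have e5 : z' (slam F W ω) = z' (slam F W ω') := (Prod.ext_iff.mp e4).1
    have e6 : F.W ω = F.W ω' := (Prod.ext_iff.mp (Prod.ext_iff.mp e4).2).2
    exact Prod.ext e3 (Prod.ext e1 (Prod.ext e5 (Prod.ext_iff.mp e6).1))
  have a8 : CH q X (fun ω => (Mt ω, (pa ω, (z' (slam F W ω), F.T ω)))) ≤ CH q X Ry + κ * J := by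
    rw [hX, hMt, hRy]
    exact hmain
  have b4 : CH q u₀ Ry ≤ δ₃ * J := by
    refine le_trans (CH_mono_cond h0 fun ω ω' _ _ hh => ?_) hzU
    rw [hRy] at hh
    obtain ⟨e1, e2⟩ := Prod.ext_iff.mp hh
    obtain ⟨e3, e4⟩ := Prod.ext_iff.mp e2
    dsimp only at e1 e3 e4
    rw [hBj] at e3
    have e5 := (Prod.ext_iff.mp (Prod.ext_iff.mp (Prod.ext_iff.mp e3).2).2).2
    exact Prod.ext e1 (Prod.ext e5 e4)
  have b5 : CH q (fun ω => c (slam F W ω)) (fun ω => (u₀ ω, Ry ω)) ≤ δ₂ * J := by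
    refine le_trans (CH_mono_cond h0 fun ω ω' _ _ hh => ?_) hzC
    obtain ⟨e0, hh⟩ := Prod.ext_iff.mp hh
    dsimp only at e0 hh
    rw [hRy] at hh
    obtain ⟨e1, e2⟩ := Prod.ext_iff.mp hh
    obtain ⟨e3, e4⟩ := Prod.ext_iff.mp e2
    dsimp only at e1 e3 e4
    rw [hBj] at e3
    have e5 := (Prod.ext_iff.mp (Prod.ext_iff.mp (Prod.ext_iff.mp e3).2).2).1
    exact Prod.ext e0 (Prod.ext e5 e4)
  have b6 : CH q E Ry ≤ δ₃ * J + δ₂ * J := by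
    have h1 : CH q E Ry ≤ CH q (fun ω => (c (slam F W ω), u₀ ω)) Ry := by
      refine CH_mono_left h0 fun ω ω' _ _ hh => ?_
      obtain ⟨e1, e2⟩ := Prod.ext_iff.mp hh
      obtain ⟨e3, e4⟩ := Prod.ext_iff.mp e1
      dsimp only at e3 e4
      rw [hRy] at e2
      obtain ⟨e5, e6⟩ := Prod.ext_iff.mp e2
      obtain ⟨e7, e8⟩ := Prod.ext_iff.mp e6
      dsimp only at e7 e8
      rw [hBj] at e7
      have e9 := (Prod.ext_iff.mp e7).1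
      have e10 := (Prod.ext_iff.mp (Prod.ext_iff.mp e7).2).1
      rw [hE]
      exact Prod.ext (Prod.ext e9 e3) (Prod.ext e4 (Prod.ext e10 e8))
    have h2 := CH_chain h0 (fun ω => c (slam F W ω)) u₀ Ry
    linarith
  have b8 : CH q X Ry ≤ CH q E Ry + CH q X (fun ω => (E ω, Ry ω)) := CH_le_add h0 X E Ry
  have b9 : CH q X (fun ω => (E ω, Ry ω)) ≤ CH q X E :=
    CH_mono_cond h0 fun ω ω' _ _ hh => (Prod.ext_iff.mp hh).1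
  have c1 := mul_le_mul_of_nonneg_right hδ hJ0
  have c2 : CH q X (fun ω => (Mt ω, Lc ω)) ≤ CH q X E + δ * J := by
    linarith only [a3, a6, a7, a8, b6, b8, b9, c1]
  rw [hX, hMt, hLc, hE] at c2
  exact c2

/-- **(I')** for the second label, the jet of the first one few bits. -/
theorem ip1_of_ip3 {C₀ : ℝ} (htm : TmC S C₀) {κ₁ κ₂ : Fin m} {p₁ p₂ αq : ℝ} {i : ℕ}
    {δ δa δb δ' : ℝ} (h : Ip3 S f a y Qu Ψ κ₁ κ₂ w p₁ p₂ αq i e δ)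
    (h1 : Fw2 S f a y Qu Ψ (τ := fun _ _ _ _ => ℤ) (fun J F _ _ z' G₁ _ _ =>
      oj F κ₁ z' G₁ ⌊w * J⌋₊ (p₁ + αq - i * w) i) e δa)
    (h2 : Bas S (fun J F A => ∀ (V C : Type) (z : PtT F → V) (z' : LnT F → V)
      (G₁ G₂ : V → MvPolynomial (Option (Fin m)) ℝ) (cc : LnT F → C),
      Ψ J F A V C z z' G₁ G₂ cc →
      CH (Pool.Agent.H49.Ent.cond F.p A True) (oj F κ₁ z' G₁ ⌊w * J⌋₊ (p₁ - i * w) i)
        (fun ω => (z' (slam F ⌊w * J⌋₊ ω), (cc (slam F ⌊w * J⌋₊ ω), F.W ω))) ≤ δb * J))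
    (hδ : δ + δa + δb ≤ δ') : Ip1 S f a y Qu Ψ κ₂ w p₂ αq i e δ' := by
  intro K₀
  refine Bas.mono 0 (((h K₀).and (h1 K₀)).and (h2.and (Pool.GRW.tmc_bas htm one_pos))) ?_
  rintro J - F A ⟨⟨h, h1⟩, h2, hA, -⟩ V C z z' G₁ G₂ c hcx u₀ hu₀ V₁ z₁ hz₁
  obtain ⟨V₂, z₂, hz₂, hC⟩ := h1 V C z z' G₁ G₂ c hcx u₀ hu₀
  beta_reduce at hC
  have h3 := h2 V C z z' G₁ G₂ c hcx
  have h4 := h V C z z' G₁ G₂ c hcx u₀ hu₀ _ _ (hz₁.join hz₂)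
  have h0 := (isLaw_cond F.isLaw hA).nonneg
  have hJ0 : (0 : ℝ) ≤ J := Nat.cast_nonneg J
  obtain ⟨q, hq⟩ : ∃ q : F.Ω → ℝ, q = Pool.Agent.H49.Ent.cond F.p A True := ⟨_, rfl⟩
  rw [← hq] at h0 hC h3 h4 ⊢
  obtain ⟨W, hW⟩ : ∃ W : ℕ, W = ⌊w * J⌋₊ := ⟨_, rfl⟩
  rw [← hW] at hC h3 h4 ⊢
  obtain ⟨Xu, hXu⟩ : ∃ Xu : F.Ω → ℤ, Xu = oj F κ₁ z' G₁ W (p₁ + αq - i * w) i := ⟨_, rfl⟩
  obtain ⟨Xn, hXn⟩ : ∃ Xn : F.Ω → ℤ, Xn = oj F κ₂ z' G₂ W (p₂ + αq - i * w) i := ⟨_, rfl⟩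
  obtain ⟨Mu, hMu⟩ : ∃ Mu : F.Ω → ℤ, Mu = oj F κ₁ z' G₁ W (p₁ - i * w) i := ⟨_, rfl⟩
  obtain ⟨Mn, hMn⟩ : ∃ Mn : F.Ω → ℤ, Mn = oj F κ₂ z' G₂ W (p₂ - i * w) i := ⟨_, rfl⟩
  obtain ⟨Lc, hLc⟩ : ∃ Lc : F.Ω → V × (C × (ℕ × F.ζ)), Lc = fun ω => (z' (slam F W ω),
    (c (slam F W ω), F.W ω)) := ⟨_, rfl⟩
  obtain ⟨R, hR⟩ : ∃ R : F.Ω → (V × C) × (U₀ × (V₁ × γ J F)), R = fun ω =>
    ((z' (slam F W ω), c (slam F W ω)), (u₀ ω, (z₁ ω, y J F ω))) := ⟨_, rfl⟩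
  obtain ⟨R', hR'⟩ : ∃ R' : F.Ω → (V × C) × (U₀ × ((V₁ × V₂) × γ J F)), R' = fun ω =>
    ((z' (slam F W ω), c (slam F W ω)), (u₀ ω, ((z₁ ω, z₂ ω), y J F ω))) := ⟨_, rfl⟩
  have h5 : CH q (fun ω => (Xu ω, Xn ω)) (fun ω => ((Mu ω, Mn ω), Lc ω)) ≤
      CH q (fun ω => (Xu ω, Xn ω)) R' + δ * J := by
    rw [hXu, hXn, hMu, hMn, hLc, hR']
    exact h4
  have h6 : CH q Mu Lc ≤ δb * J := by
    rw [hMu, hLc]
    exact h3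
  have h7 : CH q Xu R' ≤ δa * J := by
    rw [hXu]
    refine (CH_mono_cond h0 fun ω ω' _ _ hh => ?_).trans hC
    rw [hR'] at hh
    obtain ⟨e1, e2⟩ := Prod.ext_iff.mp hh
    obtain ⟨e3, e4⟩ := Prod.ext_iff.mp e2
    obtain ⟨e5, e6⟩ := Prod.ext_iff.mp e4
    dsimp only at e3 e5 e6
    exact Prod.ext e3 (Prod.ext (Prod.ext_iff.mp e5).2 e6)
  have g1 := CH_le_add h0 Xn Mu (fun ω => (Mn ω, Lc ω))
  have g2 : CH q Mu (fun ω => (Mn ω, Lc ω)) ≤ CH q Mu Lc :=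
    CH_mono_cond h0 fun ω ω' _ _ hh => (Prod.ext_iff.mp hh).2
  have g3 : CH q Xn (fun ω => (Mu ω, (Mn ω, Lc ω))) ≤
      CH q (fun ω => (Xu ω, Xn ω)) (fun ω => ((Mu ω, Mn ω), Lc ω)) := by
    refine le_trans (CH_mono_left h0 (X' := fun ω => (Xu ω, Xn ω)) fun ω ω' _ _ hh =>
      (Prod.ext_iff.mp (Prod.ext_iff.mp hh).1).2) (CH_mono_cond h0 fun ω ω' _ _ hh => ?_)
    obtain ⟨e1, e2⟩ := Prod.ext_iff.mp hh
    obtain ⟨e3, e4⟩ := Prod.ext_iff.mp e2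
    exact Prod.ext (Prod.ext e1 e3) e4
  have g4 := CH_subadd h0 Xu Xn R'
  have g5 : CH q Xn R' ≤ CH q Xn R := by
    refine CH_mono_cond h0 fun ω ω' _ _ hh => ?_
    rw [hR'] at hh
    obtain ⟨e1, e2⟩ := Prod.ext_iff.mp hh
    obtain ⟨e3, e4⟩ := Prod.ext_iff.mp e2
    obtain ⟨e5, e6⟩ := Prod.ext_iff.mp e4
    dsimp only at e1 e3 e5 e6
    rw [hR]
    exact Prod.ext e1 (Prod.ext e3 (Prod.ext (Prod.ext_iff.mp e5).1 e6))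
  have c1 := mul_le_mul_of_nonneg_right hδ hJ0
  have c2 : CH q Xn (fun ω => (Mn ω, Lc ω)) ≤ CH q Xn R + δ' * J := by
    linarith only [h5, h6, h7, g1, g2, g3, g4, g5, c1]
  rw [hXn, hMn, hLc, hR] at c2
  exact c2

end gen

section fmb

variable {S : PCl m} {α γ : ∀ J : ℕ, Fam m J → Type}
  {f : ∀ (J : ℕ) (F : Fam m J), F.Ω → α J F} {y : ∀ (J : ℕ) (F : Fam m J), F.Ω → γ J F}
  {U₀ U : Type} {Qu : Qt m U₀} {Qp : Qt m U}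
  {Ψ₀ : Fm2 m} {c : ℕ → Fin m} {r K : ℕ} {e : ℝ} {E : ℕ → ℝ} {b w a : ℝ} {rd p : ℕ → ℝ}
  {X : ℕ → ℕ → ℝ}

/-- The jets of the first labels. -/
theorem FmB.fwu {N δ : ℝ} {j : ℕ}
    (h : F1 S f (vg a) y Qu (qJet m ((range r).image c) (c r) j b (p r) N) e δ) :
    Fw2 S f a y Qu (FmB Ψ₀ c r K e E b w rd p X) (τ := fun _ _ _ _ => ℤ)
      (fun J F _ _ z' G₁ _ _ ω => ⌊(2 : ℝ) ^ (N * J) * ojet F (c r) j
        (G₁ (z' (slam F ⌊w * J⌋₊ ω))) ω⌋) e δ :=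
  fw2_of_f1 h (FmB.qu Ψ₀ c r K e E b w rd p X N j)

/-- The jets of the second labels. -/
theorem FmB.fwn {N δ : ℝ} {j : ℕ}
    (h : F1 S f (vg a) y Qu (qJet m ((range (r + 1)).image c) (c (r + 1)) j b (p (r + 1)) N) e δ) :
    Fw2 S f a y Qu (FmB Ψ₀ c r K e E b w rd p X) (τ := fun _ _ _ _ => ℤ)
      (fun J F _ _ z' _ G₂ _ ω => ⌊(2 : ℝ) ^ (N * J) * ojet F (c (r + 1)) j
        (G₂ (z' (slam F ⌊w * J⌋₊ ω))) ω⌋) e δ :=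
  fw2_of_f1 h (FmB.qn Ψ₀ c r K e E b w rd p X N j)

/-- The first labels alive. -/
theorem FmB.alu {N β : ℝ} {i : ℕ}
    (h : AlF S f a y Qu (qJet m ((range r).image c) (c r) i b (p r) N) e β) :
    Al2 S f a y Qu (FmB Ψ₀ c r K e E b w rd p X) (c r) w N i e β := by
  obtain ⟨M, J₁, hX⟩ := FmB.qu Ψ₀ c r K e E b w rd p X N i
  intro K₀
  refine Bas.mono J₁ (h (max K₀ M)) ?_
  intro J hJ F A h V C z z' G₁ G₂ cc hc u₀ hu₀ V₁ z₁ hz₁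
  exact h u₀ _ (Qu.mono (le_max_left _ _) le_rfl hu₀) ((qJet m _ _ _ _ _ _).mono
    (le_max_right _ _) le_rfl (hX J hJ F A V C z z' G₁ G₂ cc hc)) V₁ z₁ hz₁

/-- The second labels alive. -/
theorem FmB.aln {N β : ℝ} {i : ℕ}
    (h : AlF S f a y Qu (qJet m ((range (r + 1)).image c) (c (r + 1)) i b (p (r + 1)) N) e β) :
    Al2 S f a y Qu (FmB Ψ₀ c r K e E b w rd p X).swap (c (r + 1)) w N i e β := by
  obtain ⟨M, J₁, hX⟩ := FmB.qn Ψ₀ c r K e E b w rd p X N i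
  intro K₀
  refine Bas.mono J₁ (h (max K₀ M)) ?_
  intro J hJ F A h V C z z' G₁ G₂ cc hc u₀ hu₀ V₁ z₁ hz₁
  exact h u₀ _ (Qu.mono (le_max_left _ _) le_rfl hu₀) ((qJet m _ _ _ _ _ _).mono
    (le_max_right _ _) le_rfl (hX J hJ F A V C z z' G₂ G₁ cc hc)) V₁ z₁ hz₁

/-- The orders above `i` dead. -/
theorem hi1_of {C₀ : ℝ} (htm : TmC S C₀) {p₂ αq k δ₁ δ₂ δ : ℝ} {i D : ℕ}
    (hp : NpF S (FmB Ψ₀ c r K e E b w rd p X) w Qp e δ₁)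
    (hn : ∀ j, i < j → j ≤ D → F1 S (fun J F => ptr F J) (vg w) (fun _ F => F.T) Qp
      (qJet m ((range (r + 1)).image c) (c (r + 1)) j b (p (r + 1)) (p₂ + αq - j * w)) e δ₂)
    (hδ : δ₁ + δ₂ + k ≤ δ) :
    Hi1 S (FmM (FmB Ψ₀ c r K e E b w rd p X) w k) (c (r + 1)) w p₂ αq i D δ := by
  have H := Bas.all (S := S) (D + 1) (Φ := fun j J F A => i < j →
    ∀ (V C : Type) (z : PtT F → V) (z' : LnT F → V)
      (G₁ G₂ : V → MvPolynomial (Option (Fin m)) ℝ) (cc : LnT F → C),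
      FmM (FmB Ψ₀ c r K e E b w rd p X) w k J F A V C z z' G₁ G₂ cc →
      CH (Pool.Agent.H49.Ent.cond F.p A True)
        (oj F (c (r + 1)) z' G₂ ⌊w * J⌋₊ (p₂ + αq - j * w) j)
        (fun ω => (z' (slam F ⌊w * J⌋₊ ω), (cc (slam F ⌊w * J⌋₊ ω), F.W ω))) ≤ δ * J) (by
    intro j hj
    by_cases hij : i < j
    · exact Bas.mono 0 (ch_of_f1 htm (X := fun J F _ _ z' _ G₂ _ =>
        oj F (c (r + 1)) z' G₂ ⌊w * J⌋₊ (p₂ + αq - j * w) j) hp (hn j hij (by omega))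
        (FmB.qn Ψ₀ c r K e E b w rd p X _ j) hδ) fun J _ F A h _ => h
    · exact ⟨1, one_pos, 0, fun J _ F A _ h => absurd h hij⟩)
  refine Bas.mono 0 H ?_
  intro J _ F A h V C z z' G₁ G₂ cc hcc j hij hjD
  exact h j (by omega) hij V C z z' G₁ G₂ cc hcc

/-- The orders above `i` dead, both labels. -/
theorem hi2_of {C₀ : ℝ} (htm : TmC S C₀) {p₁ p₂ αq k δ₁ δ₂ δ : ℝ} {i D : ℕ}
    (hp : NpF S (FmB Ψ₀ c r K e E b w rd p X) w Qp e δ₁)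
    (hu : ∀ j, i < j → j ≤ D → F1 S (fun J F => ptr F J) (vg w) (fun _ F => F.T) Qp
      (qJet m ((range r).image c) (c r) j b (p r) (p₁ + αq - j * w)) e δ₂)
    (hn : ∀ j, i < j → j ≤ D → F1 S (fun J F => ptr F J) (vg w) (fun _ F => F.T) Qp
      (qJet m ((range (r + 1)).image c) (c (r + 1)) j b (p (r + 1)) (p₂ + αq - j * w)) e δ₂)
    (hδ : δ₁ + δ₂ + k ≤ δ) :
    Hi2 S (FmM (FmB Ψ₀ c r K e E b w rd p X) w k) (c r) (c (r + 1)) w p₁ p₂ αq i D δ := by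
  have H := Bas.all (S := S) (D + 1) (Φ := fun j J F A => i < j →
    ∀ (V C : Type) (z : PtT F → V) (z' : LnT F → V)
      (G₁ G₂ : V → MvPolynomial (Option (Fin m)) ℝ) (cc : LnT F → C),
      FmM (FmB Ψ₀ c r K e E b w rd p X) w k J F A V C z z' G₁ G₂ cc →
      CH (Pool.Agent.H49.Ent.cond F.p A True)
        (oj F (c r) z' G₁ ⌊w * J⌋₊ (p₁ + αq - j * w) j)
        (fun ω => (z' (slam F ⌊w * J⌋₊ ω), (cc (slam F ⌊w * J⌋₊ ω), F.W ω))) ≤ δ * J) (by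
    intro j hj
    by_cases hij : i < j
    · exact Bas.mono 0 (ch_of_f1 htm (X := fun J F _ _ z' G₁ _ _ =>
        oj F (c r) z' G₁ ⌊w * J⌋₊ (p₁ + αq - j * w) j) hp (hu j hij (by omega))
        (FmB.qu Ψ₀ c r K e E b w rd p X _ j) hδ) fun J _ F A h _ => h
    · exact ⟨1, one_pos, 0, fun J _ F A _ h => absurd h hij⟩)
  refine Bas.mono 0 (H.and (hi1_of htm (p₂ := p₂) (αq := αq) (i := i) (D := D) hp hn hδ)) ?_
  rintro J - F A ⟨h, h'⟩ V C z z' G₁ G₂ cc hcc j hij hjD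
  exact ⟨h j (by omega) hij V C z z' G₁ G₂ cc hcc, h' V C z z' G₁ G₂ cc hcc j hij hjD⟩

end fmb

end Pool.AB63
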