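import Pool.Agent.H63.AB.Bxd

/-!
# One tie and one hop from the data of a step

`hopB_of`: `HopB` from `StC` and the row for all small precisions; `tieB_of`: `TieB` from `StC`, the rows,
position and direction, and the full leaf. `HopB.up`, `TieB.up`: from a subclass to the class.
-/

set_option autoImplicit false

namespace Pool.AB63

open Finset Real MvPolynomial
open Pool.Agent.H49.Ent Pool.Agent.H32.Dense Pool.STK Pool.KA Pool.KSAT Pool.K2S Pool.PB Pool.GEN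
open Pool.S6C Pool.RCD Pool.LA91 Pool.OWN68 Pool.AJW Pool.AJX Pool.CHT Pool.PN18 Pool.LPK12
open Pool.TE46

/-- One precision for finitely many facts. -/
theorem com_e {P : ℕ → ℝ → Prop} (hm : ∀ l e e', e' ≤ e → P l e → P l e') (n : ℕ)
    (h : ∀ l ≤ n, ∃ e : ℝ, 0 < e ∧ P l e) :
    ∃ e₀ : ℝ, 0 < e₀ ∧ ∀ e : ℝ, e ≤ e₀ → ∀ l ≤ n, P l e := by
  induction n with
  | zero =>
    obtain ⟨e, he, h1⟩ := h 0 le_rfl
    refine ⟨e, he, fun e' h2 l hl => ?_⟩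
    obtain rfl : l = 0 := by omega
    exact hm 0 e e' h2 h1
  | succ n ih =>
    obtain ⟨e₁, h1, h2⟩ := ih fun l hl => h l (by omega)
    obtain ⟨e₂, h3, h4⟩ := h (n + 1) le_rfl
    refine ⟨min e₁ e₂, lt_min h1 h3, fun e he l hl => ?_⟩
    rcases Nat.lt_or_ge n l with h5 | h5
    · obtain rfl : l = n + 1 := by omega
      exact hm _ _ _ (he.trans (min_le_right _ _)) h4
    · exact h2 e (he.trans (min_le_left _ _)) l h5

section

variable {m : ℕ} {S : PCl m} {t : ℝ} {U U' : Type} {Qp : Qt m U} {Q : Qt m U'}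

theorem F1x.mono {δ δ' : ℝ} (h : F1x S t Qp Q δ) (hδ : δ ≤ δ') : F1x S t Qp Q δ' := by
  obtain ⟨e, he, h⟩ := h
  exact ⟨e, he, h.mono le_rfl hδ⟩

theorem F1x.sub {S' : PCl m} (hs : ∀ (τ : ℝ) (J : ℕ) (F : Fam m J) (A : F.Ω → Prop),
    S'.St τ J F A → S.St τ J F A) {δ : ℝ} (h : F1x S t Qp Q δ) : F1x S' t Qp Q δ := by
  obtain ⟨e, he, h⟩ := h
  exact ⟨e, he, fun K => (h K).sub hs⟩

theorem Alx.sub {S' : PCl m} (hs : ∀ (τ : ℝ) (J : ℕ) (F : Fam m J) (A : F.Ω → Prop),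
    S'.St τ J F A → S.St τ J F A) {δ : ℝ} (h : Alx S t Qp Q δ) : Alx S' t Qp Q δ := by
  obtain ⟨e, he, h⟩ := h
  exact ⟨e, he, h.sub hs⟩

theorem Alx.mono {β β' : ℝ} (h : Alx S t Qp Q β) (hβ : β' ≤ β) : Alx S t Qp Q β' := by
  obtain ⟨e, he, h⟩ := h
  exact ⟨e, he, h.mono le_rfl hβ⟩

theorem Ipx.sub {S' : PCl m} (hs : ∀ (τ : ℝ) (J : ℕ) (F : Fam m J) (A : F.Ω → Prop),
    S'.St τ J F A → S.St τ J F A) {w κ : ℝ} {U₁ U₂ : Type} {Xo : Qt m U₁} {Xt : Qt m U₂}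
    (h : Ipx S w t Qp Xo Xt κ) : Ipx S' w t Qp Xo Xt κ := by
  obtain ⟨e, he, k, hk, h⟩ := h
  exact ⟨e, he, k, hk, fun e' k' a b a' b' K => (h e' k' a b a' b' K).sub hs⟩

/-- The fact at a smaller precision. -/
theorem F1x.com {δ : ℝ} (h : F1x S t Qp Q δ) : ∃ e₀ : ℝ, 0 < e₀ ∧ ∀ e : ℝ, e ≤ e₀ →
    F1 S (fun J F => ptr F J) (vg t) (fun _ F => F.T) Qp Q e δ := by
  obtain ⟨e, he, h⟩ := h
  exact ⟨e, he, fun e' h' => h.mono h' le_rfl⟩

theorem Alx.com {δ : ℝ} (h : Alx S t Qp Q δ) : ∃ e₀ : ℝ, 0 < e₀ ∧ ∀ e : ℝ, e ≤ e₀ →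
    AlF S (fun J F => ptr F J) t (fun _ F => F.T) Qp Q e δ := by
  obtain ⟨e, he, h⟩ := h
  exact ⟨e, he, fun e' h' => h.mono h' le_rfl⟩

/-- Finitely many facts at one precision. -/
theorem F1x.all {Q : ℕ → Qt m U'} {δ : ℝ} {n : ℕ} {P : ℕ → Prop}
    (h : ∀ l ≤ n, P l → F1x S t Qp (Q l) δ) : ∃ e₀ : ℝ, 0 < e₀ ∧ ∀ e : ℝ, e ≤ e₀ → ∀ l ≤ n, P l →
    F1 S (fun J F => ptr F J) (vg t) (fun _ F => F.T) Qp (Q l) e δ := by
  refine com_e (P := fun l e => P l → F1 S (fun J F => ptr F J) (vg t) (fun _ F => F.T) Qp (Q l) e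
    δ) (fun l e e' h1 h2 h3 => (h2 h3).mono h1 le_rfl) n fun l hl => ?_
  by_cases hP : P l
  · obtain ⟨e, he, h1⟩ := h l hl hP
    exact ⟨e, he, fun _ => h1⟩
  · exact ⟨1, one_pos, fun h2 => absurd h2 hP⟩

end

section

variable {m : ℕ} {S S' : PCl m} {c : ℕ → Fin m} {r K : ℕ} {a b : ℝ} {sn : ℕ → ℝ → ℝ} {γ s : ℝ}
  {U : Type} {Qp : Qt m U} {j : ℕ} {w t B ε' q al δ₁ : ℝ}

theorem HopB.up (hs : ∀ (τ : ℝ) (J : ℕ) (F : Fam m J) (A : F.Ω → Prop),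
    S'.St τ J F A → S.St τ J F A) (h : HopB S' c r K a b sn γ s Qp j w t B ε' q al δ₁) :
    HopB S c r K a b sn γ s Qp j w t B ε' q al δ₁ :=
  fun h1 h2 h3 h4 h5 h6 h7 h8 => h (fun l hl => (h1 l hl).sub hs)
    (fun l hl hl' => (h2 l hl hl').sub hs) (h3.sub hs) (fun l hl hl' => (h4 l hl hl').sub hs)
    (h5.sub hs) (h6.sub hs) (h7.sub hs) (h8.sub hs)

theorem TieB.up (hs : ∀ (τ : ℝ) (J : ℕ) (F : Fam m J) (A : F.Ω → Prop),
    S'.St τ J F A → S.St τ J F A) (h : TieB S' c r K a b sn γ s Qp j w t B ε' q al δ₁) :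
    TieB S c r K a b sn γ s Qp j w t B ε' q al δ₁ :=
  fun h1 h2 h3 h4 h5 h6 h7 h8 => h (fun l hl hl' => (h1 l hl hl').sub hs) (h2.sub hs)
    (fun l hl hl' => (h3 l hl hl').sub hs) (h4.sub hs) (fun l hl hl' => (h5 l hl hl').sub hs)
    (fun l hl hl' => (h6 l hl hl').sub hs) (h7.sub hs) (h8.sub hs)

end

/-- **One hop from the data of a step.** -/
theorem hopB_of (K : ℕ) {j : ℕ} (hj : 1 ≤ j ∧ j ≤ K + 2) {a : ℝ} (ha : 0 < a) {h : ℝ}
    (hh : 0 < h) (hha : h ≤ a) :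
    ∃ ε' : ℝ, 0 < ε' ∧ ∃ δ : ℝ, 0 < δ ∧ ∀ al : ℝ, 0 < al →
    ∃ δ₁ : ℝ, 0 < δ₁ ∧
    ∀ {m : ℕ} {S : PCl m} {c : ℕ → Fin m} {r : ℕ} {Ψ₀ : Fm2 m} {E : ℕ → ℝ}
    {b w t : ℝ} {rd p : ℕ → ℝ} {X : ℕ → ℕ → ℝ} {U : Type} {Qp : Qt m U} {sn : ℕ → ℝ → ℝ}
    {γ s q : ℝ} (_ : 0 < q) (_ : w + a * q ≤ 1) (_ : p r = sn r b)
    (_ : p (r + 1) = sn (r + 1) b - γ)
    (_ : ∀ η : ℝ, 0 < η → ∃ e₀ : ℝ, 0 < e₀ ∧ ∀ e : ℝ, 0 < e → e ≤ e₀ →
      StC S c r K Ψ₀ e E b w t rd p X Qp η η η ∧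
      Row1 S (FmB Ψ₀ c r K e E b w rd p X) (c r) (c (r + 1)) w
        (sn r b + s + a * (w - b) + (a - j) * (t - w) + a * q)
        (sn (r + 1) b + a * (w - b) + (a - j) * (t - w)) (a * q)
        ((a - h) * q * Real.log 2 + δ * q)),
    HopB S c r K a b sn γ s Qp j w t (a * q) ε' q al δ₁ := by
  obtain ⟨ε', hε', δ, hδ, H⟩ := hop_stp K hj ha hh hha
  refine ⟨ε', hε', δ, hδ, fun al hal => ?_⟩
  obtain ⟨δ₁, hδ₁, H⟩ := H al hal
  refine ⟨δ₁, hδ₁, ?_⟩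
  intro m S c r Ψ₀ E b w t rd p X U Qp sn γ s q hq hw1 hpr hpn D h1 h2 h3 h4 h5 h6 h7 h8
  have hδq : 0 < δ₁ * q := mul_pos hδ₁ hq
  obtain ⟨e₀, he₀, D⟩ := D (δ₁ * q / 32) (by positivity)
  obtain ⟨e1, he1, h1⟩ := F1x.all (P := fun _ => True) fun l hl _ => h1 l hl
  obtain ⟨e2, he2, h2⟩ := F1x.all (P := fun l => l ≠ j) h2
  obtain ⟨e3, he3, h3⟩ := h3.com
  obtain ⟨e4, he4, h4⟩ := F1x.all (n := K + 2) (P := fun l => j < l) fun l hl hl' => h4 l hl' hl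
  obtain ⟨e5, he5, k₀, hk₀, h5⟩ := h5
  obtain ⟨e6, he6, h6⟩ := h6.com
  obtain ⟨e7, he7, h7⟩ := h7.com
  obtain ⟨e8, he8, h8⟩ := h8.com
  obtain ⟨e, he, l0, l1, l2, l3, l4, l5, l6, l7, l8⟩ : ∃ e : ℝ, 0 < e ∧ e ≤ e₀ ∧ e ≤ e1 ∧ e ≤ e2 ∧
      e ≤ e3 ∧ e ≤ e4 ∧ e ≤ e5 ∧ e ≤ e6 ∧ e ≤ e7 ∧ e ≤ e8 := by
    refine ⟨min e₀ (min e1 (min e2 (min e3 (min e4 (min e5 (min e6 (min e7 e8))))))),
      by positivity, ?_⟩
    simp only [min_le_iff, le_refl, true_or, or_true, and_self]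
  obtain ⟨St, Rw⟩ := D e he l0
  obtain ⟨k, hk, k1, k2⟩ : ∃ k : ℝ, 0 < k ∧ k ≤ k₀ ∧ k ≤ δ₁ * q / 8 :=
    ⟨min k₀ (δ₁ * q / 8), by positivity, min_le_left _ _, min_le_right _ _⟩
  refine H (P₁ := sn r b + s + a * (w - b) + (a - j) * (t - w) + a * q)
    (p₁ := sn r b + s + a * (w - b) + (a - j) * (t - w))
    (p₂ := sn (r + 1) b + a * (w - b) + (a - j) * (t - w)) (k := k) (κ := δ₁ * q / 8)
    (δh := δ₁ * q / 8) (δu := δ₁ * q / 8)
    (N₁ := fun l => sn r b - l * b + ((a - l) * (w - b) + (a - j) * (t - w) + a * q + s))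
    (N₂ := fun l => if l = j then sn (r + 1) b - l * b + (a - j) * (t - b) else
      sn (r + 1) b - l * b + ((a - l) * (w - b) + (a - j) * (t - w) + a * q))
    St hq hw1 hk.le (by linarith) (by linarith) (by linarith) (fun l _ => le_of_eq (by ring))
    ⟨fun l hl => ?_, fun l hl hl' => ?_⟩ (fun l hl => ?_) (fun l hl => ?_) (fun l hl hl' => ?_)
    ?_ ?_ ?_ ?_ Rw
  · rw [Finset.mem_singleton] at hl
    subst hl
    simp only [if_true]
    exact le_of_eq (by ring)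
  · rw [Finset.mem_singleton] at hl'
    simp only [if_neg hl']
    exact le_of_eq (by ring)
  · rw [hpr]
    exact h1 e l1 l hl trivial
  · rw [hpn]
    by_cases hlj : l = j
    · subst hlj
      simp only [if_true]
      exact h3 e l3
    · simp only [if_neg hlj]
      exact h2 e l2 l hl hlj
  · rw [hpn]
    have h9 := h4 e l4 l hl' hl
    have e9 : sn (r + 1) b + a * (w - b) + (a - j) * (t - w) + a * q - l * w =
        sn (r + 1) b - l * b + ((a - l) * (w - b) + (a - j) * (t - w) + a * q) := by ring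
    rw [e9]
    exact h9
  · rw [hpr, hpn]
    have h9 := h5 e k he l5 hk k1
    have e1 : sn r b + s + a * (w - b) + (a - j) * (t - w) + a * q - j * w =
        sn r b - j * b + ((a - j) * (t - b) + a * q + s) := by ring
    have e2 : sn (r + 1) b + a * (w - b) + (a - j) * (t - w) + a * q - j * w =
        sn (r + 1) b - j * b + ((a - j) * (t - b) + a * q) := by ring
    have e3 : sn r b + s + a * (w - b) + (a - j) * (t - w) - j * w =
        sn r b - j * b + ((a - j) * (t - b) + s) := by ring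
    have e4 : sn (r + 1) b + a * (w - b) + (a - j) * (t - w) - j * w =
        sn (r + 1) b - j * b + (a - j) * (t - b) := by ring
    rw [e1, e2, e3, e4]
    exact h9
  · rw [hpr]
    have e1 : sn r b + s + a * (w - b) + (a - j) * (t - w) + a * q - j * w =
        sn r b - j * b + ((a - j) * (t - b) + a * q + s) := by ring
    rw [e1]
    exact h6 e l6
  · rw [hpr]
    have e3 : sn r b + s + a * (w - b) + (a - j) * (t - w) - j * w =
        sn r b - j * b + ((a - j) * (t - b) + s) := by ring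
    rw [e3]
    exact h7 e l7
  · rw [hpn]
    have e3 : sn (r + 1) b + a * (w - b) + (a - j) * (t - w) + ε' * (a * q) - j * w =
        sn (r + 1) b - j * b + ((a - j) * (t - b) + ε' * (a * q)) := by ring
    rw [e3]
    exact h8 e l8

/-- **One tie from the data of a step.** -/
theorem tieB_of (K B : ℕ) {i : ℕ} (hi : 1 ≤ i ∧ i ≤ K + 2) {a : ℝ} (ha : 0 < a) {h : ℝ}
    (hh : 0 < h) (hha : h ≤ a) {ηl : ℝ} (hηl : 0 < ηl) {ε₁ : ℝ} (hε₁ : 0 < ε₁) :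
    ∃ ε' : ℝ, 0 < ε' ∧ ∃ ε : ℝ, 0 < ε ∧ ε ≤ ε₁ ∧ ∃ δ : ℝ, 0 < δ ∧ ∃ N₀ : ℕ, 0 < N₀ ∧
    ∀ al : ℝ, 0 < al → ∃ δ₁ : ℝ, 0 < δ₁ ∧
    ∀ {m : ℕ} {S : PCl m} {c : ℕ → Fin m} {r : ℕ} {Ψ₀ : Fm2 m} {E : ℕ → ℝ}
    {b w t : ℝ} {rd p : ℕ → ℝ} {X : ℕ → ℕ → ℝ} {U : Type} {Qp : Qt m U} {sn : ℕ → ℝ → ℝ}
    {γ s q : ℝ} (_ : 0 < q) (_ : w + a * q ≤ 1) (_ : p r = sn r b)
    (_ : p (r + 1) = sn (r + 1) b - γ) {I₀ : Finset (Fin m)}
    (_ : ∀ η : ℝ, 0 < η → ∃ e₀ : ℝ, 0 < e₀ ∧ ∃ k₀ : ℝ, 0 < k₀ ∧ ∀ e k : ℝ, 0 < e → e ≤ e₀ →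
      0 < k → k ≤ k₀ → StC S c r K Ψ₀ e E b w t rd p X Qp η η η ∧
      Rw2 S (FmB Ψ₀ c r K e E b w rd p X).swap (c (r + 1)) (c r) w
        (sn (r + 1) b + a * (w - b) + (a - i) * (t - w) - a * q)
        (sn r b + s + a * (w - b) + (a - i) * (t - w) - a * q) a a (2 * q) h (δ * q) N₀ ∧
      Fr2 S (FmM (FmB Ψ₀ c r K e E b w rd p X) w k) I₀ (c r) (c (r + 1)) w
        (sn r b + s + a * (w - b) + (a - i) * (t - w) + a * q)
        (sn (r + 1) b + a * (w - b) + (a - i) * (t - w) + a * q) B (δ₁ * q) ∧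
      Fl2 S (FmB Ψ₀ c r K e E b w rd p X) I₀ (c r) (c (r + 1)) w
        (sn r b + s + a * (w - b) + (a - i) * (t - w))
        (sn (r + 1) b + a * (w - b) + (a - i) * (t - w)) (a * q) ε
        ((a - h + ηl) * q * Real.log 2)),
    TieB S c r K a b sn γ s Qp i w t (a * q) ε' q al δ₁ := by
  obtain ⟨ε', hε', ε, hε, hεε, δ, hδ, N₀, hN₀, H⟩ := tie_stp K B hi ha hh hha hηl hε₁
  refine ⟨ε', hε', ε, hε, hεε, δ, hδ, N₀, hN₀, fun al hal => ?_⟩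
  obtain ⟨δ₁, hδ₁, H⟩ := H al hal
  refine ⟨δ₁, hδ₁, ?_⟩
  intro m S c r Ψ₀ E b w t rd p X U Qp sn γ s q hq hw1 hpr hpn I₀ D h1 h2 h3 h4 h5 h6 h7 h8
  have hδq : 0 < δ₁ * q := mul_pos hδ₁ hq
  obtain ⟨e₀, he₀, k₁, hk₁, D⟩ := D (δ₁ * q / 32) (by positivity)
  obtain ⟨e1, he1, h1⟩ := F1x.all (P := fun l => l ≠ i) h1
  obtain ⟨e2, he2, h2⟩ := h2.com
  obtain ⟨e3, he3, h3⟩ := F1x.all (P := fun l => l ≠ i) h3
  obtain ⟨e4, he4, h4⟩ := h4.com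
  obtain ⟨e5, he5, h5⟩ := F1x.all (n := K + 2) (P := fun l => i < l) fun l hl hl' => h5 l hl' hl
  obtain ⟨e6, he6, h6⟩ := F1x.all (n := K + 2) (P := fun l => i < l) fun l hl hl' => h6 l hl' hl
  obtain ⟨e7, he7, k₀, hk₀, h7⟩ := h7
  obtain ⟨e8, he8, h8⟩ := h8.com
  obtain ⟨e, he, l0, l1, l2, l3, l4, l5, l6, l7, l8⟩ : ∃ e : ℝ, 0 < e ∧ e ≤ e₀ ∧ e ≤ e1 ∧ e ≤ e2 ∧
      e ≤ e3 ∧ e ≤ e4 ∧ e ≤ e5 ∧ e ≤ e6 ∧ e ≤ e7 ∧ e ≤ e8 := by
    refine ⟨min e₀ (min e1 (min e2 (min e3 (min e4 (min e5 (min e6 (min e7 e8))))))),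
      by positivity, ?_⟩
    simp only [min_le_iff, le_refl, true_or, or_true, and_self]
  obtain ⟨k, hk, k1, k2, k3⟩ : ∃ k : ℝ, 0 < k ∧ k ≤ k₀ ∧ k ≤ δ₁ * q / 8 ∧ k ≤ k₁ :=
    ⟨min k₀ (min (δ₁ * q / 8) k₁), by positivity, min_le_left _ _,
      (min_le_right _ _).trans (min_le_left _ _), (min_le_right _ _).trans (min_le_right _ _)⟩
  obtain ⟨St, Rw, Fr, Fl⟩ := D e k he l0 hk k3
  refine H (p₁ := sn r b + s + a * (w - b) + (a - i) * (t - w))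
    (p₂ := sn (r + 1) b + a * (w - b) + (a - i) * (t - w)) (k := k) (κ := δ₁ * q / 8)
    (δh := δ₁ * q / 8)
    (N₁ := fun l => if l = i then sn r b - l * b + ((a - i) * (t - b) + s) else
      sn r b - l * b + ((a - l) * (w - b) + (a - i) * (t - w) + a * q + s))
    (N₂ := fun l => if l = i then sn (r + 1) b - l * b + (a - i) * (t - b) else
      sn (r + 1) b - l * b + ((a - l) * (w - b) + (a - i) * (t - w) + a * q))
    St hq hw1 hk.le (by linarith) (by linarith) (by linarith) ⟨fun l hl => ?_, fun l hl hl' => ?_⟩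
    ⟨fun l hl => ?_, fun l hl hl' => ?_⟩ (fun l hl => ?_) (fun l hl => ?_) (fun l hl hl' => ?_)
    (fun l hl hl' => ?_) ?_ ?_ Rw Fr Fl
  · rw [Finset.mem_singleton] at hl
    subst hl
    simp only [if_true]
    exact le_of_eq (by ring)
  · rw [Finset.mem_singleton] at hl'
    simp only [if_neg hl']
    exact le_of_eq (by ring)
  · rw [Finset.mem_singleton] at hl
    subst hl
    simp only [if_true]
    exact le_of_eq (by ring)
  · rw [Finset.mem_singleton] at hl'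
    simp only [if_neg hl']
    exact le_of_eq (by ring)
  · rw [hpr]
    by_cases hlj : l = i
    · subst hlj
      simp only [if_true]
      exact h2 e l2
    · simp only [if_neg hlj]
      exact h1 e l1 l hl hlj
  · rw [hpn]
    by_cases hlj : l = i
    · subst hlj
      simp only [if_true]
      exact h4 e l4
    · simp only [if_neg hlj]
      exact h3 e l3 l hl hlj
  · rw [hpr]
    have h9 := h5 e l5 l hl' hl
    have e9 : sn r b + s + a * (w - b) + (a - i) * (t - w) + a * q - l * w =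
        sn r b - l * b + ((a - l) * (w - b) + (a - i) * (t - w) + a * q + s) := by ring
    rw [e9]
    exact h9
  · rw [hpn]
    have h9 := h6 e l6 l hl' hl
    have e9 : sn (r + 1) b + a * (w - b) + (a - i) * (t - w) + a * q - l * w =
        sn (r + 1) b - l * b + ((a - l) * (w - b) + (a - i) * (t - w) + a * q) := by ring
    rw [e9]
    exact h9
  · rw [hpr, hpn]
    have h9 := h7 e k he l7 hk k1
    have e1 : sn r b + s + a * (w - b) + (a - i) * (t - w) + a * q - i * w =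
        sn r b - i * b + ((a - i) * (t - b) + a * q + s) := by ring
    have e2 : sn (r + 1) b + a * (w - b) + (a - i) * (t - w) + a * q - i * w =
        sn (r + 1) b - i * b + ((a - i) * (t - b) + a * q) := by ring
    have e3 : sn r b + s + a * (w - b) + (a - i) * (t - w) - i * w =
        sn r b - i * b + ((a - i) * (t - b) + s) := by ring
    have e4 : sn (r + 1) b + a * (w - b) + (a - i) * (t - w) - i * w =
        sn (r + 1) b - i * b + (a - i) * (t - b) := by ring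
    rw [e1, e2, e3, e4]
    exact h9
  · rw [hpr]
    have e3 : sn r b + s + a * (w - b) + (a - i) * (t - w) + ε' * (a * q) - i * w =
        sn r b - i * b + ((a - i) * (t - b) + s + ε' * (a * q)) := by ring
    rw [e3]
    exact h8 e l8

end Pool.AB63
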