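import Pool.Agent.H18.AB.Bxm

/-!
# The sub-box is impossible, the tie at one rate

`box_false'`: as `box_false`, the tie only at the rate which is used. `box_main'`: as `box_main`, the ties
only at a list of rates chosen before the box.
-/

set_option autoImplicit false

namespace Pool.AB63

open Finset Real MvPolynomial
open Pool.Agent.H49.Ent Pool.Agent.H32.Dense Pool.STK Pool.KA Pool.KSAT Pool.K2S Pool.PB Pool.GEN
open Pool.S6C Pool.RCD Pool.LA91 Pool.OWN68 Pool.AJW Pool.AJX Pool.CHT Pool.PN18 Pool.LPK12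
open Pool.TE46 Pool.AB91

/-- **The sub-box is impossible**, the tie only at one rate. -/
theorem box_false' {K kt m0 E M i : ℕ} {a : ℝ} {εh : ℕ → ℝ} {dh : ℕ → ℝ → ℝ} {εt : ℝ} {dt : ℝ → ℝ}
    (ha : 0 < a) (hkt : (kt : ℝ) < a) (hka : a ≤ kt + 1) (hkK : kt ≤ K + 2) (hm0 : a + 1 ≤ m0)
    (hE : 1 ≤ E) (hεE : ∀ j, i < j → j ≤ kt → 1 ≤ εh j * E)
    (hdh : ∀ j al, i < j → j ≤ kt → 0 < al → 0 < dh j al)
    (hM : a * (m0 + 1) * E ≤ (a - kt) * M) (hi : 1 ≤ i) (hik : i ≤ kt) (hεt : 1 ≤ εt * E)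
    (κ : ℝ) (hκ : 0 < κ) (hdt : 0 < dt (κ / (2 * ((a - i) * E / a)))) :
    ∃ tol : ℝ, 0 < tol ∧
    ∀ {m : ℕ} {S : PCl m} {c : ℕ → Fin m} {r : ℕ} {b : ℝ} {sn : ℕ → ℝ → ℝ} {γ s : ℝ}
    {U : Type} {Qp : Qt m U} {x : ℕ → ℝ} {N : ℕ} {u η : ℝ} {θ : ℕ → ℕ → ℕ → ℝ} {φ : ℕ → ℝ},
    BoxH m0 E i εh dh S c r K kt a b sn γ s Qp x N u η θ φ → 0 ≤ η → η ≤ tol →
    κ ≤ φ i - φ (i + 1) → (2 * kt + 1) * (m0 * E + M + E) ≤ N →
    (∀ n, m0 * E ≤ n → n + E ≤ N →
      TieB S c r K a b sn γ s Qp i (x (n - m0 * E)) (x n) (a * ((a - i) * (E * u) / a)) εt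
        ((a - i) * (E * u) / a) (κ / (2 * ((a - i) * E / a)))
        (dt (κ / (2 * ((a - i) * E / a))))) → False := by
  have hE1 : (1 : ℝ) ≤ E := by exact_mod_cast hE
  have hm00 : (0 : ℝ) ≤ m0 := Nat.cast_nonneg _
  have hir : (i : ℝ) ≤ kt := by exact_mod_cast hik
  have hia : (i : ℝ) < a := by linarith
  obtain ⟨Q, hQ⟩ : ∃ Q, Q = (a - i) * E / a := ⟨_, rfl⟩
  have hQ0 : 0 < Q := by
    rw [hQ]
    have : 0 < a - i := by linarith
    positivity
  obtain ⟨al, hal⟩ : ∃ al, al = κ / (2 * Q) := ⟨_, rfl⟩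
  have hal0 : 0 < al := by
    rw [hal]
    positivity
  have halQ : al * Q = κ / 2 := by
    rw [hal]
    field_simp
  have hd0 : 0 < dt al := by
    rw [hal, hQ]
    exact hdt
  obtain ⟨T, hT⟩ : ∃ T, T = dt al * Q / 16 := ⟨_, rfl⟩
  have hT0 : 0 < T := by
    rw [hT]
    positivity
  obtain ⟨tol, htol, H⟩ := dead_all (K := K) (εh := εh) (dh := dh) (i := i) ha hkt hka hkK hm0 hE
    hεE hdh hM (kt - i) T hT0
  refine ⟨min (min tol 1) (min (T / 2) (κ / 4)), by positivity, ?_⟩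
  intro m S c r b sn γ s U Qp x N u η θ φ B hη0 hη hφ hN hTie
  have g1 : η ≤ tol := hη.trans ((min_le_left _ _).trans (min_le_left _ _))
  have g2 : η ≤ 1 := hη.trans ((min_le_left _ _).trans (min_le_right _ _))
  have g3 : η ≤ T / 2 := hη.trans ((min_le_right _ _).trans (min_le_left _ _))
  have g4 : η ≤ κ / 4 := hη.trans ((min_le_right _ _).trans (min_le_right _ _))
  have hu0 := B.u0
  obtain ⟨C₀, htm⟩ := B.tm
  obtain ⟨Z, hZ⟩ : ∃ Z, Z = m0 * E + M + E := ⟨_, rfl⟩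
  have H := H B hη0 g1
  rw [← hZ] at hN H
  have hl2 : Real.log 2 ≤ 1 := by
    have := Real.log_two_lt_d9
    linarith
  have hNZ : 2 * ((kt - i) * Z) + Z ≤ N := by
    refine le_trans ?_ hN
    have h1 : (kt - i) * Z ≤ kt * Z := Nat.mul_le_mul_right _ (Nat.sub_le _ _)
    have h2 : (2 * kt + 1) * Z = 2 * (kt * Z) + Z := by ring
    omega
  obtain ⟨n, hn⟩ : ∃ n, n = (kt - i) * Z + m0 * E := ⟨_, rfl⟩
  have hn1 : m0 * E ≤ n := by omega
  have hn2 : n + E ≤ N := by omega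
  have hnN' : n ≤ N := by omega
  have hdd : ∀ l, i < l → l ≤ K + 2 →
      Fcx S (x (n - m0 * E)) Qp (qu m c r b sn l
        ((a - l) * (x (n - m0 * E) - b) + a * (m0 + 1) * (E * u) + s)) (T * u) ∧
      Fcx S (x (n - m0 * E)) Qp (qn m c r b sn γ l
        ((a - l) * (x (n - m0 * E) - b) + a * (m0 + 1) * (E * u))) (T * u) := fun l hl hlK =>
    H l hlK hl (by omega) _ (by omega) (by omega)
  obtain ⟨δ, hδE⟩ : ∃ δ, δ = dt al := ⟨_, rfl⟩
  rw [← hδE] at hT hd0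
  have hq : (a - i) * (E * u) / a = Q * u := by
    rw [hQ]
    ring
  have haq : a * (Q * u) = (a - i) * (E * u) := by
    rw [hQ]
    field_simp
  have hQu : 0 < Q * u := by positivity
  have hδQ : 0 < δ * (Q * u) := by positivity
  have hTu : T * u < δ * (Q * u) / 8 := by
    rw [hT]
    have h3 : δ * Q / 16 * u = δ * (Q * u) / 16 := by ring
    rw [h3]
    linarith
  have hηu : 0 ≤ η * u := by positivity
  have hηT : η * u ≤ T * u / 2 := by
    have := mul_le_mul_of_nonneg_right g3 hu0.le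
    linarith
  have hslog : s * Real.log 2 ≤ η * u := by
    have := mul_le_mul B.s1 hl2 (Real.log_nonneg one_le_two) hηu
    linarith
  have F := step_fc B.toBoxD ha hm0 hE g2 (by linarith) hn1 hnN' hdd hTu
  rw [hq] at F
  obtain ⟨f1, f2, f3, f4⟩ := F
  have ht1 : x (n + 1) - x n = u := by
    rw [B.df (Nat.le_add_right _ _) (by omega), Nat.add_sub_cancel_left]
    simp
  have hto : x (n + E) - x n = E * u := by
    rw [B.df (Nat.le_add_right _ _) hn2, Nat.add_sub_cancel_left]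
  have hxo : (a - i) * (x (n + E) - b) = (a - i) * (x n - b) + a * (Q * u) := by
    rw [haq, ← hto]
    ring
  have hB := hTie n hn1 hn2
  rw [hq, ← hQ, ← hal, ← hδE] at hB
  refine hB (fun l hl hlj => (f1 l hl hlj).mono (by linarith)) ?_
    (fun l hl hlj => (f2 l hl hlj).mono (by linarith)) ?_ (fun l hl hlK => f3 l hl hlK)
    (fun l hl hlK => f4 l hl hlK) ?_ ?_
  · refine ((B.nu n hnN' i (by omega) _ le_rfl).dg htm (g' := s) (c' := 2 * (η * u)) (by linarith)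
      B.s0 (by linarith) : Fcx S (x n) Qp (qu m c r b sn i ((a - i) * (x n - b) + s)) _).x ?_
    linarith
  · exact (B.nn n hnN' i (by omega) _ le_rfl).x (by linarith)
  · have h3 := B.ip i hi hik (n - m0 * E) n (n + E) (Nat.sub_le _ _) (Nat.le_add_right _ _) hn2
    rw [hxo] at h3
    exact h3.mono (by linarith)
  · have h3 := B.va i hi hik n (n + 1) (Nat.le_add_right _ _) (by omega)
    rw [ht1] at h3
    refine h3.dg htm ?_ ?_
    · have h7 : (a - i) * u ≤ εt * (a * (Q * u)) := by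
        rw [haq]
        have h8 : 0 ≤ (a - i) * u := mul_nonneg (by linarith) hu0.le
        have h9 := mul_le_mul_of_nonneg_right hεt h8
        have h10 : εt * ((a - i) * (E * u)) = εt * E * ((a - i) * u) := by ring
        linarith
      have h8 : (a - i) * (x (n + 1) - b) = (a - i) * (x n - b) + (a - i) * u := by
        rw [← ht1]
        ring
      rw [h8]
      linarith [B.s0]
    · have h7 := mul_le_mul_of_nonneg_right hφ hu0.le
      have h8 := mul_le_mul_of_nonneg_right g4 hu0.le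
      have h9 : al * (Q * u) = κ / 2 * u := by
        rw [← halQ]
        ring
      rw [h9]
      have h10 : 0 < κ * u := by positivity
      linarith

/-- **The rate of the order** `1` **is small** on a sub-box with hops and ties of all orders. -/
theorem box_main' {K kt m0 E M : ℕ} {a : ℝ} {εh : ℕ → ℝ} {dh : ℕ → ℝ → ℝ} {εt : ℕ → ℝ}
    {dt : ℕ → ℝ → ℝ} (ha : 0 < a) (hkt : (kt : ℝ) < a) (hka : a ≤ kt + 1) (hkK : kt ≤ K + 2)
    (hm0 : a + 1 ≤ m0) (hE : 1 ≤ E) (hεE : ∀ j, 1 ≤ j → j ≤ kt → 1 ≤ εh j * E)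
    (hdh : ∀ j al, 1 ≤ j → j ≤ kt → 0 < al → 0 < dh j al)
    (hM : a * (m0 + 1) * E ≤ (a - kt) * M) (hεt : ∀ i, 1 ≤ i → i ≤ kt → 1 ≤ εt i * E)
    (hdt : ∀ i al, 1 ≤ i → i ≤ kt → 0 < al → 0 < dt i al) (hk1 : 1 ≤ kt) (κ : ℝ) (hκ : 0 < κ) :
    ∃ alf : ℕ → ℝ, (∀ i, 1 ≤ i → i ≤ kt → 0 < alf i) ∧ ∃ tol : ℝ, 0 < tol ∧
    ∀ {m : ℕ} {S : PCl m} {c : ℕ → Fin m} {r : ℕ} {b : ℝ} {sn : ℕ → ℝ → ℝ} {γ s : ℝ}
    {U : Type} {Qp : Qt m U} {x : ℕ → ℝ} {N : ℕ} {u η : ℝ} {θ : ℕ → ℕ → ℕ → ℝ} {φ : ℕ → ℝ},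
    BoxD S c r K kt a b sn γ s Qp x N u η θ φ → 0 ≤ η → η ≤ tol →
    a * (m0 + 1) * (E * u) + s ≤ x 0 - b →
    (kt + 1 ≤ K + 2 → ∀ n ≤ N, Fcx S (x n) Qp (qu m c r b sn (kt + 1)
      ((a - (kt + 1 : ℕ)) * (x n - b) + a * (m0 + 1) * (E * u) + s)) (tol * u)) →
    (kt + 1 ≤ K + 2 → ∀ n ≤ N, Fcx S (x n) Qp (qn m c r b sn γ (kt + 1)
      ((a - (kt + 1 : ℕ)) * (x n - b) + a * (m0 + 1) * (E * u))) (tol * u)) →
    φ (kt + 1) ≤ tol → (2 * kt + 1) * (m0 * E + M + E) ≤ N →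
    (∀ j, 1 ≤ j → j ≤ kt → ∀ n, m0 * E ≤ n → n + E ≤ N → ∀ al : ℝ, 0 < al →
      HopB S c r K a b sn γ s Qp j (x (n - m0 * E)) (x n) (a * ((a - j) * (E * u) / a)) (εh j)
        ((a - j) * (E * u) / a) al (dh j al)) →
    (∀ i, 1 ≤ i → i ≤ kt → ∀ n, m0 * E ≤ n → n + E ≤ N →
      TieB S c r K a b sn γ s Qp i (x (n - m0 * E)) (x n) (a * ((a - i) * (E * u) / a)) (εt i)
        ((a - i) * (E * u) / a) (alf i) (dt i (alf i))) → φ 1 < κ := by
  have hE0 : (0 : ℝ) < E := by exact_mod_cast hE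
  have hQ0 : ∀ i : ℕ, i ≤ kt → 0 < 2 * ((a - i) * E / a) := fun i hi => by
    have h1 : (i : ℝ) ≤ kt := by exact_mod_cast hi
    have h2 : 0 < a - i := by linarith only [h1, hkt]
    positivity
  have H := fun (i : ℕ) (hi : 1 ≤ i ∧ i ≤ kt) (κ : ℝ) (hκ : 0 < κ) =>
    box_false' (K := K) (kt := kt) (m0 := m0) (E := E) (M := M) (i := i) (a := a) (εh := εh)
      (dh := dh) (εt := εt i) (dt := dt i) ha hkt hka hkK hm0 hE
      (fun j h1 h2 => hεE j (by omega) h2) (fun j al h1 h2 h3 => hdh j al (by omega) h2 h3) hM hi.1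
      hi.2 (hεt i hi.1 hi.2) κ hκ (hdt i _ hi.1 hi.2 (div_pos hκ (hQ0 i hi.2)))
  choose! tf htf Hf using H
  obtain ⟨kp, hkp⟩ : ∃ kp : ℕ → ℝ, kp = fun n => Nat.rec κ
    (fun i y => min (tf (i + 1) (y / 2)) (y / 2)) n := ⟨_, rfl⟩
  have k0 : kp 0 = κ := by
    rw [hkp]
    rfl
  have ks : ∀ i, kp (i + 1) = min (tf (i + 1) (kp i / 2)) (kp i / 2) := fun i => by rw [hkp]
  have kpos : ∀ i, i ≤ kt → 0 < kp i := by
    intro i
    induction i with
    | zero =>
      intro _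
      rw [k0]
      exact hκ
    | succ i ih =>
      intro hi
      rw [ks]
      have h1 := ih (by omega)
      exact lt_min (htf (i + 1) ⟨by omega, hi⟩ _ (half_pos h1)) (half_pos h1)
  have kd : ∀ i < kt, kp (i + 1) ≤ kp i / 2 := fun i _ => by
    rw [ks]
    exact min_le_right _ _
  have kt' : ∀ i < kt, kp (i + 1) ≤ tf (i + 1) (kp i / 2) := fun i _ => by
    rw [ks]
    exact min_le_left _ _
  have kan : ∀ i j, i ≤ j → j ≤ kt → kp j ≤ kp i := by
    intro i j hij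
    induction j, hij using Nat.le_induction with
    | base => exact fun _ => le_rfl
    | succ j hij ih =>
      intro hj
      have h1 := kd j (by omega)
      have h2 := kpos j (by omega)
      have h3 := ih (by omega)
      linarith only [h1, h2, h3]
  refine ⟨fun i => kp (i - 1) / 2 / (2 * ((a - i) * E / a)), fun i h1 h2 =>
    div_pos (half_pos (kpos (i - 1) (by omega))) (hQ0 i h2), kp kt, kpos kt le_rfl, ?_⟩
  intro m S c r b sn γ s U Qp x N u η θ φ B hη0 hη deep tu tn hφk hN hH hT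
  have hu0 := B.u0
  -- all rates
  have key : ∀ n j, 1 ≤ j → j ≤ kt → kt ≤ j + n → φ j < kp (j - 1) := by
    intro n
    induction n with
    | zero =>
      intro j h1 h2 h3
      obtain rfl : j = kt := by omega
      by_contra hc
      rw [not_lt] at hc
      obtain ⟨i, rfl⟩ : ∃ i, j = i + 1 := ⟨j - 1, by omega⟩
      rw [Nat.add_sub_cancel] at hc
      have ht := kt' i (by omega)
      have hd := kd i (by omega)
      have hp := kpos i (by omega)
      have hB := Pool.AB18.bxd_ht B hη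
      refine Hf (i + 1) ⟨h1, h2⟩ (kp i / 2) (half_pos hp) (BoxH.mk hB deep tu tn
        (fun l h4 h5 => absurd h4 (by omega)) (fun j h4 h5 => absurd h4 (by omega)))
        (hη0.trans hη) ht (by linarith only [hc, hφk, hd]) hN (fun n h4 h5 =>
          hT (i + 1) h1 h2 n h4 h5)
    | succ n ih =>
      intro j h1 h2 h3
      by_cases h4 : kt ≤ j + n
      · exact ih j h1 h2 h4
      by_contra hc
      rw [not_lt] at hc
      obtain ⟨i, rfl⟩ : ∃ i, j = i + 1 := ⟨j - 1, by omega⟩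
      rw [Nat.add_sub_cancel] at hc
      have ht := kt' i (by omega)
      have hd := kd i (by omega)
      have hp := kpos i (by omega)
      have hηj : kp kt ≤ kp (i + 1) := kan (i + 1) kt (by omega) le_rfl
      have hηu : kp kt * u ≤ kp (i + 1) * u := mul_le_mul_of_nonneg_right hηj hu0.le
      have hB := Pool.AB18.bxd_ht B (hη.trans hηj)
      have h5 := ih (i + 2) (by omega) (by omega) (by omega)
      have e5 : i + 2 - 1 = i + 1 := by omega
      rw [e5] at h5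
      have h6 : (i : ℕ) + 1 + 1 = i + 2 := rfl
      refine Hf (i + 1) ⟨h1, h2⟩ (kp i / 2) (half_pos hp) (BoxH.mk hB deep
        (fun h7 n hn => FewC.mono hηu (tu h7 n hn)) (fun h7 n hn => FewC.mono hηu (tn h7 n hn))
        (fun l h7 h8 => ?_) (fun j h7 h8 => hH j (by omega) h8))
        ((kpos kt le_rfl).le.trans hηj) ht (by rw [h6]; linarith only [hc, h5, hd]) hN
        (fun n h7 h8 => hT (i + 1) h1 h2 n h7 h8)
      have h9 := ih l (by omega) h8 (by omega)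
      have h10 := kan (i + 1) (l - 1) (by omega) (by omega)
      linarith only [h9, h10]
  have h1 := key kt 1 le_rfl hk1 (by omega)
  rw [Nat.sub_self, k0] at h1
  exact h1

end Pool.AB63
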