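import Pool.Agent.H46.TE.Cls
import Pool.Agent.H18.PN.Jhi

/-!
# The labels of one early window

`FmB`: a family of pairs of labels at the window `w` whose members are the labels of the places
`c r`, `c (r + 1)` of one label of the chain closed at the early window `b ≤ w`; the second label of the
given family `Ψ₀` at the window `w` is the early label plus a closed polynomial over the places before
`r`. The context is the near path of the places before `r` over the labels of `b`: coefficients, in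
the unit of the window `w`, the coefficient `j` of the place `l` to `X l j` digits. `FmM`: the code is
maximal.
-/

set_option autoImplicit false

namespace Pool.AB63

open Finset Real MvPolynomial
open Pool.Agent.H49.Ent Pool.Agent.H32.Dense Pool.STK Pool.KA Pool.KSAT Pool.K2S Pool.PB Pool.GEN
open Pool.S6C Pool.RCD Pool.LA91 Pool.OWN68 Pool.AJW Pool.AJX Pool.CHT Pool.PN18
open Pool.GRD (LbP)

variable {m : ℕ}

/-- The code of the near path: the coefficients of the own paths of the places before `r`, in the unit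
of the window `w`. -/
noncomputable def pcd {J : ℕ} (F : Fam m J) (c : ℕ → Fin m) (r K : ℕ) (w : ℝ) (X : ℕ → ℕ → ℝ)
    {V : Type} (z' : LnT F → V) (g : V → ℕ → MvPolynomial (Option (Fin m)) ℝ) (x : LnT F) :
    ℕ → ℕ → ℤ :=
  fun l j => if l < r ∧ j < K + 3 then
    ⌊jr F ⌊w * J⌋₊ (2 ^ (X l j * J)) (c l) z' (fun v => g v l) j x⌋ else 0

/-- **The family over the labels of the early window** `b`. -/
def FmB (Ψ₀ : Fm2 m) (c : ℕ → Fin m) (r K : ℕ) (e : ℝ) (E : ℕ → ℝ) (b w : ℝ) (rd p : ℕ → ℝ)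
    (X : ℕ → ℕ → ℝ) : Fm2 m := fun J F A V C z z' G₁ G₂ cc =>
  ∃ (V₀ C₀ V₁ : Type) (z₀ : PtT F → V₀) (z₀' : LnT F → V₀)
    (P₁ P₂ : V₀ → MvPolynomial (Option (Fin m)) ℝ) (c₀ : LnT F → C₀) (z₁ : PtT F → V₁)
    (z₁' : LnT F → V₁) (g₁ : V₁ → ℕ → MvPolynomial (Option (Fin m)) ℝ)
    (H : V₀ → MvPolynomial (Option (Fin m)) ℝ) (φ₀ : V → V₀) (φ₁ : V → V₁),
    Ψ₀ J F A V₀ C₀ z₀ z₀' P₁ P₂ c₀ ∧
    LbX F c 0 (r + 2) K e E b rd p A z₁ z₁' g₁ ∧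
    (∀ ω, A ω → z (ptr F J ω) = z' (slam F ⌊w * J⌋₊ ω)) ∧
    (∀ ω, φ₀ (z' (slam F ⌊w * J⌋₊ ω)) = z₀' (slam F ⌊w * J⌋₊ ω)) ∧
    (∀ ω, φ₁ (z' (slam F ⌊w * J⌋₊ ω)) = z₁' (slam F ⌊b * J⌋₊ ω)) ∧
    G₁ = (fun v => g₁ (φ₁ v) r) ∧ G₂ = (fun v => g₁ (φ₁ v) (r + 1)) ∧
    (∀ v, (H v).totalDegree ≤ K) ∧
    (∀ v, ∀ x x' : Option (Fin m) → ℝ, x none = x' none →
      (∀ i ∈ (range r).image c, x (some i) = x' (some i)) → eval x (H v) = eval x' (H v)) ∧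
    (∀ ω, A ω → P₂ (z₀' (slam F ⌊w * J⌋₊ ω)) =
      g₁ (z₁' (slam F ⌊b * J⌋₊ ω)) (r + 1) + H (z₀' (slam F ⌊w * J⌋₊ ω))) ∧
    (∃ φ : C → (ℕ → ℕ → ℤ), ∀ x, pcd F c r K w X z' (fun v => g₁ (φ₁ v)) x = φ (cc x)) ∧
    ∃ ψ : V × (ℕ → ℕ → ℤ) → C, ∀ x,
      cc x = ψ (z' x, pcd F c r K w X z' (fun v => g₁ (φ₁ v)) x)

/-- **The family with maximal codes.** -/
def FmM (Ψ : Fm2 m) (w k : ℝ) : Fm2 m := fun J F A V C z z' G₁ G₂ cc =>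
  Ψ J F A V C z z' G₁ G₂ cc ∧
    Mx (fun J F => ptr F J) (vg w) k F A (fun ω => z' (slam F ⌊w * J⌋₊ ω))

section

variable {Ψ₀ : Fm2 m} {c : ℕ → Fin m} {r K : ℕ} {e : ℝ} {E : ℕ → ℝ} {b w : ℝ} {rd p : ℕ → ℝ}
  {X : ℕ → ℕ → ℝ}

/-- The family is hereditary. -/
theorem FmB.hs (hΨ : ∀ (J : ℕ) (F : Fam m J) (A B : F.Ω → Prop) (V C : Type) (z : PtT F → V)
      (z' : LnT F → V) (G₁ G₂ : V → MvPolynomial (Option (Fin m)) ℝ) (c : LnT F → C), Sub B A →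
      Ψ₀ J F A V C z z' G₁ G₂ c → Ψ₀ J F B V C z z' G₁ G₂ c)
    (J : ℕ) (F : Fam m J) (A B : F.Ω → Prop) (V C : Type) (z : PtT F → V)
    (z' : LnT F → V) (G₁ G₂ : V → MvPolynomial (Option (Fin m)) ℝ) (cc : LnT F → C) (hB : Sub B A)
    (H : FmB Ψ₀ c r K e E b w rd p X J F A V C z z' G₁ G₂ cc) :
    FmB Ψ₀ c r K e E b w rd p X J F B V C z z' G₁ G₂ cc := by
  obtain ⟨V₀, C₀, V₁, z₀, z₀', P₁, P₂, c₀, z₁, z₁', g₁, H, φ₀, φ₁, h1, h2, h3, h4, h5, h6, h7, h8,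
    h9, h10, h11, h12⟩ := H
  exact ⟨V₀, C₀, V₁, z₀, z₀', P₁, P₂, c₀, z₁, z₁', g₁, H, φ₀, φ₁,
    hΨ J F A B V₀ C₀ z₀ z₀' P₁ P₂ c₀ hB h1, h2.sub hB, fun ω hω => h3 ω (hB ω hω), h4, h5, h6, h7,
    h8, h9, fun ω hω => h10 ω (hB ω hω), h11, h12⟩

/-- The degrees, the code. -/
theorem FmB.lab (J : ℕ) (F : Fam m J) (A : F.Ω → Prop) (V C : Type) (z : PtT F → V)
    (z' : LnT F → V) (G₁ G₂ : V → MvPolynomial (Option (Fin m)) ℝ) (cc : LnT F → C)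
    (H : FmB Ψ₀ c r K e E b w rd p X J F A V C z z' G₁ G₂ cc) :
    (∀ v, (G₁ v).totalDegree ≤ K + 1) ∧ (∀ v, (G₂ v).totalDegree ≤ K + 1) ∧
      ∀ ω, A ω → z (ptr F J ω) = z' (slam F ⌊w * J⌋₊ ω) := by
  obtain ⟨V₀, C₀, V₁, z₀, z₀', P₁, P₂, c₀, z₁, z₁', g₁, H, φ₀, φ₁, h1, h2, h3, h4, h5, rfl, rfl,
    h8, h9, h10, h11, h12⟩ := H
  exact ⟨fun v => ((h2 r (Nat.zero_le _) (by omega)).deg (φ₁ v)).trans (Nat.le_succ K),
    fun v => ((h2 (r + 1) (Nat.zero_le _) (by omega)).deg (φ₁ v)).trans (Nat.le_succ K), h3⟩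

end

end Pool.AB63
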