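import Pool.Agent.H63.AB.Fam
import Pool.Agent.H12.LPK.Hup

/-!
# The labels of one early window: existence, the jets

`fmb_ex`, `fmm_ex`: the members exist. `qj_of`: the jets of a closed label are a natural quantity.
`FmB.qu`, `FmB.qn`: the jets of the members.
-/

set_option autoImplicit false

namespace Pool.AB63

open Finset Real MvPolynomial
open Pool.Agent.H49.Ent Pool.Agent.H32.Dense Pool.STK Pool.KA Pool.KSAT Pool.K2S Pool.PB Pool.GEN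
open Pool.S6C Pool.RCD Pool.LA91 Pool.OWN68 Pool.AJW Pool.AJX Pool.CHT Pool.PN18 Pool.LPK12
open Pool.GRD (LbP)

variable {m : ℕ}

/-- **The jets of a closed label are a natural quantity.** -/
theorem qj_of (m K j : ℕ) (N E R w p e : ℝ) : ∃ M J₁ : ℕ, ∀ J ≥ J₁,
    ∀ (F : Fam m J) (I : Finset (Fin m)) (k : Fin m) (A : F.Ω → Prop) (V : Type) (z : PtT F → V)
      (z' : LnT F → V) (G : V → MvPolynomial (Option (Fin m)) ℝ),
      LbOK F I k K ⌊E * J⌋₊ J ⌊w * J⌋₊ ⌊R * J⌋₊ ⌊(p - e) * J⌋₊ A z z' G → ∀ u : F.Ω → ℤ,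
      (∀ ω, A ω → u ω = ⌊(2 : ℝ) ^ (N * J) * ojet F k j (G (z' (slam F ⌊w * J⌋₊ ω))) ω⌋) →
      (qJet m I k j w p N).P M e J F A u := by
  obtain ⟨B, hB, JA, hbig⟩ := big_jet m K j N E R
  obtain ⟨M, hM⟩ : ∃ M : ℕ, M = max K ⌈B + 2⌉₊ := ⟨_, rfl⟩
  have hM1 : B + 2 ≤ M := by
    refine (Nat.le_ceil _).trans ?_
    rw [hM]
    exact_mod_cast le_max_right _ _
  refine ⟨M, JA + 3, fun J hJ F I k A V z z' G hl u hu => ⟨?_, V, z, z', G, ?_, hu⟩⟩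
  · have hJ0 : (0 : ℝ) ≤ J := Nat.cast_nonneg J
    have hJ3 : (3 : ℝ) ≤ J := by exact_mod_cast (by omega : 3 ≤ J)
    have hl2 : Real.log 2 ≤ 1 := by
      have := Real.log_two_lt_d9
      linarith
    obtain ⟨T, hT⟩ : ∃ T : ℝ, T = 2 ^ (B * J) := ⟨_, rfl⟩
    have hT1 : 1 ≤ T := by
      rw [hT]
      exact Real.one_le_rpow (by norm_num) (mul_nonneg hB hJ0)
    have h1 := cnt_le_of_abs (p := F.p) (u := u) (A := A) (B := T + 1) (by linarith) (by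
      intro ω hω
      have h2 := hbig J (by omega) F I k w _ A V z z' G hl ω hω
      rw [← hT] at h2
      rw [hu ω hω]
      obtain ⟨x, hx⟩ : ∃ x, x = (2 : ℝ) ^ (N * J) * ojet F k j (G (z' (slam F ⌊w * J⌋₊ ω))) ω :=
        ⟨_, rfl⟩
      rw [← hx] at h2 ⊢
      have h4 := Int.floor_le x
      have h5 := Int.lt_floor_add_one x
      have h6 := abs_le.1 h2
      rw [abs_le]
      constructor <;> linarith [h6.1, h6.2])
    refine h1.trans ?_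
    have h2 : 2 * (T + 1) + 1 ≤ 5 * T := by linarith
    refine h2.trans ?_
    have e5 : (5 : ℝ) ≤ Real.exp (2 * J) := by
      have := Real.add_one_le_exp (2 * (J : ℝ))
      linarith
    have e6 : T ≤ Real.exp (B * J) := by
      rw [hT, Real.rpow_def_of_pos two_pos]
      refine Real.exp_le_exp.2 ?_
      have : 0 ≤ B * J := mul_nonneg hB hJ0
      have := mul_le_mul_of_nonneg_right hl2 this
      linarith
    calc 5 * T ≤ Real.exp (2 * J) * Real.exp (B * J) :=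
          mul_le_mul e5 e6 (by linarith) (Real.exp_pos _).le
      _ = Real.exp ((B + 2) * J) := by
          rw [← Real.exp_add]
          ring_nf
      _ ≤ Real.exp (M * J) := Real.exp_le_exp.2 (mul_le_mul_of_nonneg_right hM1 hJ0)
  · exact LbP.mono (LbP.of hl) (Finset.Subset.refl _) (by rw [hM]; exact le_max_left _ _) le_rfl

section

variable {Ψ₀ : Fm2 m} {c : ℕ → Fin m} {r K : ℕ} {e : ℝ} {E : ℕ → ℝ} {b w : ℝ} {rd p : ℕ → ℝ}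
  {X : ℕ → ℕ → ℝ}

/-- **The jets of the first label.** -/
theorem FmB.qu (Ψ₀ : Fm2 m) (c : ℕ → Fin m) (r K : ℕ) (e : ℝ) (E : ℕ → ℝ) (b w : ℝ)
    (rd p : ℕ → ℝ) (X : ℕ → ℕ → ℝ) (N : ℝ) (j : ℕ) :
    ∃ M J₁ : ℕ, ∀ J ≥ J₁, ∀ (F : Fam m J) (A : F.Ω → Prop) (V C : Type) (z : PtT F → V)
      (z' : LnT F → V) (G₁ G₂ : V → MvPolynomial (Option (Fin m)) ℝ) (cc : LnT F → C),
      FmB Ψ₀ c r K e E b w rd p X J F A V C z z' G₁ G₂ cc →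
      (qJet m ((range r).image c) (c r) j b (p r) N).P M e J F A
        (oj F (c r) z' G₁ ⌊w * J⌋₊ N j) := by
  obtain ⟨M, J₁, H⟩ := qj_of m K j N (E r + e) (rd r + e) b (p r) e
  refine ⟨M, J₁, fun J hJ F A V C z z' G₁ G₂ cc h => ?_⟩
  obtain ⟨V₀, C₀, V₁, z₀, z₀', P₁, P₂, c₀, z₁, z₁', g₁, Hp, φ₀, φ₁, h1, h2, h3, h4, h5, rfl, rfl,
    h8, h9, h10, h11, h12⟩ := h
  refine H J hJ F _ _ A V₁ z₁ z₁' (fun v => g₁ v r) (h2 r (Nat.zero_le _) (by omega)) _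
    fun ω hω => ?_
  show ⌊(2 : ℝ) ^ (N * J) * ojet F (c r) j (g₁ (φ₁ (z' (slam F ⌊w * J⌋₊ ω))) r) ω⌋ = _
  rw [h5 ω]

/-- **The jets of the second label.** -/
theorem FmB.qn (Ψ₀ : Fm2 m) (c : ℕ → Fin m) (r K : ℕ) (e : ℝ) (E : ℕ → ℝ) (b w : ℝ)
    (rd p : ℕ → ℝ) (X : ℕ → ℕ → ℝ) (N : ℝ) (j : ℕ) :
    ∃ M J₁ : ℕ, ∀ J ≥ J₁, ∀ (F : Fam m J) (A : F.Ω → Prop) (V C : Type) (z : PtT F → V)
      (z' : LnT F → V) (G₁ G₂ : V → MvPolynomial (Option (Fin m)) ℝ) (cc : LnT F → C),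
      FmB Ψ₀ c r K e E b w rd p X J F A V C z z' G₁ G₂ cc →
      (qJet m ((range (r + 1)).image c) (c (r + 1)) j b (p (r + 1)) N).P M e J F A
        (oj F (c (r + 1)) z' G₂ ⌊w * J⌋₊ N j) := by
  obtain ⟨M, J₁, H⟩ := qj_of m K j N (E (r + 1) + e) (rd (r + 1) + e) b (p (r + 1)) e
  refine ⟨M, J₁, fun J hJ F A V C z z' G₁ G₂ cc h => ?_⟩
  obtain ⟨V₀, C₀, V₁, z₀, z₀', P₁, P₂, c₀, z₁, z₁', g₁, Hp, φ₀, φ₁, h1, h2, h3, h4, h5, rfl, rfl,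
    h8, h9, h10, h11, h12⟩ := h
  refine H J hJ F _ _ A V₁ z₁ z₁' (fun v => g₁ v (r + 1)) (h2 (r + 1) (Nat.zero_le _) (by omega))
    _ fun ω hω => ?_
  show ⌊(2 : ℝ) ^ (N * J) * ojet F (c (r + 1)) j
    (g₁ (φ₁ (z' (slam F ⌊w * J⌋₊ ω))) (r + 1)) ω⌋ = _
  rw [h5 ω]

/-- **The members exist.** -/
theorem fmb_ex {S : PCl m} {K₁ Kc : ℕ} {E₀ R₀ P₀ e₀ ec : ℝ} {Ec rc pc : ℕ → ℝ} (hbw : b ≤ w)
    (hw : w ≤ 1)
    (hcl : ∀ (J : ℕ) (F : Fam m J) (A : F.Ω → Prop) (V C : Type) (z : PtT F → V) (z' : LnT F → V)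
      (G₁ G₂ : V → MvPolynomial (Option (Fin m)) ℝ) (c : LnT F → C), Ψ₀ J F A V C z z' G₁ G₂ c →
      ∀ ω, A ω → z (ptr F J ω) = z' (slam F ⌊w * J⌋₊ ω))
    (hΨ : Bas S (fun J F A => ∃ (V C : Type) (z : PtT F → V) (z' : LnT F → V)
      (G₁ G₂ : V → MvPolynomial (Option (Fin m)) ℝ) (cc : LnT F → C), Ψ₀ J F A V C z z' G₁ G₂ cc))
    (hd : Dcp2 Ψ₀ ((range r).image c) ((range (r + 1)).image c) (c (r + 1)) K₁ b w E₀ R₀ P₀ e₀)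
    (hc : Bas S (fun J F A => ∃ (V₁ : Type) (z : PtT F → V₁) (z' : LnT F → V₁)
      (g : V₁ → ℕ → MvPolynomial (Option (Fin m)) ℝ),
      LbX F c 0 (r + 1) Kc ec Ec b rc pc A z z' g))
    (h1 : K₁ ≤ K) (h2 : Kc ≤ K) (h3 : ∀ i < r + 1, Ec i + ec ≤ E i + e)
    (h4 : ∀ i < r + 1, rc i + ec ≤ rd i + e) (h5 : ∀ i < r + 1, p i - e ≤ pc i - ec)
    (h6 : E₀ ≤ E (r + 1) + e) (h7 : R₀ ≤ rd (r + 1) + e) (h8 : p (r + 1) - e ≤ P₀ - e₀) :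
    Bas S (fun J F A => ∃ (V C : Type) (z : PtT F → V) (z' : LnT F → V)
      (G₁ G₂ : V → MvPolynomial (Option (Fin m)) ℝ) (cc : LnT F → C),
      FmB Ψ₀ c r K e E b w rd p X J F A V C z z' G₁ G₂ cc) := by
  refine Bas.mono 0 (hΨ.and hc) ?_
  rintro J - F A ⟨⟨V₀, C₀, z₀, z₀', P₁, P₂, c₀, hP⟩, Vc, zc, zc', gc, hgc⟩
  obtain ⟨Vn, zn, zn', Gn, H, k1, k2, k3, k4⟩ := hd J F A V₀ C₀ z₀ z₀' P₁ P₂ c₀ hP
  obtain ⟨dn, hdn⟩ := vg_mono hbw hw J F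
  have hdn' : ∀ ω, dn (slam F ⌊w * J⌋₊ ω) = slam F ⌊b * J⌋₊ ω := fun ω => (hdn ω).symm
  have hJ0 : (0 : ℝ) ≤ J := Nat.cast_nonneg J
  obtain ⟨g₁, hg₁⟩ : ∃ g₁ : Vc × Vn → ℕ → MvPolynomial (Option (Fin m)) ℝ,
      g₁ = fun v l => if l = r + 1 then Gn v.2 else gc v.1 l := ⟨_, rfl⟩
  have gl : ∀ l, l ≠ r + 1 → ∀ v, g₁ v l = gc v.1 l := fun l hl v => by rw [hg₁]; simp [hl]
  have gn : ∀ v, g₁ v (r + 1) = Gn v.2 := fun v => by rw [hg₁]; simp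
  have fl : ∀ {x y : ℝ}, x ≤ y → ⌊x * J⌋₊ ≤ ⌊y * J⌋₊ := fun h =>
    Nat.floor_le_floor (mul_le_mul_of_nonneg_right h hJ0)
  refine ⟨V₀ × (Vc × Vn), ℕ → ℕ → ℤ, fun x => (z₀ x, (zc x, zn x)),
    fun s => (z₀' s, (zc' (dn s), zn' (dn s))), fun v => g₁ v.2 r, fun v => g₁ v.2 (r + 1),
    pcd F c r K w X (fun s => (z₀' s, (zc' (dn s), zn' (dn s))))
      (fun v : V₀ × (Vc × Vn) => g₁ v.2), V₀, C₀, Vc × Vn, z₀, z₀', P₁, P₂, c₀,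
    fun x => (zc x, zn x), fun s => (zc' s, zn' s), g₁, H, Prod.fst, Prod.snd, hP, ?_, ?_,
    fun _ => rfl, fun ω => ?_, rfl, rfl, fun v => (k2 v).trans h1, k3, fun ω hω => ?_,
    ⟨fun x => x, fun _ => rfl⟩, fun x => x.2, fun _ => rfl⟩
  · intro i _ hi
    rcases Nat.lt_succ_iff_lt_or_eq.1 hi with hi | rfl
    · have hne : i ≠ r + 1 := by omega
      have h := hgc i (Nat.zero_le _) hi
      refine ⟨fun v => ?_, fun v x x' a a' => ?_, fun ω hω => ?_, fun ω hω => ?_,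
        fun ω hω => ?_, fun ω hω x hx o => ?_⟩
      · show (g₁ v i).totalDegree ≤ K
        rw [gl i hne]
        exact (h.deg v.1).trans h2
      · show eval x (g₁ v i) = eval x' (g₁ v i)
        rw [gl i hne]
        exact h.dep v.1 x x' a a'
      · exact Prod.ext (h.cls ω hω) (k1.cls ω hω)
      · show |F.x ω (c i) - eval (bt F ω) (g₁ _ i)| ≤ _
        rw [gl i hne]
        exact ((h.mono (Finset.Subset.refl _) h2 (fl (h3 i hi)) (fl (h4 i hi)) (fl (h5 i hi))).pos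
          ω hω)
      · show |F.d ω (c i) - ∑ o, bd F ω o * eval (bt F ω) (pderiv o (g₁ _ i))| ≤ _
        rw [gl i hne]
        exact ((h.mono (Finset.Subset.refl _) h2 (fl (h3 i hi)) (fl (h4 i hi)) (fl (h5 i hi))).vel
          ω hω)
      · show |eval x (pderiv o (g₁ _ i))| ≤ _
        rw [gl i hne]
        exact ((h.mono (Finset.Subset.refl _) h2 (fl (h3 i hi)) (fl (h4 i hi)) (fl (h5 i hi))).lip
          ω hω x hx o)
    · have h := k1.mono (Finset.Subset.refl _) h1 (fl h6) (fl h7) (fl h8)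
      refine ⟨fun v => ?_, fun v x x' a a' => ?_, fun ω hω => ?_, fun ω hω => ?_,
        fun ω hω => ?_, fun ω hω x hx o => ?_⟩
      · show (g₁ v (r + 1)).totalDegree ≤ K
        rw [gn]
        exact h.deg v.2
      · show eval x (g₁ v (r + 1)) = eval x' (g₁ v (r + 1))
        rw [gn]
        exact h.dep v.2 x x' a a'
      · exact Prod.ext ((hgc 0 le_rfl (Nat.succ_pos r)).cls ω hω) (k1.cls ω hω)
      · show |F.x ω (c (r + 1)) - eval (bt F ω) (g₁ _ (r + 1))| ≤ _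
        rw [gn]
        exact h.pos ω hω
      · show |F.d ω (c (r + 1)) - ∑ o, bd F ω o * eval (bt F ω) (pderiv o (g₁ _ (r + 1)))| ≤ _
        rw [gn]
        exact h.vel ω hω
      · show |eval x (pderiv o (g₁ _ (r + 1)))| ≤ _
        rw [gn]
        exact h.lip ω hω x hx o
  · intro ω hω
    have a1 := (hgc 0 le_rfl (Nat.succ_pos r)).cls ω hω
    have a2 := k1.cls ω hω
    show (z₀ (ptr F J ω), (zc (ptr F J ω), zn (ptr F J ω))) =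
      (z₀' (slam F ⌊w * J⌋₊ ω), (zc' (dn (slam F ⌊w * J⌋₊ ω)), zn' (dn (slam F ⌊w * J⌋₊ ω))))
    rw [hdn' ω, a1, a2, hcl J F A V₀ C₀ z₀ z₀' P₁ P₂ c₀ hP ω hω]
  · show (zc' (dn (slam F ⌊w * J⌋₊ ω)), zn' (dn (slam F ⌊w * J⌋₊ ω))) =
      (zc' (slam F ⌊b * J⌋₊ ω), zn' (slam F ⌊b * J⌋₊ ω))
    rw [hdn' ω]
  · show P₂ (z₀' (slam F ⌊w * J⌋₊ ω)) = g₁ (zc' (slam F ⌊b * J⌋₊ ω), zn' (slam F ⌊b * J⌋₊ ω))
      (r + 1) + H (z₀' (slam F ⌊w * J⌋₊ ω))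
    rw [gn]
    exact k4 ω hω

/-- **The members with maximal codes exist.** -/
theorem fmm_ex {S : PCl m} {C₀ : ℝ} (htm : TmC S C₀) {k : ℝ} (hk : 0 ≤ k)
    (h : Bas S (fun J F A => ∃ (V C : Type) (z : PtT F → V) (z' : LnT F → V)
      (G₁ G₂ : V → MvPolynomial (Option (Fin m)) ℝ) (cc : LnT F → C),
      FmB Ψ₀ c r K e E b w rd p X J F A V C z z' G₁ G₂ cc)) :
    Bas S (fun J F A => ∃ (V C : Type) (z : PtT F → V) (z' : LnT F → V)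
      (G₁ G₂ : V → MvPolynomial (Option (Fin m)) ℝ) (cc : LnT F → C),
      FmM (FmB Ψ₀ c r K e E b w rd p X) w k J F A V C z z' G₁ G₂ cc) := by
  refine Bas.mono 0 (h.and ((mxp_ex (S := S) (w := w) htm hk).and
    (Pool.GRW.tmc_bas htm one_pos))) ?_
  rintro J - F A ⟨⟨V, C, z, z', G₁, G₂, cc, h⟩, ⟨Y, y, y', hy, hM⟩, hA, -⟩
  obtain ⟨V₀, C₀, V₁, z₀, z₀', P₁, P₂, c₀, z₁, z₁', g₁, Hp, φ₀, φ₁, h1, h2, h3, h4, h5, rfl, rfl,
    h8, h9, h10, ⟨φ, h11⟩, ψ, h12⟩ := h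
  have h0 := (isLaw_cond F.isLaw hA).nonneg
  refine ⟨V × Y, C, fun x => (z x, y x), fun s => (z' s, y' s), fun v => g₁ (φ₁ v.1) r,
    fun v => g₁ (φ₁ v.1) (r + 1), cc, ⟨V₀, C₀, V₁, z₀, z₀', P₁, P₂, c₀, z₁, z₁', g₁, Hp,
    fun v => φ₀ v.1, fun v => φ₁ v.1, h1, h2, fun ω hω => Prod.ext (h3 ω hω) (hy ω hω), h4, h5,
    rfl, rfl, h8, h9, h10, ⟨φ, fun x => ?_⟩, fun v => ψ (v.1.1, v.2), fun x => ?_⟩, ?_, ?_⟩
  · rw [← h11 x]
    rfl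
  · rw [h12 x]
    rfl
  · refine Cl2.join ⟨⟨z, fun ω hω => (h3 ω hω).symm⟩, z', fun ω _ => rfl⟩ hM.1
  · intro V' x hx
    refine le_trans (CH_mono_cond h0 fun ω ω' _ _ hh => ?_) (hM.2 V' x hx)
    exact (Prod.ext_iff.mp hh).2

theorem FmM.le {k : ℝ} (J : ℕ) (F : Fam m J) (A : F.Ω → Prop) (V C : Type)
    (z : PtT F → V) (z' : LnT F → V) (G₁ G₂ : V → MvPolynomial (Option (Fin m)) ℝ)
    (cc : LnT F → C) {Ψ : Fm2 m} (H : FmM Ψ w k J F A V C z z' G₁ G₂ cc) :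
    Ψ J F A V C z z' G₁ G₂ cc := H.1

end

end Pool.AB63
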