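import Pool.Agent.H63.AB.Sto
import Pool.Agent.H63.AB.Stg
import Pool.Agent.H63.AB.Stm
import Pool.Agent.H18.AB.Row
import Pool.Agent.H18.AB.Bxr
import Pool.Agent.H91.FR.HtG

/-!
# The data of a step at a record

`npW_sub`: subclasses. `st_pair`: from the record `GrA`, the data `StC` of a step, the rows of the
pair and the cover of the family `FmM (FmB ..)`, in a subclass.
-/

set_option autoImplicit false

namespace Pool.AB63

open Finset Real MvPolynomial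
open Pool.Agent.H49.Ent Pool.Agent.H32.Dense Pool.STK Pool.KA Pool.KSAT Pool.K2S Pool.PB Pool.GEN
open Pool.S6C Pool.RCD Pool.LA91 Pool.OWN68 Pool.AJW Pool.AJX Pool.CHT Pool.PN18 Pool.LPK12
open Pool.TE46 Pool.PKG Pool.ALT Pool.RWB12 Pool.AB18 Pool.AB91
open Pool.GRD (LbP)
open Pool.LP30 (paQ)
open Pool.RJ28 (dgj dgj_lt dgj_st dgj_le)
open Pool.CR99 (PairE)

theorem npW_sub {m : ℕ} {S S' : PCl m} (hs : ∀ (τ : ℝ) (J : ℕ) (F : Fam m J) (A : F.Ω → Prop),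
    S'.St τ J F A → S.St τ J F A) {c : ℕ → Fin m} {r : ℕ} {sn : ℕ → ℝ → ℝ} {G : Set ℝ}
    {b w A D φ : ℝ} {v₀ : ℕ → ℝ} (h : NpW S c r sn G b w A D φ v₀) :
    NpW S' c r sn G b w A D φ v₀ :=
  { h with ch := Pool.LA91.ChG.sub hs h.ch }

section

variable {r D : ℕ} {S S₁ : PCl (r + 2)} {al : ℝ} {g₀ : ℝ → ℝ}
    {P : List (Fin (r + 2)) × Fin (r + 2) → ℝ → ℝ → ℝ} {θ : ℝ}
    {P₂ : ℕ → List (Fin (r + 2)) × Fin (r + 2) → ℝ → ℝ → ℝ} {θ₂ Eb e₂ : ℕ → ℝ}
    {c : ℕ → Fin (r + 2)} {Pt : ℝ → ℝ → ℝ} {rt : ℝ → ℝ} {h K₀ g : ℝ} {L T : ℕ → ℝ → ℝ → ℝ}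
    {Sl : ℕ → ℝ} {κ : ℕ → Kg} {G : Set ℝ} {S₀ N : ℕ} {A V : ℕ → ℝ} {S₂ N' : ℕ} {V' : ℕ → ℝ}
    {K' ε q t a e₀ ρ₀ π₀ μ el dl : ℝ} {k₀ : ℕ}

/-- **The data of a step** at a record, in a subclass: `StC`, the rows of the pair, the second label
at the window `w`, the cover. -/
theorem st_pair (hr : 1 ≤ r)
    (H : GrA r D S S₁ al g₀ P θ P₂ θ₂ Eb e₂ c Pt rt h K₀ g L T Sl κ G S₀ N A V S₂ N' V'
      K' ε q t a e₀ ρ₀ π₀ μ el dl k₀) {δ R τ Tn X φ kf ℓ e' ms : ℝ}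
    (n : PrN r a K₀ K' ε δ el dl R τ Tn X φ kf ℓ e' ms) {M : ℕ} {W : ℕ → ℝ}
    (w : PrW r N' V' K₀ τ Tn X ms M W) (hk₀ : (K₀ + τ) * q ≤ (1 / 2) ^ k₀)
    (hqμ : (2 * (a * R) + 4) * q ≤ μ / 4) (N₀ : ℕ) {K : ℕ} (hK : max D D * max 1 D ≤ K)
    {γ s A₁ Dr φ' : ℝ} {v₀ : ℕ → ℝ}
    (Np : NpW S₁ c r (fun l x => L l x x) G (t + -Tn * q) (t + -τ * q) A₁ Dr φ' v₀)
    (hγ : e' * q ≤ γ) (hγq : γ ≤ q / 8) (hs : 0 ≤ s)
    (hA : a * (t + -τ * q - (t + -Tn * q)) + a * (R * q) + s + γ ≤ A₁)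
    (hnX : ∀ l < r, nX r (fun l x => L l x x) (t + -τ * q) (X * q) l ≤
      L l (t + -Tn * q) (t + -Tn * q) + dgj A₁ Dr r l + 2 * Dr) (heD : e' * q ≤ Dr / 16) :
    ∃ S' : PCl (r + 2), S'.Ne ∧
      (∀ (τ : ℝ) (J : ℕ) (F : Fam (r + 2) J) (A : F.Ω → Prop), S'.St τ J F A → S₁.St τ J F A) ∧
      ∃ (Ψ₀ : Fm2 (r + 2)) (E₂ r₂ : ℝ),
      (∀ (J : ℕ) (F : Fam (r + 2) J) (A B : F.Ω → Prop) (V C : Type) (z : PtT F → V)
        (z' : LnT F → V) (G₁ G₂ : V → MvPolynomial (Option (Fin (r + 2))) ℝ) (c : LnT F → C),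
        Sub B A → Ψ₀ J F A V C z z' G₁ G₂ c → Ψ₀ J F B V C z z' G₁ G₂ c) ∧
      Rw2 S' Ψ₀.swap (c (r + 1)) (c r) (t + -τ * q) (L (r + 1) (t + -τ * q) (t + -τ * q))
        (L r (t + -τ * q) (t + -τ * q)) a a (R * q) (h * a) (δ * (R * q)) N₀ ∧
      (∀ (J : ℕ) (F : Fam (r + 2) J) (A : F.Ω → Prop) (V C : Type) (z : PtT F → V)
        (z' : LnT F → V) (G₁ G₂ : V → MvPolynomial (Option (Fin (r + 2))) ℝ) (cc : LnT F → C),
        Ψ₀ J F A V C z z' G₁ G₂ cc → LbOK F ((range (r + 1)).image c) (c (r + 1))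
          (max D D * max 1 D) ⌊E₂ * J⌋₊ J ⌊(t + -τ * q) * J⌋₊ ⌊r₂ * J⌋₊
          ⌊(L (r + 1) (t + -τ * q) (t + -τ * q) - e' * q) * J⌋₊ A z z' G₂) ∧
      (∀ η e : ℝ, 0 < η → 0 < e → e ≤ Dr / 16 → StC S' c r K Ψ₀ e
        (fun i => if i = r + 1 then e₀ - μ / 2 else max 0 (L r (t + -Tn * q) (t + -Tn * q) -
          L i (t + -Tn * q) (t + -Tn * q))) (t + -Tn * q) (t + -τ * q) t
        (fun i => if i = r + 1 then ρ₀ - μ / 2 else L r (t + -Tn * q) (t + -Tn * q))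
        (fun i => if i = r + 1 then L (r + 1) (t + -Tn * q) (t + -Tn * q) - γ else
          L i (t + -Tn * q) (t + -Tn * q))
        (fun l j => L l (t + -Tn * q) (t + -Tn * q) + dgj A₁ Dr r l + 2 * Dr +
          j * (t + -τ * q - (t + -Tn * q)))
        (npQ (r + 2) c r (fun l x => L l x x) (t + -Tn * q) A₁ Dr) η η η) ∧
      ∀ e k δ' : ℝ, 0 < e → e ≤ e' * q → k < δ' → Cvr S' Ψ₀ (FmM (FmB Ψ₀ c r K e
        (fun i => if i = r + 1 then e₀ - μ / 2 else max 0 (L r (t + -Tn * q) (t + -Tn * q) -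
          L i (t + -Tn * q) (t + -Tn * q))) (t + -Tn * q) (t + -τ * q)
        (fun i => if i = r + 1 then ρ₀ - μ / 2 else L r (t + -Tn * q) (t + -Tn * q))
        (fun i => if i = r + 1 then L (r + 1) (t + -Tn * q) (t + -Tn * q) - γ else
          L i (t + -Tn * q) (t + -Tn * q))
        (fun l j => L l (t + -Tn * q) (t + -Tn * q) + dgj A₁ Dr r l + 2 * Dr +
          j * (t + -τ * q - (t + -Tn * q)))) (t + -τ * q) k) (c r) (c (r + 1)) (t + -τ * q)
        (L r (t + -Tn * q) (t + -Tn * q) + s + a * (t + -τ * q - (t + -Tn * q)) + a * (R * q))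
        (L (r + 1) (t + -Tn * q) (t + -Tn * q) + a * (t + -τ * q - (t + -Tn * q)) +
          a * (R * q)) δ' := by
  have Rc := H.rc
  have hq := Rc.q0
  have ht0 := Rc.t0
  have ht1 := Rc.t1
  have ha := H.ha
  have hK₀ := H.hK₀
  have hR := n.hR
  have hτR := n.hτ
  have hTn := n.hTn
  have he' := n.he'
  have hK5 := n.hK5
  have he2 := n.he2
  obtain ⟨S', h1, h2, hE, hr0, hr1, p₁, p₂, pa₁, pa₂, PE⟩ := H.pairs hr n w hk₀ hqμ N₀
  have hDK : D ≤ max D D * max 1 D := by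
    calc D = D * 1 := (mul_one D).symm
      _ ≤ D * max 1 D := Nat.mul_le_mul_left D (le_max_left 1 D)
      _ = max D D * max 1 D := by rw [max_self]
  have hDK' : D * max 1 D ≤ K := by
    refine le_trans (le_of_eq ?_) hK
    rw [max_self]
  have htm' : TmC S' 6 := tmc_sub h2 Rc.tmc
  have Np' : NpW S' c r (fun l x => L l x x) G (t + -Tn * q) (t + -τ * q) A₁ Dr φ' v₀ :=
    npW_sub h2 Np
  have hTq : (Tn + K₀ + 1) * q ≤ K' * q := mul_le_mul_of_nonneg_right hK5 hq.le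
  have hK₀q : 0 < K₀ * q := mul_pos hK₀ hq
  have hτq : 0 < τ * q := mul_pos (by linarith only [hR, hτR]) hq
  have hTτq : τ * q ≤ Tn * q := mul_le_mul_of_nonneg_right hTn hq.le
  have heq : 0 < e' * q := mul_pos he' hq
  have he2q : e' * q ≤ 1 / 64 * q := mul_le_mul_of_nonneg_right he2 hq.le
  have hRq : 0 < a * (R * q) := mul_pos (by linarith only [ha]) (mul_pos hR hq)
  obtain ⟨b, hb⟩ : ∃ b, b = t + -Tn * q := ⟨_, rfl⟩
  obtain ⟨v, hv⟩ : ∃ v, v = t + -τ * q := ⟨_, rfl⟩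
  have hbq : q < b := by
    rw [hb]
    linarith only [ht0, hTq, hK₀q]
  have hbv : b ≤ v := by
    rw [hb, hv]
    linarith only [hTτq]
  have hvt : v ≤ t := by
    rw [hv]
    linarith only [hτq]
  have ht1' : t ≤ 1 := by
    have : 0 < K' * q := by linarith only [hTq, hTτq, hτq, hK₀q, hq]
    linarith only [ht1, this]
  have hv1 : v ≤ 1 := hvt.trans ht1'
  have hDr := Np.D0
  have hA0 := Np.A0
  have hwD := Np.wD
  have hb1 := Np.b1
  -- the levels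
  have hKb : |(-Tn : ℝ)| ≤ K' := by
    rw [abs_neg, abs_of_pos (by linarith only [hR, hτR, hTn])]
    linarith only [hK5, hK₀]
  have hKv : |(-τ : ℝ)| ≤ K' := by
    rw [abs_neg, abs_of_pos (by linarith only [hR, hτR])]
    linarith only [hK5, hK₀, hTn]
  have hab : ∀ x : ℝ, |x| ≤ K' → |t + x * q - t| ≤ K' * q := fun x hx => by
    rw [add_sub_cancel_left, abs_mul, abs_of_pos hq]
    exact mul_le_mul_of_nonneg_right hx hq.le
  have hmn : ∀ l < r + 2, L l b b ≤ L l v v := fun l hl => by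
    rw [hb, hv]
    exact Rc.mnD hl (hab _ hKb) (hab _ hKv) (by linarith only [hTτq])
  have hlb : ∀ l < r + 2, b ≤ L l b b := fun l hl =>
    Rc.low_at hl (by linarith only [hbq, hq]) le_rfl (hbv.trans hv1)
  have hlv : ∀ l < r + 2, v ≤ L l v v := fun l hl =>
    Rc.low_at hl (by linarith only [hbq, hq, hbv]) le_rfl hv1
  have hc : ∀ e : ℝ, 0 < e → Bas S' (fun J F A => ∃ (V₁ : Type) (z : PtT F → V₁)
      (z' : LnT F → V₁) (g : V₁ → ℕ → MvPolynomial (Option (Fin (r + 2))) ℝ),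
      LbX F c 0 (r + 1) D e (fun i => max 0 (L r b b - L i b b)) b
        (fun _ => L r b b) (fun l => L l b b) A z z' g) := fun e he => by
    obtain ⟨j, hj, hj'⟩ := w.hWin 0 (by omega)
    have h3 := (H.hlab j hj).2 e he
    rw [hj', w.hW0, ← hb] at h3
    exact Bas.sub h2 h3
  rw [← hv] at hE hr0 hr1
  rw [← hb, ← hv] at Np' Np hnX hA hwD PE ⊢
  rw [← hb] at hb1
  refine ⟨S', h1, h2, _, _, _, PE.psl.2, PE.rw₂, fun J F A V C z z' G₁ G₂ cc h =>
    (PE.psl.1 J F A V C z z' G₁ G₂ cc h).2, fun η e hη he heD' => ?_, fun e k δ' he hee hk => ?_⟩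
  · exact PairE.stc (sn := fun l x => L l x x) h1 htm' PE hc hDK' (hDK.trans hK)
      (by
        show L (r + 1) b b - γ ≤ L (r + 1) b b - e' * q
        linarith only [hγ]) Np'.ch Np'.bG hbv hvt ht1' Np'.A0 Np'.D0 Np'.φD Np'.v Np'.b1 hη he heD'
  · have e0 : dgj A₁ Dr r 0 ≥ 4 * (A₁ + 4 * Dr) := dgj_lt hA0 hDr (by omega)
    have hgl : ∀ l < r, 4 * (A₁ + 4 * Dr) ≤ dgj A₁ Dr r l := fun l hl => dgj_lt hA0 hDr hl
    have hne : ∀ l < r, ¬ l = r + 1 := fun l hl => by omega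
    refine fmb_cvr (P₁ := L r b b - e' * q) (P₂ := L (r + 1) b b - γ - e' * q) htm' Np' hr
      (psq_psb _ _ _ _ _ _ _ _ _ _ _ _ _ _ _ _ _ _ _ _ _ _ _ _) (fun l _ => rfl)
      (fun i hi => ?_) (fun i _ => ?_) (mul_nonneg ?_ hq.le) hnX heq heD hee
      (fun l hl => if_neg (hne l hl)) ?_ ?_ ?_ ?_ ?_ ?_ ?_ ?_ ?_ ?_ (fun l _ i j hij => ?_)
      (fun l _ => ?_) (fun l _ => ?_) hk
    · have h3 := (hE i (by omega)).2
      have h4 := hlv i (by omega)
      have h5 : 0 < 3 * K' * q := by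
        have : 0 < K' * q := by linarith only [hTq, hTτq, hτq, hK₀q, hq]
        linarith only [this]
      linarith only [h3, h4, h5, hbv, hbq, hq]
    · exact hr0
    · have h3 := n.hℓ1
      have h4 := n.hkf2
      have h5 := n.hφ0
      have h6 : 0 < a * R := mul_pos (by linarith only [ha]) hR
      have h7 : (0 : ℝ) ≤ 2 * (r + 1) * φ := by positivity
      linarith only [h3, h4, h6, h7, hR, hτR]
    · have h3 := hlb r (by omega)
      linarith only [h3, hbq, he2q, hq]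
    · have h3 := hlb (r + 1) (by omega)
      linarith only [h3, hbq, he2q, hq, hγq]
    · have h3 := hmn r (by omega)
      show L r b b - e' * q < L r v v
      linarith only [h3, heq]
    · show L r b b - e' * q < if r = r + 1 then L (r + 1) b b - γ else L r b b
      rw [if_neg (by omega)]
      linarith only [heq]
    · have h3 := hmn (r + 1) (by omega)
      show L (r + 1) b b - γ - e' * q < L (r + 1) v v
      linarith only [h3, heq, hγ]
    · show L (r + 1) b b - γ - e' * q < if r + 1 = r + 1 then L (r + 1) b b - γ else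
        L (r + 1) b b
      rw [if_pos rfl]
      linarith only [heq]
    · linarith only [hb1, e0, hwD, hA, hA0, hDr, hγ, heq, heD]
    · intro l hl
      linarith only [hgl l hl, hA, hA0, hDr, hγ, heq, heD]
    · linarith only [hb1, e0, hwD, hA, hA0, hDr, hγ, heq, heD, hs]
    · intro l hl
      linarith only [hgl l hl, hA, hA0, hDr, hγ, heq, heD, hs]
    · have h3 : (i : ℝ) ≤ j := by exact_mod_cast hij
      have h4 := mul_le_mul_of_nonneg_right h3 (sub_nonneg.2 hbv)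
      show L l b b + dgj A₁ Dr r l + 2 * Dr + i * (v - b) ≤
        L l b b + dgj A₁ Dr r l + 2 * Dr + j * (v - b)
      linarith only [h4]
    · show L l b b + dgj A₁ Dr r l + 2 * Dr ≤ L l b b + dgj A₁ Dr r l + 2 * Dr +
        ((0 : ℕ) : ℝ) * (v - b)
      push_cast
      linarith only []
    · show L l b b + dgj A₁ Dr r l + 2 * Dr - b ≤ L l b b + dgj A₁ Dr r l + 2 * Dr +
        ((1 : ℕ) : ℝ) * (v - b) - v
      push_cast
      linarith only []

end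

end Pool.AB63
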