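import Pool.Agent.H63.AB.Stp
import Pool.Agent.H18.AB.Ded
import Pool.Agent.H30.LP.Nir
import Pool.Agent.H99.D2.Pye

/-!
# The common data of a step

`stc_of`: the data `StC` of the family `FmB` over the labels of the early window `b`, with the
near path `paQ` of the window `b`. `PairE.stc`: from the data of a jointly nonfull pair.
-/

set_option autoImplicit false

namespace Pool.AB63

open Finset Real MvPolynomial
open Pool.Agent.H49.Ent Pool.Agent.H32.Dense Pool.STK Pool.KA Pool.KSAT Pool.K2S Pool.PB Pool.GEN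
open Pool.S6C Pool.RCD Pool.LA91 Pool.OWN68 Pool.AJW Pool.AJX Pool.CHT Pool.PN18 Pool.LPK12
open Pool.TE46
open Pool.GRD (LbP)
open Pool.LP30 (paQ)
open Pool.RJ28 (dgj dgj_lt dgj_st dgj_le)
open Pool.CR99 (PairE)

variable {m : ℕ}

/-- **The common data of a step**, the digits of the near path `dgj A D r l + 2 D` behind the
levels of the window `b`. -/
theorem stc_of {S : PCl m} {C₀ : ℝ} (ne : S.Ne) (htm : TmC S C₀) {c : ℕ → Fin m} {r K : ℕ}
    {Ψ₀ : Fm2 m} {sn : ℕ → ℝ → ℝ} {G : Set ℝ} {b w t : ℝ}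
    (her : ∀ (J : ℕ) (F : Fam m J) (A B : F.Ω → Prop) (V C : Type) (z : PtT F → V)
      (z' : LnT F → V) (G₁ G₂ : V → MvPolynomial (Option (Fin m)) ℝ) (c : LnT F → C), Sub B A →
      Ψ₀ J F A V C z z' G₁ G₂ c → Ψ₀ J F B V C z z' G₁ G₂ c)
    (hcl : ∀ (J : ℕ) (F : Fam m J) (A : F.Ω → Prop) (V C : Type) (z : PtT F → V) (z' : LnT F → V)
      (G₁ G₂ : V → MvPolynomial (Option (Fin m)) ℝ) (c : LnT F → C), Ψ₀ J F A V C z z' G₁ G₂ c →
      ∀ ω, A ω → z (ptr F J ω) = z' (slam F ⌊w * J⌋₊ ω))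
    (hΨ : Bas S (fun J F A => ∃ (V C : Type) (z : PtT F → V) (z' : LnT F → V)
      (G₁ G₂ : V → MvPolynomial (Option (Fin m)) ℝ) (cc : LnT F → C), Ψ₀ J F A V C z z' G₁ G₂ cc))
    {K₁ Kc : ℕ} {En Rn Pn e₁ γ : ℝ} {Ec rc : ℕ → ℝ}
    (hd : Dcp2 Ψ₀ ((range r).image c) ((range (r + 1)).image c) (c (r + 1)) K₁ b w En Rn Pn e₁)
    (hc : ∀ e : ℝ, 0 < e → Bas S (fun J F A => ∃ (V₁ : Type) (z : PtT F → V₁) (z' : LnT F → V₁)
      (g : V₁ → ℕ → MvPolynomial (Option (Fin m)) ℝ),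
      LbX F c 0 (r + 1) Kc e Ec b rc (fun l => sn l b) A z z' g))
    (hK1 : K₁ ≤ K) (hKc : Kc ≤ K) (hγ : sn (r + 1) b - γ ≤ Pn - e₁)
    (hch : ChG S c r sn G) {A D φ : ℝ} {v₀ : ℕ → ℝ} (hb : b ∈ G) (hbw : b ≤ w) (hwt : w ≤ t)
    (ht : t ≤ 1) (hA : 0 ≤ A) (hD : 0 < D) (hφ : φ ≤ D / 2)
    (hv : ∀ i < r, v₀ i ∈ G ∧ 0 ≤ v₀ i ∧ b - v₀ i = dgj A D r i + 3 * D ∧
      |sn i b - sn i (v₀ i) - (b - v₀ i)| ≤ φ)
    (h1b : 3 * dgj A D r 0 + 6 * D ≤ 1 - b) {η e : ℝ} (hη : 0 < η) (he : 0 < e)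
    (he1 : e ≤ D / 16) :
    StC S c r K Ψ₀ e (fun i => if i = r + 1 then En else Ec i) b w t
      (fun i => if i = r + 1 then Rn else rc i)
      (fun i => if i = r + 1 then sn (r + 1) b - γ else sn i b)
      (fun l j => sn l b + dgj A D r l + 2 * D + j * (w - b))
      (paQ m c r b (fun l => sn l b) (fun l => sn l b + dgj A D r l + 2 * D)
        (fun l => sn l b + dgj A D r l + 2 * D - b)) η η η := by
  obtain ⟨u₁, rd, hrd, hcb⟩ := hch.ch b hb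
  have hb0 : 0 ≤ b := hcb.w0
  have hA' := paA htm hch (A := A) (D := D) (φ := φ) (v₀ := v₀) hb (hbw.trans hwt) ht hA hD hφ hv
    h1b
  have hA1 := hA'.mono he1
  have hX : ∀ l < r, ∀ i j : ℕ, i ≤ j → sn l b + dgj A D r l + 2 * D + i * (w - b) ≤
      sn l b + dgj A D r l + 2 * D + j * (w - b) := by
    intro l _ i j hij
    have h1 : (i : ℝ) ≤ j := by exact_mod_cast hij
    have h2 := mul_le_mul_of_nonneg_right h1 (sub_nonneg.2 hbw)
    linarith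
  have hp : ∀ l < r, (fun i => if i = r + 1 then sn (r + 1) b - γ else sn i b) l = sn l b := by
    intro l hl
    exact if_neg (by omega)
  have eQ : (paQ m c r b (fun i => if i = r + 1 then sn (r + 1) b - γ else sn i b)
      (fun l => sn l b + dgj A D r l + 2 * D) (fun l => sn l b + dgj A D r l + 2 * D - b)).P =
      (paQ m c r b (fun l => sn l b) (fun l => sn l b + dgj A D r l + 2 * D)
        (fun l => sn l b + dgj A D r l + 2 * D - b)).P := by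
    funext K e J F A u
    refine propext ⟨fun h => ⟨fun i h0 hi j hj => ?_, h.2⟩, fun h => ⟨fun i h0 hi j hj => ?_, h.2⟩⟩
    · have h1 := h.1 i h0 hi j hj
      have h2 := hp i hi
      dsimp only at h1 h2 ⊢
      rw [h2] at h1
      exact h1
    · have h1 := h.1 i h0 hi j hj
      have h2 := hp i hi
      dsimp only at h1 h2 ⊢
      rw [h2]
      exact h1
  refine ⟨ne, ⟨C₀, htm⟩, hb0.trans hbw, hwt, ht, her, ?_, ?_, ?_, ?_, ?_⟩
  · refine fmb_ex (K₁ := K₁) (Kc := Kc) hbw (hwt.trans ht) hcl hΨ hd (hc e he) hK1 hKc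
      (fun i hi => ?_) (fun i hi => ?_) (fun i hi => ?_) ?_ ?_ ?_
    · rw [if_neg (by omega : ¬ i = r + 1)]
    · rw [if_neg (by omega : ¬ i = r + 1)]
    · rw [if_neg (by omega : ¬ i = r + 1)]
    · rw [if_pos rfl]
      linarith
    · rw [if_pos rfl]
      linarith
    · rw [if_pos rfl]
      linarith
  · obtain ⟨K₀, M, h1⟩ := Pool.LP30.exs_pa hch hb (fun l => sn l b + dgj A D r l + 2 * D)
      (fun l => sn l b + dgj A D r l + 2 * D - b) e he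
    refine ⟨K₀, Bas.mono 0 h1 ?_⟩
    rintro J - F A ⟨u, hu, -⟩
    exact ⟨u, hu⟩
  · have h1 := FmB.np (Ψ₀ := Ψ₀) (c := c) (r := r) (K := K) (e := e)
      (E := fun i => if i = r + 1 then En else Ec i) (b := b) (w := w)
      (rd := fun i => if i = r + 1 then Rn else rc i)
      (p := fun i => if i = r + 1 then sn (r + 1) b - γ else sn i b)
      (X := fun l (j : ℕ) => sn l b + dgj A D r l + 2 * D + j * (w - b))
      htm (hb0.trans hbw) (hwt.trans ht) (γ := 0) (e₁ := e) (δ₁ := η)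
      (nH := fun l => sn l b + dgj A D r l + 2 * D)
      (nV := fun l => sn l b + dgj A D r l + 2 * D - b) le_rfl hX
      (fun l _ => by simp) (fun l _ => by
        push_cast
        linarith) le_rfl (by simpa using hη)
    obtain ⟨K₀, h1⟩ := h1
    refine ⟨K₀, Bas.mono 0 h1 ?_⟩
    intro J _ F A h2 V C z z' G₁ G₂ cc hcc
    obtain ⟨u, hu, h3⟩ := h2 V C z z' G₁ G₂ cc hcc
    rw [eQ] at hu
    exact ⟨u, hu, h3⟩
  · exact nearPa htm hA1 (fun l _ => le_rfl) (fun l _ => le_rfl) hη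
  · refine FmB.ctx htm (hb0.trans hbw) hwt ht ptr_id (fun J F => ⟨id, fun _ => rfl⟩) hX
      (fun η' hη' l hl j _ => ?_) hη
    have h1 := hA1 (η' / 2) (half_pos hη') l (Nat.zero_le l) hl j
    rw [show (if l = r + 1 then sn (r + 1) b - γ else sn l b) = sn l b from hp l hl]
    refine (f1_low htm ?_ (half_pos hη') h1).mono le_rfl (by linarith)
    exact le_of_eq (by ring)

/-- **The common data of a step** from the data of a jointly nonfull pair. -/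
theorem PairE.stc {S : PCl m} {C₀ : ℝ} (ne : S.Ne) (htm : TmC S C₀) {c : ℕ → Fin m} {r K : ℕ}
    {Ψ₀ : Fm2 m} {sn : ℕ → ℝ → ℝ} {G : Set ℝ} {b w t : ℝ} {Kp N₀ : ℕ}
    {a a' R h δ ℓ t₁ q e₁ E₂ r₂ p₂ En Rn Pn γ : ℝ} {p n : ℕ → ℝ} {lN : ℝ → ℝ} {pf : ℕ → ℝ}
    {Nf : ℕ → ℕ → ℝ} {E rd : ℕ → ℝ} {K₁ Kc : ℕ} {Ec rc : ℕ → ℝ}
    (PE : PairE S Ψ₀ c r Kp ((range (r + 1)).image c) (c (r + 1)) a a' R h δ ℓ N₀ w t₁ q p n lN
      pf Nf e₁ E₂ r₂ p₂ E rd b Pn En Rn K₁)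
    (hc : ∀ e : ℝ, 0 < e → Bas S (fun J F A => ∃ (V₁ : Type) (z : PtT F → V₁) (z' : LnT F → V₁)
      (g : V₁ → ℕ → MvPolynomial (Option (Fin m)) ℝ),
      LbX F c 0 (r + 1) Kc e Ec b rc (fun l => sn l b) A z z' g))
    (hK1 : K₁ ≤ K) (hKc : Kc ≤ K) (hγ : sn (r + 1) b - γ ≤ Pn - e₁)
    (hch : ChG S c r sn G) {A D φ : ℝ} {v₀ : ℕ → ℝ} (hb : b ∈ G) (hbw : b ≤ w) (hwt : w ≤ t)
    (ht : t ≤ 1) (hA : 0 ≤ A) (hD : 0 < D) (hφ : φ ≤ D / 2)
    (hv : ∀ i < r, v₀ i ∈ G ∧ 0 ≤ v₀ i ∧ b - v₀ i = dgj A D r i + 3 * D ∧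
      |sn i b - sn i (v₀ i) - (b - v₀ i)| ≤ φ)
    (h1b : 3 * dgj A D r 0 + 6 * D ≤ 1 - b) {η e : ℝ} (hη : 0 < η) (he : 0 < e)
    (he1 : e ≤ D / 16) :
    StC S c r K Ψ₀ e (fun i => if i = r + 1 then En else Ec i) b w t
      (fun i => if i = r + 1 then Rn else rc i)
      (fun i => if i = r + 1 then sn (r + 1) b - γ else sn i b)
      (fun l j => sn l b + dgj A D r l + 2 * D + j * (w - b))
      (paQ m c r b (fun l => sn l b) (fun l => sn l b + dgj A D r l + 2 * D)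
        (fun l => sn l b + dgj A D r l + 2 * D - b)) η η η :=
  stc_of ne htm PE.psl.2
    (fun J F A V C z z' G₁ G₂ cc h => ((PE.psl.1 J F A V C z z' G₁ G₂ cc h).2).cls)
    PE.ex PE.dcp hc hK1 hKc hγ hch hb hbw hwt ht hA hD hφ hv h1b hη he he1

end Pool.AB63
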