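import Pool.Agent.H63.AB.Ctx
import Pool.Agent.H46.TE.Trb

/-!
# One tie and one hop over the labels of the early window

`tie_stp`: `tie_rb` for the family `FmB` with maximal codes, from few bits, alive and `IpF` in the
class; `hop_stp`: `hop_rb`.
-/

set_option autoImplicit false

namespace Pool.AB63

open Finset Real MvPolynomial
open Pool.Agent.H49.Ent Pool.Agent.H32.Dense Pool.STK Pool.KA Pool.KSAT Pool.K2S Pool.PB Pool.GEN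
open Pool.S6C Pool.RCD Pool.LA91 Pool.OWN68 Pool.AJW Pool.AJX Pool.CHT Pool.PN18 Pool.LPK12
open Pool.TE46
open Pool.GRD (LbP)

/-- **The common data of a step**: the family `FmB` at the window `w`, the record window `t`, the
quantity `Qp`, accuracy `e`, errors `δ₁`, `δc`. -/
structure StC {m : ℕ} (S : PCl m) (c : ℕ → Fin m) (r K : ℕ) (Ψ₀ : Fm2 m) (e : ℝ) (E : ℕ → ℝ)
    (b w t : ℝ) (rd p : ℕ → ℝ) (X : ℕ → ℕ → ℝ) {U : Type} (Qp : Qt m U) (δn δs δc : ℝ) : Prop where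
  ne : S.Ne
  tm : ∃ C₀ : ℝ, TmC S C₀
  w0 : 0 ≤ w
  wt : w ≤ t
  t1 : t ≤ 1
  her : ∀ (J : ℕ) (F : Fam m J) (A B : F.Ω → Prop) (V C : Type) (z : PtT F → V)
      (z' : LnT F → V) (G₁ G₂ : V → MvPolynomial (Option (Fin m)) ℝ) (c : LnT F → C), Sub B A →
      Ψ₀ J F A V C z z' G₁ G₂ c → Ψ₀ J F B V C z z' G₁ G₂ c
  ex : Bas S (fun J F A => ∃ (V C : Type) (z : PtT F → V) (z' : LnT F → V)
      (G₁ G₂ : V → MvPolynomial (Option (Fin m)) ℝ) (cc : LnT F → C),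
      FmB Ψ₀ c r K e E b w rd p X J F A V C z z' G₁ G₂ cc)
  pa : ∃ K₀ : ℕ, Bas S (fun J F A => ∃ u₀ : F.Ω → U, Qp.P K₀ e J F A u₀)
  np : NpF S (FmB Ψ₀ c r K e E b w rd p X) w Qp e δn
  self : F1 S (fun J F => ptr F J) (vg t) (fun _ F => F.T) Qp Qp e δs
  ctx : Fw2 S (fun J F => ptr F J) t (fun _ F => F.T) Qp (FmB Ψ₀ c r K e E b w rd p X)
    (τ := fun _ _ _ C => C) (fun J F _ _ _ _ _ cc ω => cc (vg w J F ω)) e δc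

/-- **One tie.** -/
theorem tie_stp (K B : ℕ) {i : ℕ} (hi : 1 ≤ i ∧ i ≤ K + 2) {α : ℝ} (hα : 0 < α) {h : ℝ}
    (hh : 0 < h) (hhα : h ≤ α) {ηl : ℝ} (hηl : 0 < ηl) {ε₁ : ℝ} (hε₁ : 0 < ε₁) :
    ∃ ε' : ℝ, 0 < ε' ∧ ∃ ε : ℝ, 0 < ε ∧ ε ≤ ε₁ ∧ ∃ δ : ℝ, 0 < δ ∧ ∃ N₀ : ℕ, 0 < N₀ ∧ ∀ al : ℝ, 0 < al →
    ∃ δ₁ : ℝ, 0 < δ₁ ∧
    ∀ {m : ℕ} {S : PCl m} {c : ℕ → Fin m} {r : ℕ} {Ψ₀ : Fm2 m} {e : ℝ} {E : ℕ → ℝ}
    {b w t : ℝ} {rd p : ℕ → ℝ} {X : ℕ → ℕ → ℝ} {U : Type} {Qp : Qt m U} {δn δs δc p₁ p₂ q k κ δh : ℝ}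
    (_ : StC S c r K Ψ₀ e E b w t rd p X Qp δn δs δc) (_ : 0 < q) (_ : w + α * q ≤ 1) (_ : 0 ≤ k)
    (_ : δc ≤ δ₁ * q) (_ : κ + δn + δc + δs ≤ δ₁ * q) (_ : δn + δh + k ≤ δ₁ * q)
    {I₀ : Finset (Fin m)} {N₁ N₂ : ℕ → ℝ},
    NwE (K + 2) {i} w p₁ α q N₁ → NwE (K + 2) {i} w p₂ α q N₂ →
    (∀ j ≤ K + 2, F1 S (fun J F => ptr F J) (vg t) (fun _ F => F.T) Qp
      (qJet m ((range r).image c) (c r) j b (p r) (N₁ j)) e (δ₁ * q)) →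
    (∀ j ≤ K + 2, F1 S (fun J F => ptr F J) (vg t) (fun _ F => F.T) Qp
      (qJet m ((range (r + 1)).image c) (c (r + 1)) j b (p (r + 1)) (N₂ j)) e (δ₁ * q)) →
    (∀ j, i < j → j ≤ K + 2 → F1 S (fun J F => ptr F J) (vg w) (fun _ F => F.T) Qp
      (qJet m ((range r).image c) (c r) j b (p r) (p₁ + α * q - j * w)) e δh) →
    (∀ j, i < j → j ≤ K + 2 → F1 S (fun J F => ptr F J) (vg w) (fun _ F => F.T) Qp
      (qJet m ((range (r + 1)).image c) (c (r + 1)) j b (p (r + 1)) (p₂ + α * q - j * w)) e δh) →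
    IpF S (fun J F => ptr F J) w t (fun _ F => F.T) Qp
      ((qJet m ((range r).image c) (c r) i b (p r) (p₁ + α * q - i * w)).prod
        (qJet m ((range (r + 1)).image c) (c (r + 1)) i b (p (r + 1)) (p₂ + α * q - i * w)))
      ((qJet m ((range r).image c) (c r) i b (p r) (p₁ - i * w)).prod
        (qJet m ((range (r + 1)).image c) (c (r + 1)) i b (p (r + 1)) (p₂ - i * w))) e k κ →
    AlF S (fun J F => ptr F J) t (fun _ F => F.T) Qp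
      (qJet m ((range r).image c) (c r) i b (p r) (p₁ + ε' * (α * q) - i * w)) e (al * q) →
    Rw2 S (FmB Ψ₀ c r K e E b w rd p X).swap (c (r + 1)) (c r) w (p₂ - α * q) (p₁ - α * q) α α
      (2 * q) h (δ * q) N₀ →
    Fr2 S (FmM (FmB Ψ₀ c r K e E b w rd p X) w k) I₀ (c r) (c (r + 1)) w (p₁ + α * q)
      (p₂ + α * q) B (δ₁ * q) →
    Fl2 S (FmB Ψ₀ c r K e E b w rd p X) I₀ (c r) (c (r + 1)) w p₁ p₂ (α * q) ε
      ((α - h + ηl) * q * Real.log 2) → False := by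
  obtain ⟨ε', hε', ε, hε, hεε, δ, hδ, N₀, hN₀, H⟩ := tie_rb K B hi hα hh hhα hηl hε₁
  refine ⟨ε', hε', ε, hε, hεε, δ, hδ, N₀, hN₀, fun al hal => ?_⟩
  obtain ⟨δ₁, hδ₁, H⟩ := H al hal
  refine ⟨δ₁, hδ₁, ?_⟩
  intro m S c r Ψ₀ e E b w t rd p X U Qp δn δs δc p₁ p₂ q k κ δh D hq hwq hk hc1 hc2 hc3 I₀ N₁ N₂
    hN1 hN2 hj1 hj2 hu hn hIp hAl hRw hFr hFl
  obtain ⟨C₀, htm⟩ := D.tm
  obtain ⟨K₀, hpa⟩ := D.pa
  refine H htm D.ne D.w0 D.wt D.t1 hq hwq (Qu := Qp) (f := fun J F => ptr F J)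
    (y := fun _ F => F.T) ptr_id (fun J F => ⟨id, fun _ => rfl⟩) (e := e)
    (FmB Ψ₀ c r K e E b w rd p X) (FmB.lab (Ψ₀ := Ψ₀)) (FmB.hs D.her)
    (Ψ' := FmM (FmB Ψ₀ c r K e E b w rd p X) w k) (fun J F A V C z z' G₁ G₂ c h => h.1)
    ((fmm_ex htm hk D.ex).and hpa) hN1 hN2 ?_ ?_ hRw ?_ ?_ ?_ (FmB.alu hAl) hFr hFl
  · obtain ⟨M1, J1, x1⟩ := FmB.qu Ψ₀ c r K e E b w rd p X (p₁ + α * q - i * w) i
    obtain ⟨M2, J2, x2⟩ := FmB.qn Ψ₀ c r K e E b w rd p X (p₂ + α * q - i * w) i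
    obtain ⟨M3, J3, x3⟩ := FmB.qu Ψ₀ c r K e E b w rd p X (p₁ - i * w) i
    obtain ⟨M4, J4, x4⟩ := FmB.qn Ψ₀ c r K e E b w rd p X (p₂ - i * w) i
    refine ip3_of_ipf htm D.wt D.t1
      (fun J F A V C z z' G₁ G₂ c h => (FmB.lab J F A V C z z' G₁ G₂ c h).2.2)
      D.np hIp ⟨max M1 M2, max J1 J2, fun J hJ F A V C z z' G₁ G₂ c h => ⟨?_, ?_⟩⟩
      ⟨max M3 M4, max J3 J4, fun J hJ F A V C z z' G₁ G₂ c h => ⟨?_, ?_⟩⟩ D.ctx D.self hc2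
    · exact (qJet m _ _ _ _ _ _).mono (le_max_left _ _) le_rfl
        (x1 J ((le_max_left _ _).trans hJ) F A V C z z' G₁ G₂ c h)
    · exact (qJet m _ _ _ _ _ _).mono (le_max_right _ _) le_rfl
        (x2 J ((le_max_right _ _).trans hJ) F A V C z z' G₁ G₂ c h)
    · exact (qJet m _ _ _ _ _ _).mono (le_max_left _ _) le_rfl
        (x3 J ((le_max_left _ _).trans hJ) F A V C z z' G₁ G₂ c h)
    · exact (qJet m _ _ _ _ _ _).mono (le_max_right _ _) le_rfl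
        (x4 J ((le_max_right _ _).trans hJ) F A V C z z' G₁ G₂ c h)
  · intro K₁
    refine Bas.mono 0 (D.ctx K₁) ?_
    intro J _ F A h V C z z' G₁ G₂ c hc u₀ hu₀
    obtain ⟨V₁, z₁, hz₁, h1⟩ := h V C z z' G₁ G₂ c hc u₀ hu₀
    exact ⟨V₁, z₁, hz₁, h1.trans (mul_le_mul_of_nonneg_right hc1 (Nat.cast_nonneg J))⟩
  · exact fun j hj => FmB.fwu (hj1 j hj)
  · exact fun j hj => FmB.fwn (hj2 j hj)
  · exact hi2_of htm D.np hu hn hc3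

/-- **One hop.** -/
theorem hop_stp (K : ℕ) {i : ℕ} (hi : 1 ≤ i ∧ i ≤ K + 2) {α : ℝ} (hα : 0 < α) {h : ℝ}
    (hh : 0 < h) (hhα : h ≤ α) :
    ∃ ε' : ℝ, 0 < ε' ∧ ∃ δ : ℝ, 0 < δ ∧ ∀ al : ℝ, 0 < al →
    ∃ δ₁ : ℝ, 0 < δ₁ ∧
    ∀ {m : ℕ} {S : PCl m} {c : ℕ → Fin m} {r : ℕ} {Ψ₀ : Fm2 m} {e : ℝ} {E : ℕ → ℝ}
    {b w t : ℝ} {rd p : ℕ → ℝ} {X : ℕ → ℕ → ℝ} {U : Type} {Qp : Qt m U}
    {δn δs δc P₁ p₁ p₂ q k κ δh δu : ℝ}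
    (_ : StC S c r K Ψ₀ e E b w t rd p X Qp δn δs δc) (_ : 0 < q) (_ : w + α * q ≤ 1) (_ : 0 ≤ k)
    (_ : δc ≤ δ₁ * q) (_ : κ + δn + δc + δs + δu + (δn + δh + k) ≤ δ₁ * q)
    (_ : δn + δh + k ≤ δ₁ * q) {N₁ N₂ : ℕ → ℝ},
    (∀ j ≤ K + 2, P₁ - j * w ≤ N₁ j) → NwE (K + 2) {i} w p₂ α q N₂ →
    (∀ j ≤ K + 2, F1 S (fun J F => ptr F J) (vg t) (fun _ F => F.T) Qp
      (qJet m ((range r).image c) (c r) j b (p r) (N₁ j)) e (δ₁ * q)) →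
    (∀ j ≤ K + 2, F1 S (fun J F => ptr F J) (vg t) (fun _ F => F.T) Qp
      (qJet m ((range (r + 1)).image c) (c (r + 1)) j b (p (r + 1)) (N₂ j)) e (δ₁ * q)) →
    (∀ j, i < j → j ≤ K + 2 → F1 S (fun J F => ptr F J) (vg w) (fun _ F => F.T) Qp
      (qJet m ((range (r + 1)).image c) (c (r + 1)) j b (p (r + 1)) (p₂ + α * q - j * w)) e δh) →
    IpF S (fun J F => ptr F J) w t (fun _ F => F.T) Qp
      ((qJet m ((range r).image c) (c r) i b (p r) (p₁ + α * q - i * w)).prod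
        (qJet m ((range (r + 1)).image c) (c (r + 1)) i b (p (r + 1)) (p₂ + α * q - i * w)))
      ((qJet m ((range r).image c) (c r) i b (p r) (p₁ - i * w)).prod
        (qJet m ((range (r + 1)).image c) (c (r + 1)) i b (p (r + 1)) (p₂ - i * w))) e k κ →
    F1 S (fun J F => ptr F J) (vg t) (fun _ F => F.T) Qp
      (qJet m ((range r).image c) (c r) i b (p r) (p₁ + α * q - i * w)) e δu →
    F1 S (fun J F => ptr F J) (vg w) (fun _ F => F.T) Qp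
      (qJet m ((range r).image c) (c r) i b (p r) (p₁ - i * w)) e δh →
    AlF S (fun J F => ptr F J) t (fun _ F => F.T) Qp
      (qJet m ((range (r + 1)).image c) (c (r + 1)) i b (p (r + 1))
        (p₂ + ε' * (α * q) - i * w)) e (al * q) →
    Row1 S (FmB Ψ₀ c r K e E b w rd p X) (c r) (c (r + 1)) w P₁ p₂ (α * q)
      ((α - h) * q * Real.log 2 + δ * q) → False := by
  obtain ⟨ε', hε', δ, hδ, H⟩ := hop_rb K hi hα hh hhα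
  refine ⟨ε', hε', δ, hδ, fun al hal => ?_⟩
  obtain ⟨δ₁, hδ₁, H⟩ := H al hal
  refine ⟨δ₁, hδ₁, ?_⟩
  intro m S c r Ψ₀ e E b w t rd p X U Qp δn δs δc P₁ p₁ p₂ q k κ δh δu D hq hwq hk hc1 hc2 hc3
    N₁ N₂ hN1 hN2 hj1 hj2 hn hIp hu1 hu2 hAl hRw
  obtain ⟨C₀, htm⟩ := D.tm
  obtain ⟨K₀, hpa⟩ := D.pa
  refine H htm D.ne D.w0 D.wt D.t1 hq hwq (Qu := Qp) (f := fun J F => ptr F J)
    (y := fun _ F => F.T) ptr_id (fun J F => ⟨id, fun _ => rfl⟩) (e := e)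
    (FmB Ψ₀ c r K e E b w rd p X) (FmB.lab (Ψ₀ := Ψ₀)) (FmB.hs D.her)
    (Ψ' := FmM (FmB Ψ₀ c r K e E b w rd p X) w k) (fun J F A V C z z' G₁ G₂ c h => h.1)
    ((fmm_ex htm hk D.ex).and hpa) hN1 hN2 ?_ ?_ hRw ?_ ?_ ?_ (FmB.aln hAl)
  · obtain ⟨M1, J1, x1⟩ := FmB.qu Ψ₀ c r K e E b w rd p X (p₁ + α * q - i * w) i
    obtain ⟨M2, J2, x2⟩ := FmB.qn Ψ₀ c r K e E b w rd p X (p₂ + α * q - i * w) i
    obtain ⟨M3, J3, x3⟩ := FmB.qu Ψ₀ c r K e E b w rd p X (p₁ - i * w) i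
    obtain ⟨M4, J4, x4⟩ := FmB.qn Ψ₀ c r K e E b w rd p X (p₂ - i * w) i
    have h3 := ip3_of_ipf (Qu := Qp) (κ₁ := c r) (κ₂ := c (r + 1)) (p₁ := p₁) (p₂ := p₂)
      (αq := α * q) (i := i) htm D.wt D.t1
      (fun J F A V C z z' G₁ G₂ c h => (FmB.lab J F A V C z z' G₁ G₂ c h).2.2)
      D.np hIp ⟨max M1 M2, max J1 J2, fun J hJ F A V C z z' G₁ G₂ c h => ⟨
        (qJet m _ _ _ _ _ _).mono (le_max_left _ _) le_rfl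
          (x1 J ((le_max_left _ _).trans hJ) F A V C z z' G₁ G₂ c h),
        (qJet m _ _ _ _ _ _).mono (le_max_right _ _) le_rfl
          (x2 J ((le_max_right _ _).trans hJ) F A V C z z' G₁ G₂ c h)⟩⟩
      ⟨max M3 M4, max J3 J4, fun J hJ F A V C z z' G₁ G₂ c h => ⟨
        (qJet m _ _ _ _ _ _).mono (le_max_left _ _) le_rfl
          (x3 J ((le_max_left _ _).trans hJ) F A V C z z' G₁ G₂ c h),
        (qJet m _ _ _ _ _ _).mono (le_max_right _ _) le_rfl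
          (x4 J ((le_max_right _ _).trans hJ) F A V C z z' G₁ G₂ c h)⟩⟩ D.ctx D.self le_rfl
    refine ip1_of_ip3 htm h3 ?_ (ch_of_f1 htm (X := fun J F _ _ z' G₁ _ _ =>
      oj F (c r) z' G₁ ⌊w * J⌋₊ (p₁ - i * w) i) D.np hu2 ⟨M3, J3, x3⟩ le_rfl) hc2
    exact fw2_of_f1 (Ψ := FmM (FmB Ψ₀ c r K e E b w rd p X) w k)
      (X := fun J F _ _ z' G₁ _ _ => oj F (c r) z' G₁ ⌊w * J⌋₊ (p₁ + α * q - i * w) i) hu1
      ⟨M1, J1, fun J hJ F A V C z z' G₁ G₂ cc h => x1 J hJ F A V C z z' G₁ G₂ cc h.1⟩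
  · intro K₁
    refine Bas.mono 0 (D.ctx K₁) ?_
    intro J _ F A h V C z z' G₁ G₂ c hc u₀ hu₀
    obtain ⟨V₁, z₁, hz₁, h1⟩ := h V C z z' G₁ G₂ c hc u₀ hu₀
    exact ⟨V₁, z₁, hz₁, h1.trans (mul_le_mul_of_nonneg_right hc1 (Nat.cast_nonneg J))⟩
  · exact fun j hj => FmB.fwu (hj1 j hj)
  · exact fun j hj => FmB.fwn (hj2 j hj)
  · exact hi1_of htm D.np hn hc3

end Pool.AB63
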